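import Mathlib
import Pool.Agent.N984.TW.Ens

/-!
# Task R-B, part 1: sheets and curls in the centre
-/

open MeasureTheory Matrix Filter
open scoped Matrix.Norms.Frobenius Topology ENNReal
open Pool.Agent.H906R3.YM Pool.Agent.W793.YM Pool.Agent.TH618.YM

namespace Pool.Agent.N984.TW

set_option linter.unusedSectionVars false

noncomputable section

variable {N l n : ℕ} [NeZero N] [NeZero l]

/-! ### identities in commutative groups -/

lemma cg1 {G : Type*} [CommGroup G] (A B x : G) : A⁻¹ * B⁻¹ * (A⁻¹ * (B * x)⁻¹)⁻¹ = x := by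
  rw [mul_inv, mul_inv, inv_inv, _root_.mul_inv_rev, inv_inv, inv_inv]
  calc A⁻¹ * B⁻¹ * (A * (x * B)) = (A⁻¹ * A) * (B⁻¹ * B) * x := by
        simp only [mul_assoc, mul_comm, mul_left_comm]
    _ = x := by rw [inv_mul_cancel, inv_mul_cancel, one_mul, one_mul]

lemma cg2 {G : Type*} [CommGroup G] (A B C c x : G) (h : c * C = B * x) :
    A⁻¹ * B⁻¹ * ((A * c)⁻¹ * C⁻¹)⁻¹ = x := by
  have h1 : A⁻¹ * B⁻¹ * ((A * c)⁻¹ * C⁻¹)⁻¹ = (A⁻¹ * A) * (B⁻¹ * (c * C)) := by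
    rw [_root_.mul_inv_rev, inv_inv, inv_inv]
    simp only [mul_assoc, mul_comm, mul_left_comm]
  rw [h1, h, inv_mul_cancel, one_mul, inv_mul_cancel_left]

lemma cg3 {G : Type*} [CommGroup G] (c1 c2 c3 c4 d1 d2 d3 d4 : G) :
    d1 * c1⁻¹ * (d2 * c2⁻¹) * (d3 * c3⁻¹)⁻¹ * (d4 * c4⁻¹)⁻¹ =
      (d1 * d2 * d3⁻¹ * d4⁻¹) * (c1 * c2 * c3⁻¹ * c4⁻¹)⁻¹ := by
  simp only [mul_inv, inv_inv]
  simp only [mul_assoc, mul_comm, mul_left_comm]

namespace Dat

variable (𝔇 : Dat N l n)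

instance instCommGroupZc : CommGroup 𝔇.Zc :=
  { (inferInstance : Group 𝔇.Zc) with
    mul_comm := fun a b => Subtype.ext (𝔇.cen a.1 a.2 b.1) }

instance instFintypeZc : Fintype 𝔇.Zc := Fintype.ofFinite _

/-- multiplication of the plane links by elements of the stabiliser -/
def zmul (ζ : Pl → Fin 2 → 𝔇.Zc) (U : Pl → Fib N l) : Pl → Fib N l := fun X p =>
  Fin.addCases (m := 2) (n := 2) (fun k => ((ζ X k : 𝔇.Zc) : Tor l → SU N) p.1) (fun _ => 1) p.2 *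
    U X p

lemma psi_zmul (ζ : Pl → Fin 2 → 𝔇.Zc) (U : Pl → Fib N l) (X : Pl) (k : Fin 2) :
    psi (𝔇.zmul ζ U X) k = ((ζ X k : 𝔇.Zc) : Tor l → SU N) * psi (U X) k := by
  funext y
  show Fin.addCases (m := 2) (n := 2) (fun k => ((ζ X k : 𝔇.Zc) : Tor l → SU N) y)
    (fun _ => 1) (Fin.castAdd 2 k) * U X (y, Fin.castAdd 2 k) = _
  rw [Fin.addCases_left]
  rfl

lemma phi_zmul (ζ : Pl → Fin 2 → 𝔇.Zc) (U : Pl → Fib N l) (X : Pl) :
    phi (𝔇.zmul ζ U X) = phi (U X) := by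
  funext e
  show Fin.addCases (m := 2) (n := 2) (fun k => ((ζ X k : 𝔇.Zc) : Tor l → SU N) e.1)
    (fun _ => 1) (Fin.natAdd 2 e.2) * U X (e.1, Fin.natAdd 2 e.2) = _
  rw [Fin.addCases_right, one_mul]
  rfl

end Dat

/-- two fibres with the same links are equal -/
lemma fib_ext {u u' : Fib N l} (h1 : phi u = phi u') (h2 : ∀ k, psi u k = psi u' k) : u = u' := by
  funext p
  obtain ⟨y, i⟩ := p
  induction i using Fin.addCases (m := 2) (n := 2) with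
  | left k => exact congrFun (h2 k) y
  | right j => exact congrFun h1 (y, j)

lemma eP_cast (k : Fin 2) : eP (Fin.castAdd 2 k) = uP k := by fin_cases k <;> rfl

lemma eP_nat (j : Fin 2) : eP (Fin.natAdd 2 j) = 0 := by fin_cases j <;> rfl

/-- `DepOn` in terms of the fibres -/
lemma DepOn.eq {α : Type*} {F : (Pl → Fib N l) → α} {D : Finset Pl} (hD : DepOn F D)
    {U U' : Pl → Fib N l} (h1 : ∀ X ∈ D, phi (U X) = phi (U' X))
    (h2 : ∀ X ∈ D, ∀ k, X + uP k ∈ D → psi (U X) k = psi (U' X) k) : F U = F U' := by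
  refine hD U U' fun X p hX hp => ?_
  obtain ⟨y, i⟩ := p
  induction i using Fin.addCases (m := 2) (n := 2) with
  | left k =>
    have hp' : X + uP k ∈ D := by rw [← eP_cast]; exact hp
    exact congrFun (h2 X hX k hp') y
  | right j => exact congrFun (h1 X hX) (y, j)

namespace Dat

variable (𝔇 : Dat N l n)

/-- the curl of a `Zc`-valued function of the plane links -/
def curl (ζ : Pl → Fin 2 → 𝔇.Zc) (X : Pl) : 𝔇.Zc :=
  ζ X 0 * ζ (X + uP 0) 1 * (ζ (X + uP 1) 0)⁻¹ * (ζ X 1)⁻¹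

/-- the gauge transformation of a flat function -/
def hh (a : Pl) (η : Pl → Fin 2 → 𝔇.Zc) (X : Pl) : 𝔇.Zc :=
  (∏ i ∈ Finset.range (X.1 - a.1).toNat, η (a.1 + i, a.2) 0)⁻¹ *
    (∏ i ∈ Finset.range (X.2 - a.2).toNat, η (X.1, a.2 + i) 1)⁻¹

lemma hh_one {a b : Pl} (η : Pl → Fin 2 → 𝔇.Zc) {X : Pl} (hX : X ∈ Finset.Icc a b) :
    𝔇.hh a η X * (𝔇.hh a η (X + uP 1))⁻¹ = η X 1 := by
  rw [Finset.mem_Icc, Prod.le_def, Prod.le_def] at hX
  obtain ⟨⟨h1, h2⟩, h3, h4⟩ := hX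
  have e1 : (X + uP 1).1 = X.1 := by simp [uP]
  have e2 : ((X + uP 1).2 - a.2).toNat = (X.2 - a.2).toNat + 1 := by
    have : (X + uP 1).2 = X.2 + 1 := by simp [uP]
    rw [this]; omega
  have e3 : a.2 + (((X.2 - a.2).toNat : ℕ) : ℤ) = X.2 := by omega
  unfold hh
  rw [e1, e2, Finset.prod_range_succ, e3]
  have e4 : (X.1, X.2) = X := rfl
  rw [e4]
  generalize (∏ i ∈ Finset.range (X.1 - a.1).toNat, η (a.1 + i, a.2) 0) = A
  generalize (∏ i ∈ Finset.range (X.2 - a.2).toNat, η (X.1, a.2 + i) 1) = B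
  exact cg1 A B (η X 1)

lemma hh_zero {a b : Pl} (η : Pl → Fin 2 → 𝔇.Zc) (hη : ∀ X, X ∈ Finset.Icc a b →
    X + uP 0 + uP 1 ∈ Finset.Icc a b → 𝔇.curl η X = 1) {X : Pl} (hX : X ∈ Finset.Icc a b)
    (hX' : X + uP 0 ∈ Finset.Icc a b) :
    𝔇.hh a η X * (𝔇.hh a η (X + uP 0))⁻¹ = η X 0 := by
  rw [Finset.mem_Icc, Prod.le_def, Prod.le_def] at hX hX'
  obtain ⟨⟨h1, h2⟩, h3, h4⟩ := hX
  obtain ⟨⟨h1', h2'⟩, h3', h4'⟩ := hX'
  have e1 : (X + uP 0).1 = X.1 + 1 := by simp [uP]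
  have e2 : (X + uP 0).2 = X.2 := by simp [uP]
  rw [e1] at h1' h3'
  rw [e2] at h2' h4'
  have e3 : (X.1 + 1 - a.1).toNat = (X.1 - a.1).toNat + 1 := by omega
  have e4 : a.1 + (((X.1 - a.1).toNat : ℕ) : ℤ) = X.1 := by omega
  have e5 : a.2 + (((X.2 - a.2).toNat : ℕ) : ℤ) = X.2 := by omega
  unfold hh
  rw [e1, e2, e3, Finset.prod_range_succ, e4]
  -- induction over the height
  have key : ∀ m : ℕ, a.2 + m ≤ b.2 → η (X.1, a.2) 0 *
      (∏ i ∈ Finset.range m, η (X.1 + 1, a.2 + i) 1) =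
        (∏ i ∈ Finset.range m, η (X.1, a.2 + i) 1) * η (X.1, a.2 + m) 0 := by
    intro m
    induction m with
    | zero => intro _; simp
    | succ m ih =>
      intro hm
      have hm' : a.2 + (m : ℤ) ≤ b.2 := by push_cast at hm; omega
      have h5 := ih hm'
      have h6 := hη (X.1, a.2 + m) (by
        rw [Finset.mem_Icc, Prod.le_def, Prod.le_def]
        exact ⟨⟨h1, by show a.2 ≤ a.2 + (m : ℤ); omega⟩, h3, hm'⟩) (by
        rw [Finset.mem_Icc, Prod.le_def, Prod.le_def]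
        have f1 : ((X.1, a.2 + (m : ℤ)) + uP 0 + uP 1 : Pl) = (X.1 + 1, a.2 + m + 1) := by
          simp [uP]
        rw [f1]
        push_cast at hm
        exact ⟨⟨by show a.1 ≤ X.1 + 1; omega, by show a.2 ≤ a.2 + (m : ℤ) + 1; omega⟩, h3',
          by show a.2 + (m : ℤ) + 1 ≤ b.2; omega⟩)
      unfold curl at h6
      have f2 : ((X.1, a.2 + (m : ℤ)) + uP 0 : Pl) = (X.1 + 1, a.2 + m) := by simp [uP]
      have f3 : ((X.1, a.2 + (m : ℤ)) + uP 1 : Pl) = (X.1, a.2 + ((m + 1 : ℕ) : ℤ)) := by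
        simp [uP, add_assoc]
      rw [f2, f3] at h6
      rw [Finset.prod_range_succ, Finset.prod_range_succ, ← mul_assoc, h5]
      generalize (∏ i ∈ Finset.range m, η (X.1, a.2 + i) 1) = B at *
      generalize η (X.1, a.2 + (m : ℤ)) 0 = c1 at *
      generalize η (X.1 + 1, a.2 + (m : ℤ)) 1 = c2 at *
      generalize η (X.1, a.2 + ((m + 1 : ℕ) : ℤ)) 0 = c3 at *
      generalize η (X.1, a.2 + (m : ℤ)) 1 = c4 at *
      have h7 : c1 * c2 = c4 * c3 := by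
        have := mul_inv_eq_one.1 h6
        have h8 := mul_inv_eq_iff_eq_mul.1 this
        rw [h8]
      rw [mul_assoc, h7, mul_assoc]
  have h5 := key (X.2 - a.2).toNat (by rw [e5]; exact h4)
  rw [e5] at h5
  have e6 : (X.1, X.2) = X := rfl
  rw [e6] at h5
  generalize (∏ i ∈ Finset.range (X.1 - a.1).toNat, η (a.1 + i, a.2) 0) = A at *
  generalize (∏ i ∈ Finset.range (X.2 - a.2).toNat, η (X.1, a.2 + i) 1) = B at *
  generalize (∏ i ∈ Finset.range (X.2 - a.2).toNat, η (X.1 + 1, a.2 + i) 1) = C at *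
  generalize η (X.1, a.2) 0 = c at *
  exact cg2 A B C c _ h5

/-- **The curl determines a gauge invariant function.** -/
theorem gauge_curl {α : Type*} {F : (Pl → Fib N l) → α} (hF : GaugeInv F) {a b : Pl}
    (hD : DepOn F (Finset.Icc a b)) {ζ ζ' : Pl → Fin 2 → 𝔇.Zc}
    (hc : ∀ X, X ∈ Finset.Icc a b → X + uP 0 + uP 1 ∈ Finset.Icc a b →
      𝔇.curl ζ X = 𝔇.curl ζ' X) (U : Pl → Fib N l) :
    F (𝔇.zmul ζ U) = F (𝔇.zmul ζ' U) := by
  obtain ⟨η, hη⟩ : ∃ η : Pl → Fin 2 → 𝔇.Zc, η = fun X k => ζ' X k * (ζ X k)⁻¹ := ⟨_, rfl⟩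
  have hflat : ∀ X, X ∈ Finset.Icc a b → X + uP 0 + uP 1 ∈ Finset.Icc a b →
      𝔇.curl η X = 1 := by
    intro X hX hX'
    have h1 := hc X hX hX'
    unfold curl at h1 ⊢
    rw [hη]
    simp only
    generalize ζ X 0 = c1 at *
    generalize ζ (X + uP 0) 1 = c2 at *
    generalize ζ (X + uP 1) 0 = c3 at *
    generalize ζ X 1 = c4 at *
    generalize ζ' X 0 = d1 at *
    generalize ζ' (X + uP 0) 1 = d2 at *
    generalize ζ' (X + uP 1) 0 = d3 at *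
    generalize ζ' X 1 = d4 at *
    rw [cg3 c1 c2 c3 c4 d1 d2 d3 d4, h1, mul_inv_cancel]
  obtain ⟨h, hh1⟩ : ∃ h : Pl → Tor l → SU N, h = fun X => ((𝔇.hh a η X : 𝔇.Zc) : Tor l → SU N) :=
    ⟨_, rfl⟩
  rw [← hF h (𝔇.zmul ζ U)]
  refine hD.eq (fun X hX => ?_) fun X hX k hk => ?_
  · rw [phi_gt, phi_zmul, phi_zmul, hh1]
    exact 𝔇.D.triv _ (𝔇.hh a η X).2 _
  · rw [psi_gt, psi_zmul, psi_zmul]
    have h2 : 𝔇.hh a η X * (𝔇.hh a η (X + uP k))⁻¹ = η X k := by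
      fin_cases k
      · exact 𝔇.hh_zero η hflat hX hk
      · exact 𝔇.hh_one η hX
    have h3 : (𝔇.hh a η X) * (ζ X k) * (𝔇.hh a η (X + uP k))⁻¹ = ζ' X k := by
      have h4 : η X k = ζ' X k * (ζ X k)⁻¹ := by rw [hη]
      rw [h4] at h2
      calc (𝔇.hh a η X) * (ζ X k) * (𝔇.hh a η (X + uP k))⁻¹
          = (𝔇.hh a η X * (𝔇.hh a η (X + uP k))⁻¹) * ζ X k := by
            rw [mul_assoc, mul_comm (ζ X k), ← mul_assoc]
        _ = _ := by rw [h2, inv_mul_cancel_right]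
    have h5 := congrArg (fun ζ : 𝔇.Zc => (ζ : Tor l → SU N)) h3
    simp only [Subgroup.coe_mul, Subgroup.coe_inv] at h5
    rw [← h5, hh1]
    simp only
    have h6 := 𝔇.cen _ (𝔇.Zc.inv_mem (𝔇.hh a η (X + uP k)).2) (psi (U X) k)
    rw [mul_assoc, mul_assoc, mul_assoc, ← h6]
    simp only [mul_assoc]

/-! ### the lift -/

lemma zz_eq (c : Pl → 𝔇.Zc) (a x : ℤ) (m : ℕ) :
    𝔇.zz c a x m = ∏ i ∈ Finset.range m, (c (x, a + i))⁻¹ := by
  induction m with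
  | zero => rfl
  | succ m ih =>
    rw [Finset.prod_range_succ, ← ih]
    rfl

/-- the sheets as a function of the links -/
def zc (a : ℤ) (c : Pl → 𝔇.Zc) : Pl → Fin 2 → 𝔇.Zc := fun X k =>
  if k = 0 then 𝔇.zz c a X.1 (X.2 - a).toNat else 1

lemma lift_eq (a : ℤ) (g : Pl → 𝔇.KK) :
    𝔇.lift a g = 𝔇.zmul (𝔇.zc a fun Y => (g Y).2) fun X => 𝔇.ph (g X) := by
  funext X p
  obtain ⟨y, i⟩ := p
  unfold lift zmul zc
  fin_cases i <;> rfl

lemma curl_zc {a : ℤ} (c : Pl → 𝔇.Zc) {X : Pl} (hX : a ≤ X.2) :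
    𝔇.curl (𝔇.zc a c) X = c X := by
  unfold curl zc
  have h1 : ((X + uP 1).2 - a).toNat = (X.2 - a).toNat + 1 := by
    have : (X + uP 1).2 = X.2 + 1 := by simp [uP]
    rw [this]; omega
  have h2 : (X + uP 1).1 = X.1 := by simp [uP]
  have h3 : a + (((X.2 - a).toNat : ℕ) : ℤ) = X.2 := by omega
  simp only [if_true, one_ne_zero, if_false, Fin.isValue]
  rw [h1, h2]
  show _ * 1 * (𝔇.zz c a X.1 (X.2 - a).toNat * (c (X.1, a + (((X.2 - a).toNat : ℕ) : ℤ)))⁻¹)⁻¹ *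
    1⁻¹ = _
  rw [h3]
  have h4 : (X.1, X.2) = X := rfl
  rw [h4, _root_.mul_inv_rev, inv_inv, inv_one, mul_one, mul_one, mul_comm (c X), ← mul_assoc,
    mul_inv_cancel, one_mul]

end Dat

/-- (R4) independence of the base -/
theorem lift_base (𝔇 : Dat N l n) {α : Type*} {f : (Pl → Fib N l) → α} (hf : GaugeInv f) {a b : Pl}
    (hfD : DepOn f (Finset.Icc a b)) {s : ℤ} (hs : s ≤ a.2) (g : Pl → 𝔇.KK) :
    f (𝔇.lift s g) = f (𝔇.lift a.2 g) := by
  rw [Dat.lift_eq, Dat.lift_eq]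
  refine 𝔇.gauge_curl hf hfD (fun X hX _ => ?_) _
  rw [Finset.mem_Icc, Prod.le_def, Prod.le_def] at hX
  rw [Dat.curl_zc _ _ (hs.trans hX.1.2), Dat.curl_zc _ _ hX.1.2]

/-- (R4) locality -/
theorem lift_local (𝔇 : Dat N l n) {α : Type*} {f : (Pl → Fib N l) → α} {a b : Pl}
    (hfD : DepOn f (Finset.Icc a b)) (g g' : Pl → 𝔇.KK) (h : ∀ X ∈ Finset.Icc a b, g X = g' X) :
    f (𝔇.lift a.2 g) = f (𝔇.lift a.2 g') := by
  refine hfD _ _ fun X p hX _ => ?_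
  unfold Dat.lift
  rw [h X hX, Dat.zz_eq, Dat.zz_eq]
  have h1 : ∏ i ∈ Finset.range (X.2 - a.2).toNat, ((g (X.1, a.2 + i)).2)⁻¹ =
      ∏ i ∈ Finset.range (X.2 - a.2).toNat, ((g' (X.1, a.2 + i)).2)⁻¹ := by
    refine Finset.prod_congr rfl fun i hi => ?_
    rw [h]
    rw [Finset.mem_range] at hi
    rw [Finset.mem_Icc, Prod.le_def, Prod.le_def] at hX ⊢
    obtain ⟨⟨h1, h2⟩, h3, h4⟩ := hX
    refine ⟨⟨h1, ?_⟩, h3, ?_⟩
    · show a.2 ≤ a.2 + (i : ℤ); omega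
    · show a.2 + (i : ℤ) ≤ b.2; omega
  rw [h1]

section meas

variable (𝔇 : Dat N l n) [MeasurableSpace (SU N)] [BorelSpace (SU N)]

/-- (R4) measurability -/
theorem lift_meas (s : ℤ) : Measurable (𝔇.lift s : (Pl → 𝔇.KK) → Pl → Fib N l) := by
  have hd : DiscreteMeasurableSpace 𝔇.Zc := inferInstance
  have hm : Measurable fun q : 𝔇.Zc × 𝔇.Zc => q.1 * (q.2)⁻¹ := measurable_of_finite _
  have hz : ∀ (x : ℤ) (m : ℕ), Measurable fun g : Pl → 𝔇.KK => 𝔇.zz (fun Y => (g Y).2) s x m := by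
    intro x m
    induction m with
    | zero => exact measurable_const
    | succ m ih =>
      have h1 : Measurable fun g : Pl → 𝔇.KK => (g (x, s + (m : ℤ))).2 :=
        measurable_snd.comp (measurable_pi_apply (x, s + (m : ℤ)))
      have h2 : Measurable fun g : Pl → 𝔇.KK =>
          ((𝔇.zz (fun Y => (g Y).2) s x m, (g (x, s + (m : ℤ))).2) : 𝔇.Zc × 𝔇.Zc) :=
        ih.prodMk h1
      have h3 : (fun g : Pl → 𝔇.KK => 𝔇.zz (fun Y => (g Y).2) s x (m + 1)) =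
          (fun q : 𝔇.Zc × 𝔇.Zc => q.1 * (q.2)⁻¹) ∘ fun g : Pl → 𝔇.KK =>
          ((𝔇.zz (fun Y => (g Y).2) s x m, (g (x, s + (m : ℤ))).2) : 𝔇.Zc × 𝔇.Zc) := by
        funext g
        rfl
      rw [h3]
      exact hm.comp h2
  refine measurable_pi_lambda _ fun X => measurable_pi_lambda _ fun p => ?_
  unfold Dat.lift Dat.ph
  refine Measurable.mul ?_ ?_
  · by_cases h : p.2 = 0
    · simp only [h, if_true]
      exact (measurable_pi_apply p.1).comp (measurable_subtype_coe.comp (hz X.1 _))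
    · simp only [h, if_false]
      exact measurable_const
  · have h1 : Measurable fun g : Pl → 𝔇.KK => (g X).1 :=
      measurable_fst.comp (measurable_pi_apply X)
    have h2 : Measurable fun g : Pl → 𝔇.KK => (g X).1 p := (measurable_pi_apply p).comp h1
    exact h2.mul_const _

end meas

end

end Pool.Agent.N984.TW
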