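import Mathlib
import Pool.Agent.N453.TW.RB1

/-!
# Task R-B, part 2: the sheet lemma, the action, sums over the centre
-/

open MeasureTheory Matrix Filter
open scoped Matrix.Norms.Frobenius Topology ENNReal
open Pool.Agent.H906R3.YM Pool.Agent.W793.YM Pool.Agent.TH618.YM

namespace Pool.Agent.N984.TW

set_option linter.unusedSectionVars false

noncomputable section

variable {N l n : ℕ} [NeZero N] [NeZero l]

/-! ### the sheet lemma -/

lemma nr_inv_rb {N : ℕ} {G : Subgroup (UN N)} {I : Type*} [Fintype I] (k : I → G) :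
    nr k⁻¹ = nr k := by
  unfold nr
  refine Finset.sum_congr rfl fun y _ => ?_
  rw [Pi.inv_apply, norm_inv_sub_one]

lemma nr_tri {N : ℕ} {G : Subgroup (UN N)} {I : Type*} [Fintype I] [DecidableEq I]
    (ζ ξ ψ : I → G) :
    nr (ζ⁻¹ * ξ) ≤ 2 * nr (ξ⁻¹ * ψ) + 2 * nr (ζ⁻¹ * ψ) := by
  have h1 := nr_mul_ge (ψ⁻¹ * ζ) (ζ⁻¹ * ξ)
  have h2 : ψ⁻¹ * ζ * (ζ⁻¹ * ξ) = (ξ⁻¹ * ψ)⁻¹ := by group
  have h3 : ψ⁻¹ * ζ = (ζ⁻¹ * ψ)⁻¹ := by group
  rw [h2, h3, nr_inv_rb, nr_inv_rb] at h1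
  exact h1

namespace Dat

variable (𝔇 : Dat N l n)

lemma cardZ_pos : 0 < Nat.card 𝔇.Zc := Nat.card_pos

lemma card_one_le : (1 : ℝ) ≤ Nat.card 𝔇.Zc := by
  exact_mod_cast 𝔇.cardZ_pos

/-- the constant of the sheet lemma -/
def cS (β : ℝ) : ℝ := 1 + ((Nat.card 𝔇.Zc : ℝ) - 1) * Real.exp (-β)

lemma cS_pos (β : ℝ) : 0 < 𝔇.cS β := by
  unfold cS
  have h1 := 𝔇.card_one_le
  have h2 := Real.exp_pos (-β)
  nlinarith

lemma exp_b2 {β : ℝ} (hβ : 0 < β) : Real.exp (-(β * 𝔇.b2 β)) = 𝔇.cS β / Nat.card 𝔇.Zc := by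
  have h0 : (0 : ℝ) < Nat.card 𝔇.Zc := by exact_mod_cast 𝔇.cardZ_pos
  have h : -(β * 𝔇.b2 β) = Real.log (𝔇.cS β / Nat.card 𝔇.Zc) := by
    unfold b2 cS
    rw [mul_div_assoc', mul_comm β, mul_div_assoc, div_self hβ.ne']
    ring
  rw [h, Real.exp_log (div_pos (𝔇.cS_pos β) h0)]

/-- **The sheet lemma.** -/
theorem sheet_sum {r β : ℝ} (hr₀ : 16 * r ≤ 𝔇.c₀) (hr : 0 < r) (hβ : 0 < β) (ψ : Tor l → SU N) :
    ∑ ζ : 𝔇.Zc, Real.exp (-(β * 𝔇.e2 r β ((ζ : Tor l → SU N)⁻¹ * ψ))) = 𝔇.cS β := by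
  classical
  have h0 : (0 : ℝ) < Nat.card 𝔇.Zc := by exact_mod_cast 𝔇.cardZ_pos
  by_cases hψ : ∃ ζ : 𝔇.Zc, nr ((ζ : Tor l → SU N)⁻¹ * ψ) ≤ r
  · obtain ⟨ζ₀, hζ₀⟩ := hψ
    have h1 : Real.exp (-(β * 𝔇.e2 r β ((ζ₀ : Tor l → SU N)⁻¹ * ψ))) = 1 := by
      unfold e2
      rw [if_pos hζ₀, mul_zero, neg_zero, Real.exp_zero]
    have h2 : ∀ ζ : 𝔇.Zc, ζ ≠ ζ₀ →
        Real.exp (-(β * 𝔇.e2 r β ((ζ : Tor l → SU N)⁻¹ * ψ))) = Real.exp (-β) := by
      intro ζ hζ
      have h3 : ¬ nr ((ζ : Tor l → SU N)⁻¹ * ψ) ≤ r := by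
        intro h4
        have h5 := nr_tri (ζ : Tor l → SU N) ζ₀ ψ
        have h6 := 𝔇.D.disc ((ζ : Tor l → SU N)⁻¹ * ζ₀) (ζ⁻¹ * ζ₀).2 (by
          intro h7
          apply hζ
          exact (Subtype.ext (inv_mul_eq_one.1 h7)))
        linarith
      have h4 : ∃ ξ ∈ 𝔇.Zc, nr (ξ⁻¹ * ((ζ : Tor l → SU N)⁻¹ * ψ)) ≤ r := by
        refine ⟨_, (ζ⁻¹ * ζ₀).2, ?_⟩
        have h5 : (((ζ⁻¹ * ζ₀ : 𝔇.Zc) : Tor l → SU N))⁻¹ * ((ζ : Tor l → SU N)⁻¹ * ψ) =
            (ζ₀ : Tor l → SU N)⁻¹ * ψ := by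
          rw [Subgroup.coe_mul, Subgroup.coe_inv]
          group
        rw [h5]
        exact hζ₀
      unfold e2
      rw [if_neg h3, if_pos h4, mul_one]
    rw [← Finset.add_sum_erase _ _ (Finset.mem_univ ζ₀), h1]
    rw [Finset.sum_congr rfl fun ζ hζ => h2 ζ (Finset.ne_of_mem_erase hζ), Finset.sum_const,
      Finset.card_erase_of_mem (Finset.mem_univ _), Finset.card_univ, nsmul_eq_mul,
      ← Nat.card_eq_fintype_card, Nat.cast_sub (𝔇.cardZ_pos), Nat.cast_one]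
    rfl
  · have h1 : ∀ ζ : 𝔇.Zc, Real.exp (-(β * 𝔇.e2 r β ((ζ : Tor l → SU N)⁻¹ * ψ))) =
        𝔇.cS β / Nat.card 𝔇.Zc := by
      intro ζ
      have h3 : ¬ nr ((ζ : Tor l → SU N)⁻¹ * ψ) ≤ r := fun h4 => hψ ⟨ζ, h4⟩
      have h4 : ¬ ∃ ξ ∈ 𝔇.Zc, nr (ξ⁻¹ * ((ζ : Tor l → SU N)⁻¹ * ψ)) ≤ r := by
        rintro ⟨ξ, hξ, h5⟩
        refine hψ ⟨ζ * ⟨ξ, hξ⟩, ?_⟩
        have h6 : (((ζ * ⟨ξ, hξ⟩ : 𝔇.Zc) : Tor l → SU N))⁻¹ * ψ =
            ξ⁻¹ * ((ζ : Tor l → SU N)⁻¹ * ψ) := by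
          rw [Subgroup.coe_mul]
          group
        rw [h6]
        exact h5
      have h5 : 𝔇.e2 r β ((ζ : Tor l → SU N)⁻¹ * ψ) = 𝔇.b2 β := by
        unfold e2
        rw [if_neg h3, if_neg h4]
      rw [h5, 𝔇.exp_b2 hβ]
    rw [Finset.sum_congr rfl fun ζ _ => h1 ζ, Finset.sum_const, Finset.card_univ, nsmul_eq_mul,
      ← Nat.card_eq_fintype_card]
    field_simp

end Dat

/-! ### the action is gauge invariant -/

lemma trace_conj (g A : SU N) : trace (mt (g * A * g⁻¹)) = trace (mt A) := by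
  rw [mt_mul, mt_mul, Matrix.trace_mul_comm, ← mul_assoc, ← mt_mul, inv_mul_cancel, mt_one,
    one_mul]

lemma plaq_gt (h : Pl → Tor l → SU N) (U : Pl → Fib N l) (X : Pl) (y : Tor l) (i j : Fin 4) :
    plaq (gt h U) X y i j = h X y * plaq U X y i j * (h X y)⁻¹ := by
  unfold plaq gt
  have h1 : X + eP j + eP i = X + eP i + eP j := by abel
  have h2 : y + eT l j + eT l i = y + eT l i + eT l j := by abel
  simp only [h1, h2]
  group

lemma pe_gt (z : ℂ) (h : Pl → Tor l → SU N) (U : Pl → Fib N l) (X : Pl) (y : Tor l)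
    (i j : Fin 4) : pe z (gt h U) X y i j = pe z U X y i j := by
  have h1 : trace (mt (plaq (gt h U) X y i j)) = trace (mt (plaq U X y i j)) := by
    rw [plaq_gt, trace_conj]
  show (N : ℝ) - (star (tw z y i j) * trace (mt (plaq (gt h U) X y i j))).re =
    (N : ℝ) - (star (tw z y i j) * trace (mt (plaq U X y i j))).re
  rw [h1]

lemma action_gt (z : ℂ) (Λ : Finset Pl) : GaugeInv (action z Λ : (Pl → Fib N l) → ℝ) := by
  intro h U
  unfold action
  simp only [pe_gt]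

lemma action_dep (z : ℂ) (Λ : Finset Pl) : DepOn (action z Λ : (Pl → Fib N l) → ℝ) Λ := by
  intro U U' hU
  unfold action
  refine Finset.sum_congr rfl fun X hX => Finset.sum_congr rfl fun y _ =>
    Finset.sum_congr rfl fun i _ => Finset.sum_congr rfl fun j _ => ?_
  by_cases hc : i < j ∧ X + eP i ∈ Λ ∧ X + eP j ∈ Λ ∧ X + eP i + eP j ∈ Λ
  · rw [if_pos hc, if_pos hc]
    obtain ⟨-, h1, h2, h3⟩ := hc
    have h3' : X + eP j + eP i ∈ Λ := by
      have : X + eP j + eP i = X + eP i + eP j := by abel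
      rw [this]; exact h3
    have e : plaq U X y i j = plaq U' X y i j := by
      unfold plaq
      rw [hU X (y, i) hX h1, hU (X + eP i) (y + eT l i, j) h1 h3, hU (X + eP j) (y + eT l j, i) h2 h3',
        hU X (y, j) hX h2]
    unfold pe
    rw [e]
  · rw [if_neg hc, if_neg hc]

lemma action_cont (z : ℂ) (Λ : Finset Pl) : Continuous (action z Λ : (Pl → Fib N l) → ℝ) := by
  unfold action
  refine continuous_finsetSum _ fun X _ => continuous_finsetSum _ fun y _ =>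
    continuous_finsetSum _ fun i _ => continuous_finsetSum _ fun j _ => ?_
  by_cases hc : i < j ∧ X + eP i ∈ Λ ∧ X + eP j ∈ Λ ∧ X + eP i + eP j ∈ Λ
  · simp only [hc, and_self, if_true]
    unfold pe
    refine continuous_const.sub (Complex.continuous_re.comp (continuous_const.mul ?_))
    have h1 : Continuous fun U : Pl → Fib N l => plaq U X y i j := by
      unfold plaq
      fun_prop
    have h2 : Continuous fun U : Pl → Fib N l => mt (plaq U X y i j) := mt_cont.comp h1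
    exact h2.matrix_trace
  · simp only [hc, if_false]
    exact continuous_const

/-! ### finite sums over groups -/

lemma sum_hom {A C : Type*} [Group A] [Fintype A] [Group C] [Fintype C] (κ : A →* C)
    (hκ : Function.Surjective κ) (Φ : C → ℝ≥0∞) :
    (Fintype.card C : ℝ≥0∞) * ∑ a, Φ (κ a) = (Fintype.card A : ℝ≥0∞) * ∑ c, Φ c := by
  have h1 : ∀ c : C, ∑ a, Φ (κ a * c) = ∑ a, Φ (κ a) := by
    intro c
    obtain ⟨d, rfl⟩ := hκ c
    simp only [← map_mul]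
    exact Fintype.sum_equiv (Equiv.mulRight d) _ _ fun _ => rfl
  calc (Fintype.card C : ℝ≥0∞) * ∑ a, Φ (κ a) = ∑ c : C, ∑ a, Φ (κ a * c) := by
        rw [Finset.sum_congr rfl fun c _ => h1 c, Finset.sum_const, Finset.card_univ,
          nsmul_eq_mul]
    _ = ∑ a, ∑ c : C, Φ (κ a * c) := Finset.sum_comm
    _ = ∑ _a : A, ∑ c : C, Φ c := by
        refine Finset.sum_congr rfl fun a _ => ?_
        exact Fintype.sum_equiv (Equiv.mulLeft (κ a)) _ _ fun _ => rfl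
    _ = _ := by rw [Finset.sum_const, Finset.card_univ, nsmul_eq_mul]

/-- dummy variables in a finite sum -/
lemma sum_dummy {I Z : Type*} [Fintype I] [DecidableEq I] [Group Z] [Fintype Z]
    (p : I → Prop) [DecidablePred p] (w : Z → ℝ≥0∞)
    (Ψ : (I → Z) → ℝ≥0∞) (hΨ : ∀ c c' : I → Z, (∀ i, p i → c i = c' i) → Ψ c = Ψ c') :
    (Fintype.card (I → Z) : ℝ≥0∞) * ∑ c : I → Z, Ψ c * ∏ i, (if p i then 1 else w (c i)) =
      (∏ i : I, (if p i then (Fintype.card Z : ℝ≥0∞) else ∑ ζ, w ζ)) * ∑ c : I → Z, Ψ c := by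
  classical
  have hres : ∀ h : I → Z, ∑ c : I → Z, Ψ c * ∏ i, (if p i then 1 else w (c i)) =
      ∑ c : I → Z, Ψ c * ∏ i, (if p i then 1 else w (c i * h i)) := by
    intro h
    have e := Fintype.sum_equiv (Equiv.mulRight (fun i => if p i then 1 else h i))
      (fun c : I → Z => Ψ c * ∏ i, (if p i then 1 else w (c i * h i)))
      (fun c : I → Z => Ψ c * ∏ i, (if p i then 1 else w (c i))) (fun c => ?_)
    · exact e.symm
    · show Ψ c * ∏ i, (if p i then 1 else w (c i * h i)) =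
        Ψ (c * fun i => if p i then 1 else h i) *
          ∏ i, (if p i then 1 else w ((c * fun i => if p i then 1 else h i) i))
      rw [hΨ (c * fun i => if p i then 1 else h i) c]
      · congr 1
        refine Finset.prod_congr rfl fun i _ => ?_
        by_cases hi : p i
        · rw [if_pos hi, if_pos hi]
        · rw [if_neg hi, if_neg hi, Pi.mul_apply, if_neg hi]
      · intro i hi
        rw [Pi.mul_apply, if_pos hi, mul_one]
  calc (Fintype.card (I → Z) : ℝ≥0∞) * ∑ c : I → Z, Ψ c * ∏ i, (if p i then 1 else w (c i))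
      = ∑ h : I → Z, ∑ c : I → Z, Ψ c * ∏ i, (if p i then 1 else w (c i * h i)) := by
        rw [← Finset.sum_congr rfl fun h _ => hres h, Finset.sum_const, Finset.card_univ,
          nsmul_eq_mul]
    _ = ∑ c : I → Z, Ψ c * ∑ h : I → Z, ∏ i, (if p i then 1 else w (c i * h i)) := by
        rw [Finset.sum_comm]
        exact Finset.sum_congr rfl fun c _ => (Finset.mul_sum _ _ _).symm
    _ = ∑ c : I → Z, Ψ c * ∏ i : I, (if p i then (Fintype.card Z : ℝ≥0∞) else ∑ ζ, w ζ) := by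
        refine Finset.sum_congr rfl fun c _ => ?_
        congr 1
        have h1 := (Finset.prod_univ_sum (fun _ : I => (Finset.univ : Finset Z))
          (fun i ζ => if p i then (1 : ℝ≥0∞) else w (c i * ζ))).symm
        rw [Fintype.piFinset_univ] at h1
        rw [h1]
        refine Finset.prod_congr rfl fun i _ => ?_
        by_cases hi : p i
        · simp only [if_pos hi, Finset.sum_const, Finset.card_univ, nsmul_eq_mul, mul_one]
        · simp only [if_neg hi]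
          exact Fintype.sum_equiv (Equiv.mulLeft (c i)) _ _ fun _ => rfl
    _ = _ := by rw [← Finset.sum_mul, mul_comm]

end

end Pool.Agent.N984.TW
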