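import Mathlib
import Pool.Agent.N453.TW.RB2

/-!
# Task R-B, part 3: inserting the sheets; the energy of a lifted configuration
-/

open MeasureTheory Matrix Filter
open scoped Matrix.Norms.Frobenius Topology ENNReal
open Pool.Agent.H906R3.YM Pool.Agent.W793.YM Pool.Agent.TH618.YM

namespace Pool.Agent.N984.TW

set_option linter.unusedSectionVars false

noncomputable section

variable {N l n : ℕ} [NeZero N] [NeZero l]

lemma cg4 {G : Type*} [CommGroup G] (a1 b1 a2 b2 a3 b3 a4 b4 : G) :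
    (a1 * b1) * (a2 * b2) * (a3 * b3)⁻¹ * (a4 * b4)⁻¹ =
      (a1 * a2 * a3⁻¹ * a4⁻¹) * (b1 * b2 * b3⁻¹ * b4⁻¹) := by
  rw [mul_inv, mul_inv, mul_mul_mul_comm a1 b1 a2 b2,
    mul_mul_mul_comm (a1 * a2) (b1 * b2) a3⁻¹ b3⁻¹,
    mul_mul_mul_comm (a1 * a2 * a3⁻¹) (b1 * b2 * b3⁻¹) a4⁻¹ b4⁻¹]

namespace Dat

variable (𝔇 : Dat N l n)

/-- elements of the stabiliser as fibres -/
def zcu {Λ : Finset Pl} (ζ : Λ → Fin 2 → 𝔇.Zc) : Λ → Fib N l := fun X p =>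
  Fin.addCases (m := 2) (n := 2) (fun k => ((ζ X k : 𝔇.Zc) : Tor l → SU N) p.1) (fun _ => 1) p.2

/-- extension by `1` -/
def exZ {Λ : Finset Pl} (ζ : Λ → Fin 2 → 𝔇.Zc) : Pl → Fin 2 → 𝔇.Zc := fun X k =>
  if h : X ∈ Λ then ζ ⟨X, h⟩ k else 1

/-- extension by `1` -/
def exC {Λ : Finset Pl} (c : Λ → 𝔇.Zc) : Pl → 𝔇.Zc := fun X => if h : X ∈ Λ then c ⟨X, h⟩ else 1

lemma exZ_mem {Λ : Finset Pl} (ζ : Λ → Fin 2 → 𝔇.Zc) {X : Pl} (h : X ∈ Λ) (k : Fin 2) :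
    𝔇.exZ ζ X k = ζ ⟨X, h⟩ k := by
  unfold exZ; rw [dif_pos h]

lemma exC_mem {Λ : Finset Pl} (c : Λ → 𝔇.Zc) {X : Pl} (h : X ∈ Λ) :
    𝔇.exC c X = c ⟨X, h⟩ := by
  unfold exC; rw [dif_pos h]

lemma exC_coe {Λ : Finset Pl} (c : Λ → 𝔇.Zc) (X : Λ) : 𝔇.exC c X = c X := 𝔇.exC_mem c X.2

lemma ext_mem {Λ : Finset Pl} (u : Λ → Fib N l) {X : Pl} (h : X ∈ Λ) : ext Λ u X = u ⟨X, h⟩ := by
  unfold ext; rw [dif_pos h]

lemma ext_coe {Λ : Finset Pl} (u : Λ → Fib N l) (X : Λ) : ext Λ u X = u X := ext_mem u X.2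

lemma ext_zcu {Λ : Finset Pl} (ζ : Λ → Fin 2 → 𝔇.Zc) (u : Λ → Fib N l) :
    ext Λ (𝔇.zcu ζ * u) = 𝔇.zmul (𝔇.exZ ζ) (ext Λ u) := by
  funext X
  by_cases h : X ∈ Λ
  · funext p
    show ext Λ (𝔇.zcu ζ * u) X p = Fin.addCases (m := 2) (n := 2)
      (fun k => ((𝔇.exZ ζ X k : 𝔇.Zc) : Tor l → SU N) p.1) (fun _ => 1) p.2 * ext Λ u X p
    rw [ext_mem _ h, ext_mem _ h]
    simp only [𝔇.exZ_mem ζ h]
    rfl
  · funext p
    show ext Λ (𝔇.zcu ζ * u) X p = Fin.addCases (m := 2) (n := 2)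
      (fun k => ((𝔇.exZ ζ X k : 𝔇.Zc) : Tor l → SU N) p.1) (fun _ => 1) p.2 * ext Λ u X p
    unfold ext exZ
    simp only [dif_neg h]
    obtain ⟨y, i⟩ := p
    induction i using Fin.addCases (m := 2) (n := 2) with
    | left k => rw [Fin.addCases_left]; exact (one_mul _).symm
    | right j => rw [Fin.addCases_right]; exact (one_mul _).symm

lemma psi_zcu {Λ : Finset Pl} (ζ : Λ → Fin 2 → 𝔇.Zc) (u : Λ → Fib N l) (X : Λ) (k : Fin 2) :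
    psi ((𝔇.zcu ζ * u) X) k = ((ζ X k : 𝔇.Zc) : Tor l → SU N) * psi (u X) k := by
  have h := 𝔇.psi_zmul (𝔇.exZ ζ) (ext Λ u) X k
  rw [← ext_zcu, ext_coe, ext_coe, 𝔇.exZ_mem ζ X.2] at h
  exact h

lemma phi_zcu {Λ : Finset Pl} (ζ : Λ → Fin 2 → 𝔇.Zc) (u : Λ → Fib N l) (X : Λ) :
    phi ((𝔇.zcu ζ * u) X) = phi (u X) := by
  have h := 𝔇.phi_zmul (𝔇.exZ ζ) (ext Λ u) X
  rw [← ext_zcu, ext_coe, ext_coe] at h
  exact h

lemma zcu_inv {Λ : Finset Pl} (ζ : Λ → Fin 2 → 𝔇.Zc) :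
    (𝔇.zcu ζ)⁻¹ = 𝔇.zcu fun X k => (ζ X k)⁻¹ := by
  funext X p
  obtain ⟨y, i⟩ := p
  rw [Pi.inv_apply, Pi.inv_apply]
  unfold zcu
  induction i using Fin.addCases (m := 2) (n := 2) with
  | left k => simp only [Fin.addCases_left]; rfl
  | right j => simp only [Fin.addCases_right, inv_one]

/-! ### the curl as a homomorphism -/

/-- the curl on a finite set -/
def curlH (Λ : Finset Pl) : (Λ → Fin 2 → 𝔇.Zc) →* (Λ → 𝔇.Zc) where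
  toFun ζ := fun X => 𝔇.curl (𝔇.exZ ζ) X
  map_one' := by
    funext X
    have h : 𝔇.exZ (1 : Λ → Fin 2 → 𝔇.Zc) = 1 := by
      funext Y k
      unfold exZ
      by_cases h : Y ∈ Λ
      · rw [dif_pos h]; rfl
      · rw [dif_neg h]; rfl
    rw [h]
    unfold curl
    simp
  map_mul' ζ ξ := by
    funext X
    have h : ∀ Y k, 𝔇.exZ (ζ * ξ) Y k = 𝔇.exZ ζ Y k * 𝔇.exZ ξ Y k := by
      intro Y k
      unfold exZ
      by_cases h : Y ∈ Λ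
      · simp only [dif_pos h]; rfl
      · simp only [dif_neg h]; exact (one_mul _).symm
    rw [Pi.mul_apply]
    unfold curl
    rw [h, h, h, h]
    exact cg4 _ _ _ _ _ _ _ _

lemma curlH_apply (Λ : Finset Pl) (ζ : Λ → Fin 2 → 𝔇.Zc) (X : Λ) :
    𝔇.curlH Λ ζ X = 𝔇.curl (𝔇.exZ ζ) X := rfl

lemma curlH_surj (a b : Pl) : Function.Surjective (𝔇.curlH (Finset.Icc a b)) := by
  intro c
  obtain ⟨S, hS⟩ : ∃ S : Pl → 𝔇.Zc, S = fun X =>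
    ∏ i ∈ Finset.range (b.2 + 1 - X.2).toNat, 𝔇.exC c (X.1, X.2 + i) := ⟨_, rfl⟩
  refine ⟨fun X k => if k = 0 then S X else 1, ?_⟩
  funext X
  rw [curlH_apply]
  have hX := X.2
  have hX' : (X : Pl) ∈ Finset.Icc a b := X.2
  obtain ⟨Y, hY⟩ : ∃ Y : Pl, Y = (X : Pl) := ⟨_, rfl⟩
  rw [← hY] at hX'
  have h0 : ∀ Z : Pl, Z ∈ Finset.Icc a b ∨ (b.2 < Z.2) →
      𝔇.exZ (Λ := Finset.Icc a b) (fun X k => if k = 0 then S X else 1) Z 0 = S Z := by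
    intro Z hZ
    unfold exZ
    by_cases h : Z ∈ Finset.Icc a b
    · rw [dif_pos h]; rfl
    · rw [dif_neg h, hS]
      have h2 : b.2 < Z.2 := by
        rcases hZ with h3 | h3
        · exact absurd h3 h
        · exact h3
      have h3 : (b.2 + 1 - Z.2).toNat = 0 := by omega
      simp only [h3, Finset.range_zero, Finset.prod_empty]
  have h1 : ∀ Z : Pl, 𝔇.exZ (Λ := Finset.Icc a b) (fun X k => if k = 0 then S X else 1) Z 1 = 1 := by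
    intro Z
    unfold exZ
    by_cases h : Z ∈ Finset.Icc a b
    · rw [dif_pos h]; rfl
    · rw [dif_neg h]
  have h2 : 𝔇.exC c Y = c X := by rw [hY]; exact 𝔇.exC_coe c X
  rw [← h2, ← hY]
  unfold curl
  rw [h0 Y (Or.inl hX'), h1, h1]
  rw [Finset.mem_Icc, Prod.le_def, Prod.le_def] at hX'
  obtain ⟨⟨g1, g2⟩, g3, g4⟩ := hX'
  have e1 : (Y + uP 1).1 = Y.1 := by simp [uP]
  have e2 : (Y + uP 1).2 = Y.2 + 1 := by simp [uP]
  rw [h0 (Y + uP 1) (by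
    by_cases h : b.2 < Y.2 + 1
    · right; rw [e2]; exact h
    · left
      rw [Finset.mem_Icc, Prod.le_def, Prod.le_def, e1, e2]
      exact ⟨⟨g1, by omega⟩, g3, by omega⟩)]
  have e3 : S Y = S (Y + uP 1) * 𝔇.exC c Y := by
    rw [hS]
    have e4 : (b.2 + 1 - Y.2).toNat = (b.2 + 1 - (Y + uP 1).2).toNat + 1 := by
      rw [e2]; omega
    show ∏ i ∈ Finset.range (b.2 + 1 - Y.2).toNat, 𝔇.exC c (Y.1, Y.2 + i) =
      (∏ i ∈ Finset.range (b.2 + 1 - (Y + uP 1).2).toNat,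
        𝔇.exC c ((Y + uP 1).1, (Y + uP 1).2 + i)) * 𝔇.exC c Y
    rw [e4, Finset.prod_range_succ']
    congr 1
    · refine Finset.prod_congr rfl fun i _ => ?_
      rw [e1, e2]
      congr 2
      push_cast
      ring
    · congr 1
      show (Y.1, Y.2 + ((0 : ℕ) : ℤ)) = Y
      simp
  rw [e3, mul_one, inv_one, mul_one, mul_comm (S (Y + uP 1)), mul_inv_cancel_right]

/-- gauge invariant functions of configurations multiplied by elements of the stabiliser -/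
lemma gauge_lift {α : Type*} {F : (Pl → Fib N l) → α} (hF : GaugeInv F) {a b : Pl}
    (hD : DepOn F (Finset.Icc a b)) (ζ : Finset.Icc a b → Fin 2 → 𝔇.Zc)
    (u : Finset.Icc a b → Fib N l) :
    F (ext _ (𝔇.zcu ζ * u)) =
      F (𝔇.zmul (𝔇.zc a.2 (𝔇.exC (𝔇.curlH _ ζ))) (ext _ u)) := by
  rw [ext_zcu]
  refine 𝔇.gauge_curl hF hD (fun X hX _ => ?_) _
  have hX' := hX
  rw [Finset.mem_Icc, Prod.le_def, Prod.le_def] at hX'
  rw [𝔇.curl_zc _ hX'.1.2, 𝔇.exC_mem _ hX, curlH_apply]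

/-! ### the sheets -/

open scoped Classical in
/-- the weight of the sheets -/
def WW (r β : ℝ) {Λ : Finset Pl} (u : Λ → Fib N l) : ℝ≥0∞ :=
  ∏ X : Λ, ∏ k : Fin 2, if (X : Pl) + uP k ∈ Λ then
    ENNReal.ofReal (Real.exp (-(β * 𝔇.e2 r β (psi (u X) k)))) else 1

open scoped Classical in
/-- the constant of the sheets -/
def cW (β : ℝ) (Λ : Finset Pl) : ℝ≥0∞ :=
  ∏ X : Λ, ∏ k : Fin 2, if (X : Pl) + uP k ∈ Λ then ENNReal.ofReal (𝔇.cS β) else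
    (Fintype.card 𝔇.Zc : ℝ≥0∞)

lemma cW_ne_zero (β : ℝ) (Λ : Finset Pl) : 𝔇.cW β Λ ≠ 0 := by
  classical
  unfold cW
  refine Finset.prod_ne_zero_iff.2 fun X _ => Finset.prod_ne_zero_iff.2 fun k _ => ?_
  split_ifs
  · exact (ENNReal.ofReal_pos.2 (𝔇.cS_pos β)).ne'
  · exact_mod_cast Fintype.card_ne_zero

lemma cW_ne_top (β : ℝ) (Λ : Finset Pl) : 𝔇.cW β Λ ≠ ⊤ := by
  classical
  unfold cW
  refine ENNReal.prod_ne_top fun X _ => ENNReal.prod_ne_top fun k _ => ?_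
  split_ifs
  · exact ENNReal.ofReal_ne_top
  · exact ENNReal.natCast_ne_top _

lemma sum_WW {r β : ℝ} (hr₀ : 16 * r ≤ 𝔇.c₀) (hr : 0 < r) (hβ : 0 < β) {Λ : Finset Pl}
    (u : Λ → Fib N l) :
    ∑ ζ : Λ → Fin 2 → 𝔇.Zc, 𝔇.WW r β ((𝔇.zcu ζ)⁻¹ * u) = 𝔇.cW β Λ := by
  classical
  have h1 : ∀ ζ : Λ → Fin 2 → 𝔇.Zc, 𝔇.WW r β ((𝔇.zcu ζ)⁻¹ * u) =
      ∏ X : Λ, ∏ k : Fin 2, (fun (X : Λ) (k : Fin 2) (ξ : 𝔇.Zc) => if (X : Pl) + uP k ∈ Λ then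
        ENNReal.ofReal (Real.exp (-(β * 𝔇.e2 r β ((ξ : Tor l → SU N)⁻¹ * psi (u X) k))))
          else 1) X k (ζ X k) := by
    intro ζ
    unfold WW
    refine Finset.prod_congr rfl fun X _ => Finset.prod_congr rfl fun k _ => ?_
    rw [zcu_inv, psi_zcu, Subgroup.coe_inv]
  rw [Finset.sum_congr rfl fun ζ _ => h1 ζ]
  obtain ⟨A, hA⟩ : ∃ A : Λ → Fin 2 → 𝔇.Zc → ℝ≥0∞, A = (fun (X : Λ) (k : Fin 2) (ξ : 𝔇.Zc) =>
    if (X : Pl) + uP k ∈ Λ then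
        ENNReal.ofReal (Real.exp (-(β * 𝔇.e2 r β ((ξ : Tor l → SU N)⁻¹ * psi (u X) k))))
          else 1) := ⟨_, rfl⟩
  rw [← hA]
  have h2 := (Finset.prod_univ_sum (fun _ : Λ => (Finset.univ : Finset (Fin 2 → 𝔇.Zc)))
    (fun X ξ => ∏ k : Fin 2, A X k (ξ k))).symm
  rw [Fintype.piFinset_univ] at h2
  rw [h2]
  unfold cW
  refine Finset.prod_congr rfl fun X _ => ?_
  have h3 := (Finset.prod_univ_sum (fun _ : Fin 2 => (Finset.univ : Finset 𝔇.Zc))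
    (fun k ξ => A X k ξ)).symm
  rw [Fintype.piFinset_univ] at h3
  rw [h3]
  refine Finset.prod_congr rfl fun k _ => ?_
  rw [hA]
  simp only
  split_ifs
  · rw [← ENNReal.ofReal_sum_of_nonneg fun _ _ => (Real.exp_pos _).le,
      𝔇.sheet_sum hr₀ hr hβ]
  · rw [Finset.sum_const, Finset.card_univ, nsmul_eq_mul, mul_one]

section meas

variable [MeasurableSpace (SU N)] [BorelSpace (SU N)] (μ : Measure (SU N))
  [IsProbabilityMeasure μ] [μ.IsMulLeftInvariant] [μ.IsMulRightInvariant]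

instance (Λ : Finset Pl) : (muL (l := l) μ Λ).IsMulLeftInvariant := by
  unfold muL
  have h1 : (Measure.pi fun _ : Tor l × Fin 4 => μ).IsMulLeftInvariant := inferInstance
  exact Measure.pi.isMulLeftInvariant (ι := Λ) (α := fun _ => Fib N l)
    (fun _ => Measure.pi fun _ : Tor l × Fin 4 => μ)

instance (Λ : Finset Pl) : IsProbabilityMeasure (muL (l := l) μ Λ) := by
  unfold muL; infer_instance

lemma e2_meas (r β : ℝ) : Measurable (𝔇.e2 r β) := by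
  classical
  unfold e2
  have h1 : ∀ ξ : Tor l → SU N, MeasurableSet {ψ : Tor l → SU N | nr (ξ * ψ) ≤ r} := by
    intro ξ
    refine (isClosed_le (nr_cont.comp ?_) continuous_const).measurableSet
    fun_prop
  have h2 : MeasurableSet {ψ : Tor l → SU N | nr ψ ≤ r} :=
    (isClosed_le nr_cont continuous_const).measurableSet
  have h3 : MeasurableSet {ψ : Tor l → SU N | ∃ ζ ∈ 𝔇.Zc, nr (ζ⁻¹ * ψ) ≤ r} := by
    have : {ψ : Tor l → SU N | ∃ ζ ∈ 𝔇.Zc, nr (ζ⁻¹ * ψ) ≤ r} =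
        ⋃ ζ : 𝔇.Zc, {ψ | nr ((ζ : Tor l → SU N)⁻¹ * ψ) ≤ r} := by
      ext ψ; simp
    rw [this]
    exact MeasurableSet.iUnion fun ζ => h1 _
  exact Measurable.ite h2 measurable_const (Measurable.ite h3 measurable_const measurable_const)

lemma psi_meas (k : Fin 2) : Measurable fun u : Fib N l => psi u k :=
  measurable_pi_lambda _ fun _ => measurable_pi_apply _

lemma phi_meas : Measurable fun u : Fib N l => phi u :=
  measurable_pi_lambda _ fun _ => measurable_pi_apply _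

lemma WW_meas (r β : ℝ) (Λ : Finset Pl) : Measurable (𝔇.WW r β (Λ := Λ)) := by
  classical
  unfold WW
  refine Finset.measurable_prod _ fun X _ => Finset.measurable_prod _ fun k _ => ?_
  by_cases h : (X : Pl) + uP k ∈ Λ
  · simp only [if_pos h]
    refine ENNReal.measurable_ofReal.comp (Real.measurable_exp.comp ?_)
    exact (((𝔇.e2_meas r β).comp ((psi_meas k).comp (measurable_pi_apply X))).const_mul β).neg
  · simp only [if_neg h]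
    exact measurable_const

/-- **Inserting the sheets.** -/
theorem sheets {r β : ℝ} (hr₀ : 16 * r ≤ 𝔇.c₀) (hr : 0 < r) (hβ : 0 < β) {Λ : Finset Pl}
    {G : (Λ → Fib N l) → ℝ≥0∞} (hG : Measurable G) :
    𝔇.cW β Λ * ∫⁻ u, G u ∂(muL μ Λ) =
      ∑ ζ : Λ → Fin 2 → 𝔇.Zc, ∫⁻ u, G (𝔇.zcu ζ * u) * 𝔇.WW r β u ∂(muL μ Λ) := by
  have h1 : ∀ ζ : Λ → Fin 2 → 𝔇.Zc, ∫⁻ u, G (𝔇.zcu ζ * u) * 𝔇.WW r β u ∂(muL μ Λ) =
      ∫⁻ u, G u * 𝔇.WW r β ((𝔇.zcu ζ)⁻¹ * u) ∂(muL μ Λ) := by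
    intro ζ
    have h := lintegral_mul_left_eq_self (μ := muL μ Λ)
      (fun u : Λ → Fib N l => G u * 𝔇.WW r β ((𝔇.zcu ζ)⁻¹ * u)) (𝔇.zcu ζ)
    rw [← h]
    simp only [inv_mul_cancel_left]
  have hm : ∀ ζ : Λ → Fin 2 → 𝔇.Zc, Measurable fun u : Λ → Fib N l =>
      G u * 𝔇.WW r β ((𝔇.zcu ζ)⁻¹ * u) := fun ζ =>
    hG.mul ((𝔇.WW_meas r β Λ).comp (measurable_const_mul _))
  rw [Finset.sum_congr rfl fun ζ _ => h1 ζ, ← lintegral_finsetSum _ fun ζ _ => hm ζ]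
  rw [← lintegral_const_mul _ hG]
  refine lintegral_congr fun u => ?_
  rw [← Finset.mul_sum, 𝔇.sum_WW hr₀ hr hβ, mul_comm]

end meas

/-! ### the action of a lifted configuration -/

lemma central_SP {G : Type*} [Group G] {a b c d : G} (hb : ∀ x, b * x = x * b)
    (hc : ∀ x, c * x = x * c) (hd : ∀ x, d * x = x * d) (x y z w : G) :
    a * x * (b * y) * (c * z)⁻¹ * (d * w)⁻¹ = (a * b * c⁻¹ * d⁻¹ * x) * y * z⁻¹ * w⁻¹ := by
  have hc' : ∀ x, c⁻¹ * x = x * c⁻¹ := fun x => by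
    rw [inv_mul_eq_iff_eq_mul, ← mul_assoc, hc, mul_assoc, mul_inv_cancel, mul_one]
  have hd' : ∀ x, d⁻¹ * x = x * d⁻¹ := fun x => by
    rw [inv_mul_eq_iff_eq_mul, ← mul_assoc, hd, mul_assoc, mul_inv_cancel, mul_one]
  rw [_root_.mul_inv_rev, _root_.mul_inv_rev, hb y, ← hc' z⁻¹, ← hd' w⁻¹]
  calc a * x * (y * b) * (c⁻¹ * z⁻¹) * (d⁻¹ * w⁻¹)
      = a * (x * y * b) * (c⁻¹ * z⁻¹) * (d⁻¹ * w⁻¹) := by group
    _ = a * (b * (x * y)) * (c⁻¹ * z⁻¹) * (d⁻¹ * w⁻¹) := by rw [hb]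
    _ = a * b * ((x * y) * c⁻¹) * z⁻¹ * (d⁻¹ * w⁻¹) := by group
    _ = a * b * (c⁻¹ * (x * y)) * z⁻¹ * (d⁻¹ * w⁻¹) := by rw [hc']
    _ = a * b * c⁻¹ * ((x * y * z⁻¹) * d⁻¹) * w⁻¹ := by group
    _ = a * b * c⁻¹ * (d⁻¹ * (x * y * z⁻¹)) * w⁻¹ := by rw [hd']
    _ = _ := by group

lemma SP_zmul (ζ : Pl → Fin 2 → 𝔇.Zc) (X : Pl) (p q s t : Tor l → SU N) :
    SP (((ζ X 0 : 𝔇.Zc) : Tor l → SU N) * p) (((ζ (X + uP 0) 1 : 𝔇.Zc) : Tor l → SU N) * q)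
      (((ζ (X + uP 1) 0 : 𝔇.Zc) : Tor l → SU N) * s) (((ζ X 1 : 𝔇.Zc) : Tor l → SU N) * t) =
      SP (((𝔇.curl ζ X : 𝔇.Zc) : Tor l → SU N) * p) q s t := by
  have h := central_SP (a := ((ζ X 0 : 𝔇.Zc) : Tor l → SU N))
    (𝔇.cen _ (ζ (X + uP 0) 1).2) (𝔇.cen _ (ζ (X + uP 1) 0).2) (𝔇.cen _ (ζ X 1).2) p q s t
  unfold SP
  refine Finset.sum_congr rfl fun y _ => ?_
  have hy := congrFun h y
  simp only [Pi.mul_apply, Pi.inv_apply] at hy ⊢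
  rw [hy]
  rfl

lemma hop_zmul (ζ : 𝔇.Zc) (φ : Tor l × Fin 2 → SU N) (k : Tor l → SU N)
    (φ' : Tor l × Fin 2 → SU N) :
    hop φ ((ζ : Tor l → SU N) * k) φ' = hop φ k φ' := by
  unfold hop
  rw [act_mul, 𝔇.D.triv _ ζ.2]

theorem action_zmul (z : ℂ) (Λ : Finset Pl) (ζ : Pl → Fin 2 → 𝔇.Zc) (U : Pl → Fib N l) :
    action z Λ (𝔇.zmul ζ U) = ∑ X ∈ Λ, (VV z (phi (U X)) +
      (∑ k : Fin 2, if X + uP k ∈ Λ then hop (phi (U X)) (psi (U X) k) (phi (U (X + uP k)))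
        else 0) +
      if X + uP 0 ∈ Λ ∧ X + uP 1 ∈ Λ ∧ X + uP 0 + uP 1 ∈ Λ then
        SP (((𝔇.curl ζ X : 𝔇.Zc) : Tor l → SU N) * psi (U X) 0) (psi (U (X + uP 0)) 1)
          (psi (U (X + uP 1)) 0) (psi (U X) 1) else 0) := by
  rw [action_eq]
  refine Finset.sum_congr rfl fun X _ => ?_
  simp only [phi_zmul, psi_zmul, SP_zmul, hop_zmul]

end Dat

end

end Pool.Agent.N984.TW
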