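import Mathlib
import Pool.Agent.N453.TW.RB3
import Pool.Agent.N726.TW.RA2

/-!
# Task R-B, part 4: the reduction to the gauge fixed ensemble
-/

open MeasureTheory Matrix Filter
open scoped Matrix.Norms.Frobenius Topology ENNReal
open Pool.Agent.H906R3.YM Pool.Agent.W793.YM Pool.Agent.TH618.YM

namespace Pool.Agent.N984.TW

set_option linter.unusedSectionVars false

noncomputable section

variable {N l n : ℕ} [NeZero N] [NeZero l]

lemma ofReal_exp_sum {ι : Type*} (s : Finset ι) (f : ι → ℝ) (β : ℝ) :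
    ENNReal.ofReal (Real.exp (-(β * ∑ i ∈ s, f i))) =
      ∏ i ∈ s, ENNReal.ofReal (Real.exp (-(β * f i))) := by
  rw [Finset.mul_sum, ← Finset.sum_neg_distrib, Real.exp_sum,
    ENNReal.ofReal_prod_of_nonneg fun _ _ => (Real.exp_pos _).le]

lemma ofReal_exp_add (x y β : ℝ) :
    ENNReal.ofReal (Real.exp (-(β * (x + y)))) =
      ENNReal.ofReal (Real.exp (-(β * x))) * ENNReal.ofReal (Real.exp (-(β * y))) := by
  rw [mul_add, neg_add, Real.exp_add, ENNReal.ofReal_mul (Real.exp_pos _).le]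

namespace Dat

variable (𝔇 : Dat N l n)

section wts

variable [MeasurableSpace (SU N)] (μ : Measure (SU N))

/-- the gauge fixing weight -/
def chiW (δ β : ℝ) {Λ : Finset Pl} (u : Λ → Fib N l) : ℝ≥0∞ :=
  ∏ X : Λ, ENNReal.ofReal
    (Real.exp (-(β * ge 𝔇.B 𝔇.hG sE tE 𝔇.φ₀ 𝔇.P δ (𝔇.bb μ β) (phi (u X)))))

open scoped Classical in
/-- the weight of the dummy links -/
def dumW (β : ℝ) {Λ : Finset Pl} (u : Λ → Fib N l) : ℝ≥0∞ :=
  ∏ X : Λ, ∏ k : Fin 2, (if (X : Pl) + uP k ∈ Λ then 1 else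
    ENNReal.ofReal (Real.exp (-(β * nr (psi (u X) k)))))

open scoped Classical in
/-- the weight of the dummy centre variables -/
def dumC (β : ℝ) {Λ : Finset Pl} (c : Λ → 𝔇.Zc) : ℝ≥0∞ :=
  ∏ X : Λ, (if (X : Pl) + uP 0 ∈ Λ ∧ (X : Pl) + uP 1 ∈ Λ ∧ (X : Pl) + uP 0 + uP 1 ∈ Λ then 1 else
    (fun ζ : 𝔇.Zc => ENNReal.ofReal (Real.exp (-(β * if ζ = 1 then 0 else 1)))) (c X))

/-- the physical links -/
def vv {Λ : Finset Pl} (g : Λ → 𝔇.KK) : Λ → Fib N l := fun X => (g X).1 * 𝔇.u0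

lemma ph_ext {Λ : Finset Pl} (g : Λ → 𝔇.KK) {X : Pl} (h : X ∈ Λ) :
    𝔇.ph (𝔇.extK Λ g X) = ext Λ (𝔇.vv g) X := by
  rw [ext_mem _ h]
  unfold extK ph vv
  rw [dif_pos h]

lemma snd_ext {Λ : Finset Pl} (g : Λ → 𝔇.KK) (X : Pl) :
    (𝔇.extK Λ g X).2 = 𝔇.exC (fun Y => (g Y).2) X := by
  unfold extK exC
  split_ifs
  · rfl
  · rfl

open scoped Classical in
lemma Hh_eq (δ r β : ℝ) (a b : Pl) (g : Finset.Icc a b → 𝔇.KK) :
    𝔇.Hh μ δ r β (Finset.Icc a b) (𝔇.extK _ g) =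
      action 𝔇.z (Finset.Icc a b)
        (𝔇.zmul (𝔇.zc a.2 (𝔇.exC fun Y => (g Y).2)) (ext _ (𝔇.vv g))) +
      ∑ X ∈ Finset.Icc a b, 𝔇.κ * ge 𝔇.B 𝔇.hG sE tE 𝔇.φ₀ 𝔇.P δ (𝔇.bb μ (𝔇.κ * β))
        (phi (ext _ (𝔇.vv g) X)) +
      ∑ X ∈ Finset.Icc a b, ∑ k : Fin 2, (if X + uP k ∈ Finset.Icc a b then
        𝔇.e2 r β (psi (ext _ (𝔇.vv g) X) k) else 0) +
      ∑ X ∈ Finset.Icc a b, ∑ k : Fin 2, (if X + uP k ∈ Finset.Icc a b then 0 else
        nr (psi (ext _ (𝔇.vv g) X) k)) +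
      ∑ X ∈ Finset.Icc a b, (if X + uP 0 ∈ Finset.Icc a b ∧ X + uP 1 ∈ Finset.Icc a b ∧
        X + uP 0 + uP 1 ∈ Finset.Icc a b then 0 else
          if 𝔇.exC (fun Y => (g Y).2) X = 1 then 0 else 1) := by
  rw [action_zmul]
  unfold Hh
  rw [← Finset.sum_add_distrib, ← Finset.sum_add_distrib, ← Finset.sum_add_distrib,
    ← Finset.sum_add_distrib]
  refine Finset.sum_congr rfl fun X hX => ?_
  have hX2 : a.2 ≤ X.2 := by
    have := hX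
    rw [Finset.mem_Icc, Prod.le_def, Prod.le_def] at this
    exact this.1.2
  rw [𝔇.ph_ext g hX, 𝔇.snd_ext g X, 𝔇.curl_zc _ hX2]
  obtain ⟨φ, hφ⟩ : ∃ φ, φ = phi (ext (Finset.Icc a b) (𝔇.vv g) X) := ⟨_, rfl⟩
  obtain ⟨ψ, hψ⟩ : ∃ ψ, ψ = psi (ext (Finset.Icc a b) (𝔇.vv g) X) := ⟨_, rfl⟩
  rw [← hφ, ← hψ]
  have h1 : (∑ k : Fin 2, if X + uP k ∈ Finset.Icc a b then
      𝔇.lnk r β φ (ψ k) (phi (𝔇.ph (𝔇.extK (Finset.Icc a b) g (X + uP k)))) else nr (ψ k)) =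
      (∑ k : Fin 2, if X + uP k ∈ Finset.Icc a b then
        hop φ (ψ k) (phi (ext (Finset.Icc a b) (𝔇.vv g) (X + uP k))) else 0) +
      (∑ k : Fin 2, if X + uP k ∈ Finset.Icc a b then 𝔇.e2 r β (ψ k) else 0) +
      (∑ k : Fin 2, if X + uP k ∈ Finset.Icc a b then 0 else nr (ψ k)) := by
    rw [← Finset.sum_add_distrib, ← Finset.sum_add_distrib]
    refine Finset.sum_congr rfl fun k _ => ?_
    by_cases h : X + uP k ∈ Finset.Icc a b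
    · rw [if_pos h, if_pos h, if_pos h, if_pos h, 𝔇.ph_ext g h]
      unfold lnk
      rw [add_zero]
    · rw [if_neg h, if_neg h, if_neg h, if_neg h, zero_add, zero_add]
  have h2 : (if X + uP 0 ∈ Finset.Icc a b ∧ X + uP 1 ∈ Finset.Icc a b ∧
        X + uP 0 + uP 1 ∈ Finset.Icc a b then
      SP (((𝔇.exC (fun Y => (g Y).2) X : 𝔇.Zc) : Tor l → SU N) * ψ 0)
        (psi (𝔇.ph (𝔇.extK (Finset.Icc a b) g (X + uP 0))) 1)
        (psi (𝔇.ph (𝔇.extK (Finset.Icc a b) g (X + uP 1))) 0) (ψ 1)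
      else if 𝔇.exC (fun Y => (g Y).2) X = 1 then 0 else 1) =
      (if X + uP 0 ∈ Finset.Icc a b ∧ X + uP 1 ∈ Finset.Icc a b ∧
        X + uP 0 + uP 1 ∈ Finset.Icc a b then
      SP (((𝔇.exC (fun Y => (g Y).2) X : 𝔇.Zc) : Tor l → SU N) * ψ 0)
        (psi (ext (Finset.Icc a b) (𝔇.vv g) (X + uP 0)) 1)
        (psi (ext (Finset.Icc a b) (𝔇.vv g) (X + uP 1)) 0) (ψ 1) else 0) +
      (if X + uP 0 ∈ Finset.Icc a b ∧ X + uP 1 ∈ Finset.Icc a b ∧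
        X + uP 0 + uP 1 ∈ Finset.Icc a b then 0 else
          if 𝔇.exC (fun Y => (g Y).2) X = 1 then 0 else 1) := by
    by_cases h : X + uP 0 ∈ Finset.Icc a b ∧ X + uP 1 ∈ Finset.Icc a b ∧
        X + uP 0 + uP 1 ∈ Finset.Icc a b
    · rw [if_pos h, if_pos h, if_pos h, 𝔇.ph_ext g h.1, 𝔇.ph_ext g h.2.1, add_zero]
    · rw [if_neg h, if_neg h, if_neg h, zero_add]
  rw [h1, h2]
  unfold fib
  ring

open scoped Classical in
/-- the weight of the gauge fixed ensemble -/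
lemma weight_eq (δ r β : ℝ) (a b : Pl) (g : Finset.Icc a b → 𝔇.KK) :
    ENNReal.ofReal (Real.exp (-(β * 𝔇.Hh μ δ r β (Finset.Icc a b) (𝔇.extK _ g)))) =
      ENNReal.ofReal (Real.exp (-(β * action 𝔇.z (Finset.Icc a b)
        (𝔇.zmul (𝔇.zc a.2 (𝔇.exC fun Y => (g Y).2)) (ext _ (𝔇.vv g)))))) *
      𝔇.chiW μ δ (𝔇.κ * β) (𝔇.vv g) * 𝔇.WW r β (𝔇.vv g) * dumW β (𝔇.vv g) *
        𝔇.dumC β (fun Y => (g Y).2) := by
  rw [Hh_eq, ofReal_exp_add, ofReal_exp_add, ofReal_exp_add, ofReal_exp_add]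
  congr 1
  · congr 1
    · congr 1
      · congr 1
        unfold chiW
        rw [ofReal_exp_sum, ← Finset.prod_coe_sort]
        refine Finset.prod_congr rfl fun X _ => ?_
        rw [ext_coe, ← mul_assoc, mul_comm β]
      · unfold WW
        rw [ofReal_exp_sum, ← Finset.prod_coe_sort]
        refine Finset.prod_congr rfl fun X _ => ?_
        rw [ofReal_exp_sum]
        refine Finset.prod_congr rfl fun k _ => ?_
        rw [ext_coe]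
        split_ifs
        · rfl
        · simp
    · unfold dumW
      rw [ofReal_exp_sum, ← Finset.prod_coe_sort]
      refine Finset.prod_congr rfl fun X _ => ?_
      rw [ofReal_exp_sum]
      refine Finset.prod_congr rfl fun k _ => ?_
      rw [ext_coe]
      split_ifs
      · simp
      · rfl
  · unfold dumC
    rw [ofReal_exp_sum, ← Finset.prod_coe_sort]
    refine Finset.prod_congr rfl fun X _ => ?_
    rw [exC_coe]
    by_cases h : (X : Pl) + uP 0 ∈ Finset.Icc a b ∧ (X : Pl) + uP 1 ∈ Finset.Icc a b ∧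
      (X : Pl) + uP 0 + uP 1 ∈ Finset.Icc a b
    · rw [if_pos h, if_pos h]; simp
    · rw [if_neg h, if_neg h]

/-- the observable in the gauge fixed ensemble -/
lemma lift_ext {α : Type*} {f : (Pl → Fib N l) → α} {a b : Pl} (hD : DepOn f (Finset.Icc a b))
    (g : Finset.Icc a b → 𝔇.KK) :
    f (𝔇.lift a.2 (𝔇.extK _ g)) =
      f (𝔇.zmul (𝔇.zc a.2 (𝔇.exC fun Y => (g Y).2)) (ext _ (𝔇.vv g))) := by
  rw [lift_eq]
  refine hD.eq (fun X hX => ?_) fun X hX k _ => ?_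
  · rw [phi_zmul, phi_zmul, 𝔇.ph_ext g hX]
  · rw [psi_zmul, psi_zmul, 𝔇.ph_ext g hX]
    congr 2
    have h : (fun Y => (𝔇.extK (Finset.Icc a b) g Y).2) = 𝔇.exC fun Y => (g Y).2 := by
      funext Y; exact 𝔇.snd_ext g Y
    rw [h]

end wts

end Dat

variable (𝔇 : Dat N l n) [MeasurableSpace (SU N)] [BorelSpace (SU N)] (μ : Measure (SU N))
  [IsProbabilityMeasure μ] [μ.IsMulLeftInvariant] [μ.IsMulRightInvariant]

lemma Dat.chiW_meas (δ β : ℝ) (Λ : Finset Pl) : Measurable (𝔇.chiW μ δ β (Λ := Λ)) := by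
  unfold Dat.chiW
  refine Finset.measurable_prod _ fun X _ => ?_
  refine ENNReal.measurable_ofReal.comp (Real.measurable_exp.comp ?_)
  exact (((ge_measurable 𝔇.hG 𝔇.P δ (𝔇.bb μ β)).comp
    (phi_meas.comp (measurable_pi_apply X))).const_mul β).neg

lemma dumW_meas (β : ℝ) (Λ : Finset Pl) : Measurable (Dat.dumW β (N := N) (l := l) (Λ := Λ)) := by
  classical
  unfold Dat.dumW
  refine Finset.measurable_prod _ fun X _ => Finset.measurable_prod _ fun k _ => ?_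
  by_cases h : (X : Pl) + uP k ∈ Λ
  · simp only [if_pos h]
    exact measurable_const
  · simp only [if_neg h]
    refine ENNReal.measurable_ofReal.comp (Real.measurable_exp.comp ?_)
    exact ((meas_nr.comp ((Dat.psi_meas k).comp (measurable_pi_apply X))).const_mul β).neg

lemma Dat.zmul_meas (ζ : Pl → Fin 2 → 𝔇.Zc) :
    Measurable (𝔇.zmul ζ : (Pl → Fib N l) → (Pl → Fib N l)) := by
  refine measurable_pi_lambda _ fun X => measurable_pi_lambda _ fun p => ?_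
  unfold Dat.zmul
  refine Measurable.const_mul ?_ _
  exact (measurable_pi_apply p).comp (measurable_pi_apply X)

/-- (R) **The reduction** to the gauge fixed ensemble on rectangles. -/
theorem reduction {δ r β : ℝ} (hδ : 0 < δ) (hδ₀ : δ ≤ 𝔇.δ₀) (hr : 0 < r) (hr₀ : 16 * r ≤ 𝔇.c₀)
    (hβ : 0 < β) (a b : Pl) :
    ∃ C : ℝ≥0∞, C ≠ 0 ∧ C ≠ ⊤ ∧ ∀ f : (Pl → Fib N l) → ℝ≥0∞, Measurable f → GaugeInv f →
      DepOn f (Finset.Icc a b) →
      ∫⁻ u, f (ext (Finset.Icc a b) u) * ENNReal.ofReal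
          (Real.exp (-(β * action 𝔇.z (Finset.Icc a b) (ext (Finset.Icc a b) u))))
            ∂(muL μ (Finset.Icc a b)) =
        C * ∫⁻ g, f (𝔇.lift a.2 (𝔇.extK (Finset.Icc a b) g)) * ENNReal.ofReal
          (Real.exp (-(β * 𝔇.Hh μ δ r β (Finset.Icc a b) (𝔇.extK (Finset.Icc a b) g))))
            ∂(Measure.pi fun _ => 𝔇.nu μ) := by
  classical
  obtain ⟨Λ, hΛ⟩ : ∃ Λ : Finset Pl, Λ = Finset.Icc a b := ⟨_, rfl⟩
  -- the constants
  obtain ⟨c1, hc1⟩ : ∃ c1 : ℝ≥0∞, c1 = ENNReal.ofReal (cN μ 𝔇.Zc (𝔇.κ * β)) ^ (Finset.Icc a b).card :=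
    ⟨_, rfl⟩
  obtain ⟨c2, hc2⟩ : ∃ c2 : ℝ≥0∞, c2 = 𝔇.cW β (Finset.Icc a b) := ⟨_, rfl⟩
  obtain ⟨c3, hc3⟩ : ∃ c3 : ℝ≥0∞, c3 = (Fintype.card (Finset.Icc a b → 𝔇.Zc) : ℝ≥0∞) := ⟨_, rfl⟩
  obtain ⟨c4, hc4⟩ : ∃ c4 : ℝ≥0∞,
    c4 = (Fintype.card (Finset.Icc a b → Fin 2 → 𝔇.Zc) : ℝ≥0∞) := ⟨_, rfl⟩
  obtain ⟨c5, hc5⟩ : ∃ c5 : ℝ≥0∞, c5 = (∏ X : Finset.Icc a b, ∏ k : Fin 2,
    (if (X : Pl) + uP k ∈ Finset.Icc a b then (1 : ℝ≥0∞) else
        ∫⁻ k : Tor l → SU N, ENNReal.ofReal (Real.exp (-(β * nr k)))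
          ∂(Measure.pi fun _ => μ))) := ⟨_, rfl⟩
  obtain ⟨c6, hc6⟩ : ∃ c6 : ℝ≥0∞, c6 = ∏ X : Finset.Icc a b,
    (if (X : Pl) + uP 0 ∈ Finset.Icc a b ∧ (X : Pl) + uP 1 ∈ Finset.Icc a b ∧
      (X : Pl) + uP 0 + uP 1 ∈ Finset.Icc a b then (Fintype.card 𝔇.Zc : ℝ≥0∞) else
        ∑ ζ : 𝔇.Zc, ENNReal.ofReal (Real.exp (-(β * if ζ = 1 then 0 else 1)))) := ⟨_, rfl⟩
  obtain ⟨c7, hc7⟩ : ∃ c7 : ℝ≥0∞, c7 = ((Nat.card 𝔇.Zc : ℝ≥0∞)⁻¹) ^ (Finset.Icc a b).card :=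
    ⟨_, rfl⟩
  have p1 : c1 ≠ 0 ∧ c1 ≠ ⊤ := by
    rw [hc1]
    refine ⟨pow_ne_zero _ (ENNReal.ofReal_pos.2 (cN_pos 𝔇.D μ (mul_pos 𝔇.hκ hβ).le)).ne',
      ENNReal.pow_ne_top ENNReal.ofReal_ne_top⟩
  have p2 : c2 ≠ 0 ∧ c2 ≠ ⊤ := by
    rw [hc2]
    exact ⟨𝔇.cW_ne_zero β _, 𝔇.cW_ne_top β _⟩
  have p3 : c3 ≠ 0 ∧ c3 ≠ ⊤ := by
    rw [hc3]
    exact ⟨by exact_mod_cast Fintype.card_ne_zero, ENNReal.natCast_ne_top _⟩
  have p4 : c4 ≠ 0 ∧ c4 ≠ ⊤ := by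
    rw [hc4]
    exact ⟨by exact_mod_cast Fintype.card_ne_zero, ENNReal.natCast_ne_top _⟩
  have pI : (∫⁻ k : Tor l → SU N, ENNReal.ofReal (Real.exp (-(β * nr k)))
      ∂(Measure.pi fun _ => μ)) ≠ 0 ∧ (∫⁻ k : Tor l → SU N, ENNReal.ofReal (Real.exp (-(β * nr k)))
      ∂(Measure.pi fun _ => μ)) ≠ ⊤ := by
    have hm : Measurable fun k : Tor l → SU N => ENNReal.ofReal (Real.exp (-(β * nr k))) :=
      ENNReal.measurable_ofReal.comp (Real.measurable_exp.comp (meas_nr.const_mul β).neg)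
    constructor
    · intro h
      rw [lintegral_eq_zero_iff hm] at h
      obtain ⟨k, hk⟩ := h.exists
      exact (ENNReal.ofReal_pos.2 (Real.exp_pos _)).ne' hk
    · refine ne_top_of_le_ne_top (ENNReal.one_ne_top) ?_
      calc (∫⁻ k : Tor l → SU N, ENNReal.ofReal (Real.exp (-(β * nr k)))
          ∂(Measure.pi fun _ => μ)) ≤ ∫⁻ _k : Tor l → SU N, 1 ∂(Measure.pi fun _ => μ) := by
            refine lintegral_mono fun k => ?_
            rw [← ENNReal.ofReal_one]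
            refine ENNReal.ofReal_le_ofReal (Real.exp_le_one_iff.2 ?_)
            have := mul_nonneg hβ.le (nr_nonneg k)
            linarith
        _ = 1 := by simp
  have p5 : c5 ≠ 0 ∧ c5 ≠ ⊤ := by
    rw [hc5]
    constructor
    · refine Finset.prod_ne_zero_iff.2 fun X _ => Finset.prod_ne_zero_iff.2 fun k _ => ?_
      split_ifs
      · exact one_ne_zero
      · exact pI.1
    · refine ENNReal.prod_ne_top fun X _ => ENNReal.prod_ne_top fun k _ => ?_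
      split_ifs
      · exact ENNReal.one_ne_top
      · exact pI.2
  have p6 : c6 ≠ 0 ∧ c6 ≠ ⊤ := by
    rw [hc6]
    constructor
    · refine Finset.prod_ne_zero_iff.2 fun X _ => ?_
      split_ifs
      · exact_mod_cast Fintype.card_ne_zero
      · intro h
        rw [Finset.sum_eq_zero_iff] at h
        exact (ENNReal.ofReal_pos.2 (Real.exp_pos _)).ne' (h 1 (Finset.mem_univ _))
    · refine ENNReal.prod_ne_top fun X _ => ?_
      split_ifs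
      · exact ENNReal.natCast_ne_top _
      · exact ENNReal.sum_ne_top.2 fun _ _ => ENNReal.ofReal_ne_top
  have p7 : c7 ≠ 0 ∧ c7 ≠ ⊤ := by
    rw [hc7]
    have h0 : (Nat.card 𝔇.Zc : ℝ≥0∞) ≠ 0 := by exact_mod_cast 𝔇.cardZ_pos.ne'
    exact ⟨pow_ne_zero _ (ENNReal.inv_ne_zero.2 (ENNReal.natCast_ne_top _)),
      ENNReal.pow_ne_top (ENNReal.inv_ne_top.2 h0)⟩
  -- the final constant
  refine ⟨(c1 * c2 * c3 * c5 * c6 * c7)⁻¹ * (c3 * c4), ?_, ?_, ?_⟩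
  · refine mul_ne_zero (ENNReal.inv_ne_zero.2 ?_) (mul_ne_zero p3.1 p4.1)
    exact ENNReal.mul_ne_top (ENNReal.mul_ne_top (ENNReal.mul_ne_top (ENNReal.mul_ne_top
      (ENNReal.mul_ne_top p1.2 p2.2) p3.2) p5.2) p6.2) p7.2
  · refine ENNReal.mul_ne_top (ENNReal.inv_ne_top.2 ?_) (ENNReal.mul_ne_top p3.2 p4.2)
    exact mul_ne_zero (mul_ne_zero (mul_ne_zero (mul_ne_zero
      (mul_ne_zero p1.1 p2.1) p3.1) p5.1) p6.1) p7.1
  intro f hf hfi hfD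
  -- the integrand
  obtain ⟨F, hF⟩ : ∃ F : (Pl → Fib N l) → ℝ≥0∞, F = fun U => f U * ENNReal.ofReal
    (Real.exp (-(β * action 𝔇.z (Finset.Icc a b) U))) := ⟨_, rfl⟩
  have Fm : Measurable F := by
    rw [hF]
    exact hf.mul (ENNReal.measurable_ofReal.comp (Real.measurable_exp.comp
      (((action_cont 𝔇.z (Finset.Icc a b)).measurable.const_mul β).neg)))
  have Fi : GaugeInv F := by
    intro h U
    rw [hF]
    simp only
    rw [hfi, action_gt]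
  have FD : DepOn F (Finset.Icc a b) := by
    intro U U' hU
    rw [hF]
    simp only
    rw [hfD U U' hU, action_dep 𝔇.z (Finset.Icc a b) U U' hU]
  obtain ⟨L, hL⟩ : ∃ L : ℝ≥0∞, L = ∫⁻ u, F (ext (Finset.Icc a b) u)
    ∂(muL μ (Finset.Icc a b)) := ⟨_, rfl⟩
  -- the lifted functions
  obtain ⟨Φ, hΦ⟩ : ∃ Φ : (Finset.Icc a b → 𝔇.Zc) → (Finset.Icc a b → Fib N l) → ℝ≥0∞,
    Φ = fun c u => F (𝔇.zmul (𝔇.zc a.2 (𝔇.exC c)) (ext _ u)) * 𝔇.chiW μ δ (𝔇.κ * β) u * 𝔇.WW r β u :=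
    ⟨_, rfl⟩
  have hextm : Measurable (ext (Finset.Icc a b) : (Finset.Icc a b → Fib N l) → _) := by
    refine measurable_pi_lambda _ fun X => ?_
    unfold ext
    by_cases h : X ∈ Finset.Icc a b
    · simp only [dif_pos h]
      exact measurable_pi_apply _
    · simp only [dif_neg h]
      exact measurable_const
  have Φm : ∀ c, Measurable (Φ c) := by
    intro c
    rw [hΦ]
    exact ((Fm.comp ((𝔇.zmul_meas _).comp hextm)).mul (𝔇.chiW_meas μ δ (𝔇.κ * β) _)).mul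
      (𝔇.WW_meas r β _)
  -- step 1: gauge fixing
  have s1 : ∫⁻ u, F (ext (Finset.Icc a b) u) * 𝔇.chiW μ δ (𝔇.κ * β) u ∂(muL μ (Finset.Icc a b)) =
      c1 * L := by
    rw [hc1, hL]
    exact RA_gauge 𝔇 μ hδ hδ₀ (mul_pos 𝔇.hκ hβ) (Finset.Icc a b) Fm Fi FD
  -- step 2: sheets
  have s2 : c2 * (c1 * L) = ∑ ζ : Finset.Icc a b → Fin 2 → 𝔇.Zc,
      ∫⁻ u, Φ (𝔇.curlH _ ζ) u ∂(muL μ (Finset.Icc a b)) := by
    rw [← s1, hc2, 𝔇.sheets μ hr₀ hr hβ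
      (G := fun u => F (ext (Finset.Icc a b) u) * 𝔇.chiW μ δ (𝔇.κ * β) u)
      ((Fm.comp hextm).mul (𝔇.chiW_meas μ δ (𝔇.κ * β) _))]
    refine Finset.sum_congr rfl fun ζ _ => lintegral_congr fun u => ?_
    rw [hΦ]
    simp only
    rw [𝔇.gauge_lift Fi FD]
    congr 2
    unfold Dat.chiW
    refine Finset.prod_congr rfl fun X _ => ?_
    rw [𝔇.phi_zcu]
  -- step 3: the sum over the curls
  have s3 : c3 * (c2 * (c1 * L)) = c4 * ∑ c : Finset.Icc a b → 𝔇.Zc,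
      ∫⁻ u, Φ c u ∂(muL μ (Finset.Icc a b)) := by
    rw [s2, hc3, hc4]
    exact sum_hom (𝔇.curlH (Finset.Icc a b)) (𝔇.curlH_surj a b)
      fun c => ∫⁻ u, Φ c u ∂(muL μ (Finset.Icc a b))
  -- step 4: the dummy links
  have s4 : ∀ c, ∫⁻ u, Φ c u * Dat.dumW β u ∂(muL μ (Finset.Icc a b)) =
      c5 * ∫⁻ u, Φ c u ∂(muL μ (Finset.Icc a b)) := by
    intro c
    rw [hc5]
    refine RA_dummy μ (Finset.Icc a b) (Φm c) ?_
    intro u u' h1 h2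
    rw [hΦ]
    simp only
    have e1 : F (𝔇.zmul (𝔇.zc a.2 (𝔇.exC c)) (ext _ u)) =
        F (𝔇.zmul (𝔇.zc a.2 (𝔇.exC c)) (ext _ u')) := by
      refine FD.eq (fun X hX => ?_) fun X hX k hk => ?_
      · rw [𝔇.phi_zmul, 𝔇.phi_zmul, Dat.ext_mem _ hX, Dat.ext_mem _ hX, h1]
      · rw [𝔇.psi_zmul, 𝔇.psi_zmul, Dat.ext_mem _ hX, Dat.ext_mem _ hX, h2 ⟨X, hX⟩ k hk]
    have e2 : 𝔇.chiW μ δ (𝔇.κ * β) u = 𝔇.chiW μ δ (𝔇.κ * β) u' := by
      unfold Dat.chiW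
      refine Finset.prod_congr rfl fun X _ => ?_
      rw [h1]
    have e3 : 𝔇.WW r β u = 𝔇.WW r β u' := by
      unfold Dat.WW
      refine Finset.prod_congr rfl fun X _ => Finset.prod_congr rfl fun k _ => ?_
      by_cases h : (X : Pl) + uP k ∈ Finset.Icc a b
      · rw [if_pos h, if_pos h, h2 X k h]
      · rw [if_neg h, if_neg h]
    rw [e1, e2, e3]
  -- step 5: the dummy centre variables
  have s5 : c3 * ∑ c : Finset.Icc a b → 𝔇.Zc, (∫⁻ u, Φ c u * Dat.dumW β u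
      ∂(muL μ (Finset.Icc a b))) * 𝔇.dumC β c = c6 * ∑ c : Finset.Icc a b → 𝔇.Zc,
      ∫⁻ u, Φ c u * Dat.dumW β u ∂(muL μ (Finset.Icc a b)) := by
    have h := sum_dummy (I := Finset.Icc a b) (Z := 𝔇.Zc)
      (fun X => (X : Pl) + uP 0 ∈ Finset.Icc a b ∧ (X : Pl) + uP 1 ∈ Finset.Icc a b ∧
        (X : Pl) + uP 0 + uP 1 ∈ Finset.Icc a b)
      (fun ζ : 𝔇.Zc => ENNReal.ofReal (Real.exp (-(β * if ζ = 1 then 0 else 1))))
      (fun c => ∫⁻ u, Φ c u * Dat.dumW β u ∂(muL μ (Finset.Icc a b))) (by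
        intro c c' hcc
        refine lintegral_congr fun u => ?_
        rw [hΦ]
        simp only
        congr 3
        refine 𝔇.gauge_curl Fi FD (fun X hX hX' => ?_) _
        have hX2 := hX
        have hX3 := hX'
        rw [Finset.mem_Icc, Prod.le_def, Prod.le_def] at hX2 hX3
        rw [𝔇.curl_zc _ hX2.1.2, 𝔇.curl_zc _ hX2.1.2, 𝔇.exC_mem _ hX, 𝔇.exC_mem _ hX]
        refine hcc ⟨X, hX⟩ ?_
        obtain ⟨⟨g1, g2⟩, g3, g4⟩ := hX2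
        have e1 : (X + uP 0 + uP 1).1 = X.1 + 1 := by simp [uP]
        have e2 : (X + uP 0 + uP 1).2 = X.2 + 1 := by simp [uP]
        rw [e1, e2] at hX3
        obtain ⟨⟨k1, k2⟩, k3, k4⟩ := hX3
        refine ⟨?_, ?_, hX'⟩
        · have f1 : (X + uP 0).1 = X.1 + 1 := by simp [uP]
          have f2 : (X + uP 0).2 = X.2 := by simp [uP]
          rw [Finset.mem_Icc, Prod.le_def, Prod.le_def]
          show (a.1 ≤ (X + uP 0).1 ∧ a.2 ≤ (X + uP 0).2) ∧ (X + uP 0).1 ≤ b.1 ∧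
            (X + uP 0).2 ≤ b.2
          rw [f1, f2]
          exact ⟨⟨k1, g2⟩, k3, g4⟩
        · have f1 : (X + uP 1).1 = X.1 := by simp [uP]
          have f2 : (X + uP 1).2 = X.2 + 1 := by simp [uP]
          rw [Finset.mem_Icc, Prod.le_def, Prod.le_def]
          show (a.1 ≤ (X + uP 1).1 ∧ a.2 ≤ (X + uP 1).2) ∧ (X + uP 1).1 ≤ b.1 ∧
            (X + uP 1).2 ≤ b.2
          rw [f1, f2]
          exact ⟨⟨g1, k2⟩, g3, k4⟩)
    rw [hc3, hc6]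
    exact h
  -- step 6: the right side
  have s6 : ∫⁻ g, f (𝔇.lift a.2 (𝔇.extK (Finset.Icc a b) g)) * ENNReal.ofReal
      (Real.exp (-(β * 𝔇.Hh μ δ r β (Finset.Icc a b) (𝔇.extK (Finset.Icc a b) g))))
        ∂(Measure.pi fun _ => 𝔇.nu μ) = c7 * ∑ c : Finset.Icc a b → 𝔇.Zc,
      (∫⁻ u, Φ c u * Dat.dumW β u ∂(muL μ (Finset.Icc a b))) * 𝔇.dumC β c := by
    have h1 : ∀ g : Finset.Icc a b → 𝔇.KK, f (𝔇.lift a.2 (𝔇.extK (Finset.Icc a b) g)) *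
        ENNReal.ofReal (Real.exp (-(β * 𝔇.Hh μ δ r β (Finset.Icc a b)
          (𝔇.extK (Finset.Icc a b) g)))) =
        (fun (u : Finset.Icc a b → Fib N l) (c : Finset.Icc a b → 𝔇.Zc) =>
          (fun v => Φ c v * Dat.dumW β v * 𝔇.dumC β c) (fun X => u X * 𝔇.u0))
          (fun X => (g X).1) (fun X => (g X).2) := by
      intro g
      rw [𝔇.lift_ext hfD, 𝔇.weight_eq]
      rw [hΦ, hF]
      show _ = (f (𝔇.zmul (𝔇.zc a.2 (𝔇.exC fun X => (g X).2)) (ext _ (𝔇.vv g))) *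
        ENNReal.ofReal (Real.exp (-(β * action 𝔇.z (Finset.Icc a b)
          (𝔇.zmul (𝔇.zc a.2 (𝔇.exC fun X => (g X).2)) (ext _ (𝔇.vv g)))))) *
          𝔇.chiW μ δ (𝔇.κ * β) (𝔇.vv g) * 𝔇.WW r β (𝔇.vv g)) * Dat.dumW β (𝔇.vv g) *
          𝔇.dumC β (fun X => (g X).2)
      simp only [mul_assoc]
    have hmm : ∀ c : Finset.Icc a b → 𝔇.Zc, Measurable
        (fun v : Finset.Icc a b → Fib N l => Φ c v * Dat.dumW β v * 𝔇.dumC β c) := fun c =>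
      ((Φm c).mul (dumW_meas β _)).mul_const _
    rw [lintegral_congr h1]
    have h2 : ∀ c : Finset.Icc a b → 𝔇.Zc, ∫⁻ u : Finset.Icc a b → Fib N l,
        (fun v => Φ c v * Dat.dumW β v * 𝔇.dumC β c) (fun X => u X * 𝔇.u0)
          ∂(muL μ (Finset.Icc a b)) =
        (∫⁻ u, Φ c u * Dat.dumW β u ∂(muL μ (Finset.Icc a b))) * 𝔇.dumC β c := by
      intro c
      have h3 := (RA_trans μ (Finset.Icc a b) 𝔇.u0).lintegral_comp (hmm c)
      have h4 := lintegral_mul_const (μ := muL μ (Finset.Icc a b)) (𝔇.dumC β c)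
        ((Φm c).mul (dumW_meas β (Finset.Icc a b)))
      exact h3.trans h4
    have h5 := RA_split 𝔇 μ (Finset.Icc a b)
      (F := fun (u : Finset.Icc a b → Fib N l) (c : Finset.Icc a b → 𝔇.Zc) =>
          (fun v => Φ c v * Dat.dumW β v * 𝔇.dumC β c) (fun X => u X * 𝔇.u0))
      (fun c => (hmm c).comp (RA_trans μ (Finset.Icc a b) 𝔇.u0).measurable)
    rw [finsum_eq_sum_of_fintype, ← hc7, Finset.sum_congr rfl fun c _ => h2 c] at h5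
    exact h5
  -- the end
  have e1 : ∫⁻ u, f (ext (Finset.Icc a b) u) * ENNReal.ofReal
      (Real.exp (-(β * action 𝔇.z (Finset.Icc a b) (ext (Finset.Icc a b) u))))
        ∂(muL μ (Finset.Icc a b)) = L := by
    rw [hL, hF]
  rw [e1, s6]
  obtain ⟨S, hS⟩ : ∃ S : ℝ≥0∞, S = ∑ c : Finset.Icc a b → 𝔇.Zc,
      ∫⁻ u, Φ c u ∂(muL μ (Finset.Icc a b)) := ⟨_, rfl⟩
  obtain ⟨R, hR⟩ : ∃ R : ℝ≥0∞, R = ∑ c : Finset.Icc a b → 𝔇.Zc,
      (∫⁻ u, Φ c u * Dat.dumW β u ∂(muL μ (Finset.Icc a b))) * 𝔇.dumC β c := ⟨_, rfl⟩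
  rw [← hR] at s5 ⊢
  simp only [s4] at s5
  rw [← Finset.mul_sum, ← hS] at s5
  rw [← hS] at s3
  -- s3 : c3 * (c2 * (c1 * L)) = c4 * S,  s5 : c3 * R = c6 * (c5 * S)
  have key : (c1 * c2 * c3 * c5 * c6 * c7) * L = (c3 * c4) * (c7 * R) := by
    calc (c1 * c2 * c3 * c5 * c6 * c7) * L = (c3 * (c2 * (c1 * L))) * (c5 * c6 * c7) := by ring
      _ = (c6 * (c5 * S)) * (c4 * c7) := by rw [s3]; ring
      _ = _ := by rw [← s5]; ring
  rw [mul_assoc, ← key, ← mul_assoc, ENNReal.inv_mul_cancel, one_mul]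
  · exact mul_ne_zero (mul_ne_zero (mul_ne_zero (mul_ne_zero
      (mul_ne_zero p1.1 p2.1) p3.1) p5.1) p6.1) p7.1
  · exact ENNReal.mul_ne_top (ENNReal.mul_ne_top (ENNReal.mul_ne_top (ENNReal.mul_ne_top
      (ENNReal.mul_ne_top p1.2 p2.2) p3.2) p5.2) p6.2) p7.2

end

end Pool.Agent.N984.TW
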