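import Mathlib
import Pool.Agent.N453.TW.RB2

/-!
# Reflection positivity, part 1: the infinite product measure, reindexing
-/

open MeasureTheory Matrix Filter
open scoped Matrix.Norms.Frobenius Topology ENNReal
open Pool.Agent.H906R3.YM Pool.Agent.W793.YM Pool.Agent.TH618.YM

namespace Pool.Agent.N984.TW

set_option linter.unusedSectionVars false
set_option linter.unusedVariables false

noncomputable section

variable {N l : ℕ} [NeZero N] [NeZero l]

namespace RP

/-! ### invariance under the inversion -/

/-- a bi-invariant probability measure is invariant under the inversion -/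
lemma inv_mp {G : Type*} [Group G] [MeasurableSpace G] [MeasurableMul₂ G] [MeasurableInv G]
    (μ : Measure G) [IsProbabilityMeasure μ] [μ.IsMulLeftInvariant] [μ.IsMulRightInvariant] :
    MeasurePreserving (fun x : G => x⁻¹) μ μ := by
  refine ⟨measurable_inv, ?_⟩
  ext s hs
  rw [Measure.map_apply measurable_inv hs]
  have hm : Measurable fun x : G => Set.indicator s (1 : G → ℝ≥0∞) x :=
    measurable_one.indicator hs
  have h0 : μ ((fun x : G => x⁻¹) ⁻¹' s) = ∫⁻ x, s.indicator (1 : G → ℝ≥0∞) x⁻¹ ∂μ := by
    rw [← lintegral_indicator_one (measurable_inv hs)]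
    rfl
  have h1 : ∀ y : G, ∫⁻ x, s.indicator (1 : G → ℝ≥0∞) x⁻¹ ∂μ =
      ∫⁻ x, s.indicator (1 : G → ℝ≥0∞) (y * x⁻¹) ∂μ := by
    intro y
    rw [← lintegral_mul_right_eq_self (fun x => s.indicator (1 : G → ℝ≥0∞) x⁻¹) y⁻¹]
    refine lintegral_congr fun x => ?_
    rw [_root_.mul_inv_rev, inv_inv]
  rw [h0]
  calc ∫⁻ x, s.indicator (1 : G → ℝ≥0∞) x⁻¹ ∂μ
      = ∫⁻ _y : G, ∫⁻ x, s.indicator (1 : G → ℝ≥0∞) x⁻¹ ∂μ ∂μ := by
        rw [lintegral_const, measure_univ, mul_one]
    _ = ∫⁻ y, ∫⁻ x, s.indicator (1 : G → ℝ≥0∞) (y * x⁻¹) ∂μ ∂μ := lintegral_congr fun y => h1 y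
    _ = ∫⁻ x, ∫⁻ y, s.indicator (1 : G → ℝ≥0∞) (y * x⁻¹) ∂μ ∂μ := by
        rw [lintegral_lintegral_swap]
        exact (hm.comp (measurable_fst.mul measurable_snd.inv)).aemeasurable
    _ = ∫⁻ _x : G, ∫⁻ y, s.indicator (1 : G → ℝ≥0∞) y ∂μ ∂μ := by
        refine lintegral_congr fun x => ?_
        exact lintegral_mul_right_eq_self (fun y => s.indicator (1 : G → ℝ≥0∞) y) x⁻¹
    _ = μ s := by
        rw [lintegral_const, measure_univ, mul_one, lintegral_indicator_one hs]

/-! ### reindexing of infinite products -/

/-- reindexing by an injective map and coordinatewise measure preserving maps -/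
lemma mp_reindex {I J G : Type*} [MeasurableSpace G] (μ : Measure G) [IsProbabilityMeasure μ]
    (τ : J → I) (hτ : Function.Injective τ) (f : J → G → G)
    (hf : ∀ j, MeasurePreserving (f j) μ μ) :
    MeasurePreserving (fun (w : I → G) (j : J) => f j (w (τ j)))
      (Measure.infinitePi fun _ : I => μ) (Measure.infinitePi fun _ : J => μ) := by
  classical
  have hm : Measurable fun (w : I → G) (j : J) => f j (w (τ j)) :=
    measurable_pi_lambda _ fun j => (hf j).measurable.comp (measurable_pi_apply _)
  refine ⟨hm, Measure.eq_infinitePi _ fun s t ht => ?_⟩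
  rw [Measure.map_apply hm (.pi s.countable_toSet fun _ _ => ht _)]
  -- the preimage as a box
  let t' : I → Set G := fun i => ⋂ j ∈ s, if τ j = i then f j ⁻¹' t j else Set.univ
  have h1 : (fun (w : I → G) (j : J) => f j (w (τ j))) ⁻¹' (Set.pi s t) =
      Set.pi (s.image τ : Finset I) t' := by
    ext w
    simp only [Set.mem_preimage, Set.mem_pi, Finset.mem_coe, Finset.mem_image, t',
      Set.mem_iInter]
    constructor
    · rintro h i ⟨j, hj, rfl⟩ k hk
      by_cases hkj : τ k = τ j
      · rw [if_pos hkj]
        have := h k hk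
        rw [hkj] at this
        exact this
      · rw [if_neg hkj]
        exact Set.mem_univ _
    · intro h j hj
      have := h (τ j) ⟨j, hj, rfl⟩ j hj
      rw [if_pos rfl] at this
      exact this
  have h2 : ∀ j ∈ s, t' (τ j) = f j ⁻¹' t j := by
    intro j hj
    ext x
    simp only [t', Set.mem_iInter]
    constructor
    · intro h
      have := h j hj
      rw [if_pos rfl] at this
      exact this
    · intro h k hk
      by_cases hkj : τ k = τ j
      · rw [if_pos hkj, hτ hkj]
        exact h
      · rw [if_neg hkj]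
        exact Set.mem_univ _
  rw [h1, Measure.infinitePi_pi]
  · rw [Finset.prod_image fun a _ b _ hab => hτ hab]
    refine Finset.prod_congr rfl fun j hj => ?_
    rw [h2 j hj]
    exact (hf j).measure_preimage (ht j).nullMeasurableSet
  · intro i hi
    obtain ⟨j, hj, rfl⟩ := Finset.mem_image.1 hi
    rw [h2 j hj]
    exact (hf j).measurable (ht j)

/-- three independent copies: reindexing -/
lemma mp_three {I J G : Type*} [MeasurableSpace G] (μ : Measure G) [IsProbabilityMeasure μ]
    (τ : J → I) (κ : J → Fin 3) (hτ : ∀ j j', κ j = κ j' → τ j = τ j' → j = j')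
    (f : J → G → G) (hf : ∀ j, MeasurePreserving (f j) μ μ) :
    MeasurePreserving (fun (w : (I → G) × (I → G) × (I → G)) (j : J) =>
        f j (if κ j = 0 then w.1 (τ j) else if κ j = 1 then w.2.1 (τ j) else w.2.2 (τ j)))
      ((Measure.infinitePi fun _ : I => μ).prod ((Measure.infinitePi fun _ : I => μ).prod
        (Measure.infinitePi fun _ : I => μ))) (Measure.infinitePi fun _ : J => μ) := by
  classical
  have hm : Measurable (fun (w : (I → G) × (I → G) × (I → G)) (j : J) =>
        f j (if κ j = 0 then w.1 (τ j) else if κ j = 1 then w.2.1 (τ j) else w.2.2 (τ j))) := by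
    refine measurable_pi_lambda _ fun j => (hf j).measurable.comp ?_
    split_ifs
    · exact (measurable_pi_apply _).comp measurable_fst
    · exact (measurable_pi_apply _).comp (measurable_fst.comp measurable_snd)
    · exact (measurable_pi_apply _).comp (measurable_snd.comp measurable_snd)
  refine ⟨hm, Measure.eq_infinitePi _ fun s t ht => ?_⟩
  rw [Measure.map_apply hm (.pi s.countable_toSet fun _ _ => ht _)]
  -- restriction of the index map to the three classes
  have key : ∀ k : Fin 3, MeasurePreserving
      (fun (w : I → G) (j : {j : J // κ j = k}) => f j.1 (w (τ j.1)))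
      (Measure.infinitePi fun _ : I => μ) (Measure.infinitePi fun _ : {j : J // κ j = k} => μ) :=
    fun k => mp_reindex μ (fun j : {j : J // κ j = k} => τ j.1)
      (fun a b hab => Subtype.ext (hτ _ _ (a.2.trans b.2.symm) hab)) (fun j => f j.1)
      fun j => hf j.1
  let B : Fin 3 → Set (I → G) := fun k =>
    (fun (w : I → G) (j : {j : J // κ j = k}) => f j.1 (w (τ j.1))) ⁻¹'
      (Set.pi ((s.subtype fun j => κ j = k : Finset {j : J // κ j = k}) : Set _)
        fun j => t j.1)
  have hB : ∀ k, (Measure.infinitePi fun _ : I => μ) (B k) =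
      ∏ j ∈ s with κ j = k, μ (t j) := by
    intro k
    have hms : MeasurableSet (Set.pi ((s.subtype fun j => κ j = k : Finset {j : J // κ j = k}) :
        Set _) fun j : {j : J // κ j = k} => t j.1) :=
      .pi (Finset.countable_toSet _) fun _ _ => ht _
    rw [(key k).measure_preimage hms.nullMeasurableSet, Measure.infinitePi_pi _ fun _ _ => ht _]
    rw [← Finset.prod_subtype_of_mem (s := s.filter fun j => κ j = k) (p := fun j => κ j = k)
      (f := fun j => μ (t j)) (fun x hx => (Finset.mem_filter.1 hx).2)]
    refine Finset.prod_congr ?_ fun _ _ => rfl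
    ext j
    simp [j.2]
  have h1 : (fun (w : (I → G) × (I → G) × (I → G)) (j : J) =>
        f j (if κ j = 0 then w.1 (τ j) else if κ j = 1 then w.2.1 (τ j) else w.2.2 (τ j))) ⁻¹'
      (Set.pi s t) = B 0 ×ˢ (B 1 ×ˢ B 2) := by
    ext w
    simp only [Set.mem_preimage, Set.mem_pi, Finset.mem_coe, Set.mem_prod, B,
      Finset.mem_subtype, Subtype.forall]
    constructor
    · intro h
      refine ⟨fun j hj hjs => ?_, fun j hj hjs => ?_, fun j hj hjs => ?_⟩
      · have := h j hjs
        rw [if_pos hj] at this
        exact this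
      · have := h j hjs
        rw [if_neg (by rw [hj]; decide), if_pos hj] at this
        exact this
      · have := h j hjs
        rw [if_neg (by rw [hj]; decide), if_neg (by rw [hj]; decide)] at this
        exact this
    · rintro ⟨h0, h1, h2⟩ j hjs
      by_cases e0 : κ j = 0
      · rw [if_pos e0]; exact h0 j e0 hjs
      · by_cases e1 : κ j = 1
        · rw [if_neg e0, if_pos e1]; exact h1 j e1 hjs
        · rw [if_neg e0, if_neg e1]
          have e2 : κ j = 2 := by
            generalize κ j = k at e0 e1
            fin_cases k <;> simp_all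
          exact h2 j e2 hjs
  rw [h1, Measure.prod_prod, Measure.prod_prod, hB, hB, hB]
  have h3 : ∏ j ∈ s, μ (t j) = ∏ k : Fin 3, ∏ j ∈ s with κ j = k, μ (t j) := by
    rw [Finset.prod_fiberwise]
  rw [h3, Fin.prod_univ_three, mul_assoc]

end RP

end

end Pool.Agent.N984.TW
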