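import Mathlib
import Pool.Agent.N453.TW.RP1

/-!
# Reflection positivity, part 2: expectations through the infinite product measure
-/

open MeasureTheory Matrix Filter
open scoped Matrix.Norms.Frobenius Topology ENNReal
open Pool.Agent.H906R3.YM Pool.Agent.W793.YM Pool.Agent.TH618.YM

namespace Pool.Agent.N984.TW

set_option linter.unusedSectionVars false
set_option linter.unusedVariables false

noncomputable section

variable {N l : ℕ} [NeZero N] [NeZero l]

namespace RP

variable [MeasurableSpace (SU N)] [BorelSpace (SU N)] (μ : Measure (SU N))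
  [IsProbabilityMeasure μ] [μ.IsMulLeftInvariant] [μ.IsMulRightInvariant]

/-- the links -/
abbrev Lk (l : ℕ) := Pl × (Tor l × Fin 4)

/-- the product of the Haar measures of all links -/
def Pw : Measure (Lk l → SU N) := Measure.infinitePi fun _ => μ

instance : IsProbabilityMeasure (Pw (l := l) μ) := by unfold Pw; infer_instance

/-- the configuration of a function on the links -/
def cf (w : Lk l → SU N) : Pl → Fib N l := fun X p => w (X, p)

lemma cf_meas : Measurable (cf : (Lk l → SU N) → Pl → Fib N l) :=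
  measurable_pi_lambda _ fun _ => measurable_pi_lambda _ fun _ => measurable_pi_apply _

/-- the restriction to `Λ` -/
def rs (Λ : Finset Pl) (w : Lk l → SU N) : Λ → Fib N l := fun X p => w (X, p)

lemma rs_mp (Λ : Finset Pl) : MeasurePreserving (rs (l := l) Λ) (Pw μ) (muL μ Λ) := by
  have h1 : MeasurePreserving (fun (w : Lk l → SU N) (j : Λ × (Tor l × Fin 4)) =>
      w ((j.1 : Pl), j.2)) (Pw μ) (Measure.infinitePi fun _ => μ) :=
    mp_reindex μ (fun j : Λ × (Tor l × Fin 4) => ((j.1 : Pl), j.2)) (fun a b hab => by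
      have h1 := congrArg Prod.fst hab
      have h2 := congrArg Prod.snd hab
      exact Prod.ext (Subtype.ext h1) h2) (fun _ => id) fun _ => MeasurePreserving.id μ
  have h2 : MeasurePreserving (MeasurableEquiv.curry Λ (Tor l × Fin 4) (SU N))
      (Measure.infinitePi fun _ => μ) (muL (l := l) μ Λ) := by
    refine ⟨(MeasurableEquiv.curry Λ (Tor l × Fin 4) (SU N)).measurable, ?_⟩
    have h3 := Measure.infinitePi_map_curry (ι := Λ) (κ := Tor l × Fin 4) fun _ _ => μ
    rw [h3, Measure.infinitePi_eq_pi]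
    unfold muL
    congr 1
    funext _
    rw [Measure.infinitePi_eq_pi]
  exact h2.comp h1

lemma ext_meas (Λ : Finset Pl) : Measurable (ext Λ : (Λ → Fib N l) → Pl → Fib N l) := by
  refine measurable_pi_lambda _ fun X => ?_
  unfold ext
  by_cases h : X ∈ Λ
  · simp only [h, dite_true]
    exact measurable_pi_apply _
  · simp only [h, dite_false]
    exact measurable_const

lemma ext_rs (Λ : Finset Pl) (w : Lk l → SU N) {X : Pl} (hX : X ∈ Λ) :
    ext Λ (rs Λ w) X = cf w X := by
  unfold ext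
  rw [dif_pos hX]
  rfl

/-- local functions -/
lemma int_loc {Λ : Finset Pl} {f : (Pl → Fib N l) → ℝ} (hf : Measurable f) (hD : DepOn f Λ) :
    ∫ u, f (ext Λ u) ∂(muL μ Λ) = ∫ w, f (cf w) ∂(Pw (l := l) μ) := by
  rw [← (rs_mp (l := l) μ Λ).map_eq, integral_map (rs_mp (l := l) μ Λ).aemeasurable]
  · refine integral_congr_ae (Filter.Eventually.of_forall fun w => ?_)
    exact hD _ _ fun X p hX _ => by rw [ext_rs Λ w hX]
  · exact (hf.comp (ext_meas Λ)).aestronglyMeasurable

/-! ### the weights -/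

lemma pe_cont (z : ℂ) (X : Pl) (y : Tor l) (i j : Fin 4) :
    Continuous fun U : Pl → Fib N l => pe z U X y i j := by
  unfold pe
  refine continuous_const.sub (Complex.continuous_re.comp (continuous_const.mul ?_))
  have h1 : Continuous fun U : Pl → Fib N l => plaq U X y i j := by
    unfold plaq
    fun_prop
  have h2 : Continuous fun U : Pl → Fib N l => mt (plaq U X y i j) := mt_cont.comp h1
  exact h2.matrix_trace

lemma trace_le (A : SU N) : ‖trace (mt A)‖ ≤ N := by
  unfold Matrix.trace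
  refine (norm_sum_le _ _).trans ?_
  calc ∑ i, ‖Matrix.diag (mt A) i‖ ≤ ∑ _i : Fin N, (1 : ℝ) := by
        refine Finset.sum_le_sum fun i _ => ?_
        exact entry_norm_bound_of_unitary (A : Matrix.unitaryGroup (Fin N) ℂ).2 i i
    _ = N := by simp

lemma pe_bdd (z : ℂ) (U : Pl → Fib N l) (X : Pl) (y : Tor l) (i j : Fin 4) :
    |pe z U X y i j| ≤ N + (1 + ‖z‖) * N := by
  have h1 : ‖tw z y i j‖ ≤ 1 + ‖z‖ := by
    unfold tw
    split_ifs
    · linarith
    · rw [norm_one]; linarith [norm_nonneg z]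
  have h2 : |(star (tw z y i j) * trace (mt (plaq U X y i j))).re| ≤ (1 + ‖z‖) * N := by
    refine (Complex.abs_re_le_norm _).trans ?_
    rw [norm_mul, norm_star]
    exact mul_le_mul h1 (trace_le _) (norm_nonneg _) (by positivity)
  have h3 : pe z U X y i j = N - (star (tw z y i j) * trace (mt (plaq U X y i j))).re := rfl
  rw [h3]
  refine (abs_sub _ _).trans ?_
  have h4 : |(N : ℝ)| = N := abs_of_nonneg (Nat.cast_nonneg N)
  rw [h4]
  linarith

/-- the weighted action -/
def wact (z : ℂ) (Λ : Finset Pl) (s : Pl → Fin 4 → ℝ) (U : Pl → Fib N l) : ℝ :=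
  ∑ X ∈ Λ, ∑ y : Tor l, ∑ i : Fin 4, ∑ j : Fin 4,
    if i < j ∧ X + eP i ∈ Λ ∧ X + eP j ∈ Λ ∧ X + eP i + eP j ∈ Λ then s X i * pe z U X y i j else 0

lemma action_wact (z : ℂ) (Λ : Finset Pl) (U : Pl → Fib N l) :
    action z Λ U = wact z Λ (fun _ _ => 1) U := by
  unfold action wact
  simp only [one_mul]

lemma wact_meas (z : ℂ) (Λ : Finset Pl) (s : Pl → Fin 4 → ℝ) :
    Measurable (wact z Λ s : (Pl → Fib N l) → ℝ) := by
  unfold wact
  refine Finset.measurable_sum _ fun X _ => Finset.measurable_sum _ fun y _ =>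
    Finset.measurable_sum _ fun i _ => Finset.measurable_sum _ fun j _ => ?_
  by_cases hc : i < j ∧ X + eP i ∈ Λ ∧ X + eP j ∈ Λ ∧ X + eP i + eP j ∈ Λ
  · simp only [hc, and_self, if_true]
    exact (pe_cont z X y i j).measurable.const_mul _
  · simp only [hc, if_false]
    exact measurable_const

lemma wact_bdd (z : ℂ) (Λ : Finset Pl) (s : Pl → Fin 4 → ℝ) :
    ∃ M : ℝ, ∀ U : Pl → Fib N l, |wact z Λ s U| ≤ M := by
  refine ⟨∑ X ∈ Λ, ∑ y : Tor l, ∑ i : Fin 4, ∑ j : Fin 4, |s X i| * (N + (1 + ‖z‖) * N),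
    fun U => ?_⟩
  unfold wact
  refine (Finset.abs_sum_le_sum_abs _ _).trans (Finset.sum_le_sum fun X _ => ?_)
  refine (Finset.abs_sum_le_sum_abs _ _).trans (Finset.sum_le_sum fun y _ => ?_)
  refine (Finset.abs_sum_le_sum_abs _ _).trans (Finset.sum_le_sum fun i _ => ?_)
  refine (Finset.abs_sum_le_sum_abs _ _).trans (Finset.sum_le_sum fun j _ => ?_)
  split_ifs
  · rw [abs_mul]
    exact mul_le_mul_of_nonneg_left (pe_bdd z U X y i j) (abs_nonneg _)
  · rw [abs_zero]
    positivity

lemma wact_dep (z : ℂ) (Λ Λ' : Finset Pl) (s : Pl → Fin 4 → ℝ)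
    (h : ∀ X i j, i < j → X ∈ Λ → X + eP i ∈ Λ → X + eP j ∈ Λ → X + eP i + eP j ∈ Λ →
      s X i ≠ 0 → X ∈ Λ' ∧ X + eP i ∈ Λ' ∧ X + eP j ∈ Λ' ∧ X + eP i + eP j ∈ Λ') :
    DepOn (wact z Λ s : (Pl → Fib N l) → ℝ) Λ' := by
  intro U U' hU
  unfold wact
  refine Finset.sum_congr rfl fun X hX => Finset.sum_congr rfl fun y _ =>
    Finset.sum_congr rfl fun i _ => Finset.sum_congr rfl fun j _ => ?_
  by_cases hc : i < j ∧ X + eP i ∈ Λ ∧ X + eP j ∈ Λ ∧ X + eP i + eP j ∈ Λ
  · rw [if_pos hc, if_pos hc]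
    by_cases hs : s X i = 0
    · rw [hs, zero_mul, zero_mul]
    obtain ⟨hij, h1, h2, h3⟩ := hc
    obtain ⟨g0, g1, g2, g3⟩ := h X i j hij hX h1 h2 h3 hs
    have g3' : X + eP j + eP i ∈ Λ' := by
      have : X + eP j + eP i = X + eP i + eP j := by abel
      rw [this]; exact g3
    have e : plaq U X y i j = plaq U' X y i j := by
      unfold plaq
      rw [hU X (y, i) g0 g1, hU (X + eP i) (y + eT l i, j) g1 g3,
        hU (X + eP j) (y + eT l j, i) g2 g3', hU X (y, j) g0 g2]
    unfold pe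
    rw [e]
  · rw [if_neg hc, if_neg hc]

/-- The expectation through the infinite product measure. -/
lemma expect_eq (z : ℂ) (β : ℝ) {Λ : Finset Pl} {F : (Pl → Fib N l) → ℝ} (hF : Measurable F)
    (hD : DepOn F Λ) :
    expect μ z β Λ F = (∫ w, F (cf w) * Real.exp (-(β * action z Λ (cf w))) ∂(Pw (l := l) μ)) /
      ∫ w, Real.exp (-(β * action z Λ (cf w))) ∂(Pw (l := l) μ) := by
  have hA : DepOn (action z Λ : (Pl → Fib N l) → ℝ) Λ := action_dep z Λ
  have hm : Measurable (action z Λ : (Pl → Fib N l) → ℝ) := by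
    have : (action z Λ : (Pl → Fib N l) → ℝ) = wact z Λ fun _ _ => 1 :=
      funext fun U => action_wact z Λ U
    rw [this]
    exact wact_meas z Λ _
  unfold expect
  rw [int_loc μ (f := fun U => F U * Real.exp (-(β * action z Λ U)))
      (hF.mul (hm.const_mul β).neg.exp) (fun U U' h => by beta_reduce; rw [hD U U' h, hA U U' h]),
    int_loc μ (f := fun U => Real.exp (-(β * action z Λ U)))
      (hm.const_mul β).neg.exp (fun U U' h => by beta_reduce; rw [hA U U' h])]

end RP

end

end Pool.Agent.N984.TW
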