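import Mathlib
import Pool.Agent.N453.TW.RP2

/-!
# Reflection positivity, part 3: translations and reflections
-/

open MeasureTheory Matrix Filter
open scoped Matrix.Norms.Frobenius Topology ENNReal
open Pool.Agent.H906R3.YM Pool.Agent.W793.YM Pool.Agent.TH618.YM

namespace Pool.Agent.N984.TW

set_option linter.unusedSectionVars false
set_option linter.unusedVariables false

noncomputable section

variable {N l : ℕ} [NeZero N] [NeZero l]

namespace RP

/-- the reflection of the sites where plaquettes and links in direction `i` start -/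
def rho (i : Fin 4) (X : Pl) : Pl := if i = 0 then (-X.1 - 1, X.2) else (-X.1, X.2)

lemma rho_rho (i : Fin 4) (X : Pl) : rho i (rho i X) = X := by
  unfold rho
  split_ifs
  · ext
    · show -(-X.1 - 1) - 1 = X.1
      ring
    · rfl
  · ext
    · show - -X.1 = X.1
      ring
    · rfl

lemma refl_apply (U : Pl → Fib N l) (X : Pl) (p : Tor l × Fin 4) :
    refl U X p = if p.2 = 0 then (U (rho p.2 X) p)⁻¹ else U (rho p.2 X) p := by
  unfold refl rho
  by_cases h : p.2 = 0
  · simp only [h, if_true]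
  · simp only [h, if_false]

lemma refl_refl (U : Pl → Fib N l) : refl (refl U) = U := by
  funext X p
  rw [refl_apply]
  by_cases h : p.2 = 0
  · rw [if_pos h, refl_apply, if_pos h, rho_rho, inv_inv]
  · rw [if_neg h, refl_apply, if_neg h, rho_rho]

/-- the reflected rectangle -/
lemma mem_box (a b X : Pl) : X ∈ Finset.Icc a b ↔
    a.1 ≤ X.1 ∧ a.2 ≤ X.2 ∧ X.1 ≤ b.1 ∧ X.2 ≤ b.2 := by
  rw [Finset.mem_Icc, Prod.le_def, Prod.le_def]
  tauto

lemma mem_rho (a b : Pl) (i j : Fin 4) (hij : i < j) (X : Pl) :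
    (X ∈ Finset.Icc ((-b.1, a.2) : Pl) (-a.1, b.2) ∧
      X + eP i ∈ Finset.Icc ((-b.1, a.2) : Pl) (-a.1, b.2) ∧
      X + eP j ∈ Finset.Icc ((-b.1, a.2) : Pl) (-a.1, b.2) ∧
      X + eP i + eP j ∈ Finset.Icc ((-b.1, a.2) : Pl) (-a.1, b.2)) ↔
    (rho i X ∈ Finset.Icc a b ∧ rho i X + eP i ∈ Finset.Icc a b ∧
      rho i X + eP j ∈ Finset.Icc a b ∧ rho i X + eP i + eP j ∈ Finset.Icc a b) := by
  simp only [mem_box, rho, Prod.fst_add, Prod.snd_add]
  fin_cases i <;> fin_cases j <;>
    first
    | (exfalso; revert hij; decide)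
    | (simp [eP]; try omega)

lemma plaq_refl (U : Pl → Fib N l) (X : Pl) (y : Tor l) (i j : Fin 4) (hi : i ≠ 0) (hj : j ≠ 0) :
    plaq (refl U) X y i j = plaq U (rho i X) y i j := by
  have h1 : ∀ k : Fin 4, k ≠ 0 → ∀ m : Fin 4, m ≠ 0 → rho k (X + eP m) = rho i X + eP m := by
    intro k hk m hm
    unfold rho
    rw [if_neg hk, if_neg hi]
    have hm0 : (eP m).1 = 0 := by fin_cases m <;> first | (exfalso; exact hm rfl) | rfl
    ext
    · show -(X.1 + (eP m).1) = -X.1 + (eP m).1
      rw [hm0]; ring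
    · rfl
  have h2 : ∀ k : Fin 4, k ≠ 0 → rho k X = rho i X := by
    intro k hk
    unfold rho
    rw [if_neg hk, if_neg hi]
  unfold plaq
  rw [refl_apply, refl_apply, refl_apply, refl_apply, if_neg hi, if_neg hj]
  simp only [hi, hj, if_false]
  rw [h1 j hj i hi, h1 i hi j hj, h2 j hj]

lemma plaq_refl0 (U : Pl → Fib N l) (X : Pl) (y : Tor l) (j : Fin 4) (hj : j ≠ 0) :
    plaq (refl U) X y 0 j =
      (U (rho 0 X) (y, 0))⁻¹ * (plaq U (rho 0 X) y 0 j)⁻¹ * U (rho 0 X) (y, 0) := by
  have e0 : (eP 0) = ((1, 0) : Pl) := rfl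
  have hj0 : (eP j).1 = 0 := by fin_cases j <;> first | (exfalso; exact hj rfl) | rfl
  have h1 : rho j (X + eP 0) = rho 0 X := by
    unfold rho
    rw [if_neg hj, if_pos rfl, e0]
    ext
    · show -(X.1 + 1) = -X.1 - 1
      ring
    · show X.2 + 0 = X.2
      ring
  have h2 : rho 0 (X + eP j) = rho 0 X + eP j := by
    unfold rho
    rw [if_pos rfl, if_pos rfl]
    ext
    · show -(X.1 + (eP j).1) - 1 = -X.1 - 1 + (eP j).1
      rw [hj0]; ring
    · rfl
  have h3 : rho j X = rho 0 X + eP 0 := by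
    unfold rho
    rw [if_neg hj, if_pos rfl, e0]
    ext
    · show -X.1 = -X.1 - 1 + 1
      ring
    · show X.2 = X.2 + 0
      ring
  have e1 : eT l 0 = 0 := rfl
  unfold plaq
  rw [refl_apply, refl_apply, refl_apply, refl_apply]
  simp only [hj, if_false, if_true]
  rw [h1, h2, h3, e1, add_zero]
  group

lemma trace_inv_re (A : SU N) : (trace (mt A⁻¹)).re = (trace (mt A)).re := by
  have h1 : mt A⁻¹ = (mt A)ᴴ := by
    rfl
  rw [h1, Matrix.trace_conjTranspose]
  exact Complex.conj_re _

lemma pe_refl (z : ℂ) (U : Pl → Fib N l) (X : Pl) (y : Tor l) (i j : Fin 4) (hij : i < j) :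
    pe z (refl U) X y i j = pe z U (rho i X) y i j := by
  have hj : j ≠ 0 := by
    rintro rfl
    exact absurd hij (by simp)
  by_cases hi : i = 0
  · subst hi
    have ht : tw z y 0 j = 1 := by
      unfold tw
      rw [if_neg]
      rintro ⟨h, -⟩
      exact absurd h (by decide)
    show (N : ℝ) - (star (tw z y 0 j) * trace (mt (plaq (refl U) X y 0 j))).re =
      (N : ℝ) - (star (tw z y 0 j) * trace (mt (plaq U (rho 0 X) y 0 j))).re
    rw [ht, star_one, one_mul, one_mul]
    have h1 : trace (mt (plaq (refl U) X y 0 j)) = trace (mt (plaq U (rho 0 X) y 0 j)⁻¹) := by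
      rw [plaq_refl0 U X y j hj]
      have := trace_conj (U (rho 0 X) (y, 0))⁻¹ (plaq U (rho 0 X) y 0 j)⁻¹
      rw [inv_inv] at this
      exact this
    rw [h1, trace_inv_re]
  · show (N : ℝ) - (star (tw z y i j) * trace (mt (plaq (refl U) X y i j))).re =
      (N : ℝ) - (star (tw z y i j) * trace (mt (plaq U (rho i X) y i j))).re
    rw [plaq_refl U X y i j hi hj]

/-- the reflection of the weighted action -/
theorem wact_refl (z : ℂ) (a b : Pl) (s : Pl → Fin 4 → ℝ) (U : Pl → Fib N l) :
    wact z (Finset.Icc ((-b.1, a.2) : Pl) (-a.1, b.2)) s (refl U) =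
      wact z (Finset.Icc a b) (fun X i => s (rho i X) i) U := by
  have hsw : ∀ (Λ : Finset Pl) (g : Pl → Tor l → Fin 4 → Fin 4 → ℝ),
      ∑ X ∈ Λ, ∑ y : Tor l, ∑ i : Fin 4, ∑ j : Fin 4, g X y i j =
      ∑ y : Tor l, ∑ i : Fin 4, ∑ j : Fin 4, ∑ X ∈ Λ, g X y i j := by
    intro Λ g
    rw [Finset.sum_comm]
    refine Finset.sum_congr rfl fun y _ => ?_
    rw [Finset.sum_comm]
    refine Finset.sum_congr rfl fun i _ => ?_
    rw [Finset.sum_comm]
  unfold wact
  rw [hsw, hsw]
  refine Finset.sum_congr rfl fun y _ => Finset.sum_congr rfl fun i _ =>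
    Finset.sum_congr rfl fun j _ => ?_
  by_cases hij : i < j
  swap
  · rw [Finset.sum_eq_zero, Finset.sum_eq_zero]
    · intro X _
      rw [if_neg]
      exact fun h => hij h.1
    · intro X _
      rw [if_neg]
      exact fun h => hij h.1
  rw [← Finset.sum_filter, ← Finset.sum_filter]
  refine Finset.sum_nbij' (rho i) (rho i) ?_ ?_ ?_ ?_ ?_
  · intro X hX
    rw [Finset.mem_filter] at hX ⊢
    obtain ⟨h0, h1, h2, h3, h4⟩ := hX
    have := (mem_rho a b i j hij X).1 ⟨h0, h2, h3, h4⟩
    exact ⟨this.1, hij, this.2.1, this.2.2.1, this.2.2.2⟩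
  · intro X hX
    rw [Finset.mem_filter] at hX ⊢
    obtain ⟨h0, h1, h2, h3, h4⟩ := hX
    have := (mem_rho a b i j hij (rho i X)).2 (by rw [rho_rho]; exact ⟨h0, h2, h3, h4⟩)
    exact ⟨this.1, hij, this.2.1, this.2.2.1, this.2.2.2⟩
  · intro X _
    exact rho_rho i X
  · intro X _
    exact rho_rho i X
  · intro X _
    rw [pe_refl z U X y i j hij]
    beta_reduce
    rw [rho_rho]

/-- the translation of the action -/
theorem action_shift (z : ℂ) (a b v : Pl) (U : Pl → Fib N l) :
    action z (Finset.Icc (a - v) (b - v)) (shift v U) = action z (Finset.Icc a b) U := by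
  have hmem : ∀ X : Pl, X ∈ Finset.Icc (a - v) (b - v) ↔ X + v ∈ Finset.Icc a b := by
    intro X
    rw [Finset.mem_Icc, Finset.mem_Icc, sub_le_iff_le_add, le_sub_iff_add_le]
  unfold action
  refine Finset.sum_nbij' (fun X => X + v) (fun X => X - v) ?_ ?_ ?_ ?_ ?_
  · intro X hX
    exact (hmem X).1 hX
  · intro X hX
    rw [hmem, sub_add_cancel]
    exact hX
  · intro X _
    exact add_sub_cancel_right X v
  · intro X _
    exact sub_add_cancel X v
  · intro X _
    refine Finset.sum_congr rfl fun y _ => Finset.sum_congr rfl fun i _ =>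
      Finset.sum_congr rfl fun j _ => ?_
    have e1 : X + eP i + v = X + v + eP i := by abel
    have e2 : X + eP j + v = X + v + eP j := by abel
    have e3 : X + eP i + eP j + v = X + v + eP i + eP j := by abel
    simp only [hmem, e1, e2, e3]
    have e4 : pe z (shift v U) X y i j = pe z U (X + v) y i j := by
      unfold pe plaq shift
      simp only [e1, e2]
    rw [e4]

variable [MeasurableSpace (SU N)] [BorelSpace (SU N)] (μ : Measure (SU N))
  [IsProbabilityMeasure μ] [μ.IsMulLeftInvariant] [μ.IsMulRightInvariant]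

/-- translation of the links -/
def shw (v : Pl) (w : Lk l → SU N) : Lk l → SU N := fun j => w (j.1 + v, j.2)

lemma shw_mp (v : Pl) : MeasurePreserving (shw (l := l) v) (Pw μ) (Pw μ) :=
  mp_reindex μ (fun j : Lk l => (j.1 + v, j.2)) (fun a b hab => by
    have h1 := congrArg Prod.fst hab
    have h2 := congrArg Prod.snd hab
    exact Prod.ext (add_right_cancel h1) h2) (fun _ => id) fun _ => MeasurePreserving.id μ

lemma cf_shw (v : Pl) (w : Lk l → SU N) : cf (shw v w) = shift v (cf w) := rfl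

/-- reflection of the links -/
def rfw (w : Lk l → SU N) : Lk l → SU N := fun j =>
  (if j.2.2 = 0 then (fun x : SU N => x⁻¹) else id) (w (rho j.2.2 j.1, j.2))

lemma rho_inj (i : Fin 4) : Function.Injective (rho i) := fun a b h => by
  rw [← rho_rho i a, h, rho_rho]

lemma rfw_mp : MeasurePreserving (rfw (l := l)) (Pw μ) (Pw μ) :=
  mp_reindex μ (fun j : Lk l => (rho j.2.2 j.1, j.2)) (fun a b hab => by
    have hab' : (rho a.2.2 a.1, a.2) = (rho b.2.2 b.1, b.2) := hab
    have h3 : rho a.2.2 a.1 = rho b.2.2 b.1 := (Prod.mk.inj hab').1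
    have h2 : a.2 = b.2 := (Prod.mk.inj hab').2
    rw [h2] at h3
    exact Prod.ext (rho_inj _ h3) h2)
    (fun j => if j.2.2 = 0 then (fun x : SU N => x⁻¹) else id) fun j => by
      split_ifs
      · exact inv_mp μ
      · exact MeasurePreserving.id μ

lemma cf_rfw (w : Lk l → SU N) : cf (rfw w) = refl (cf w) := by
  funext X p
  rw [refl_apply]
  show (if p.2 = 0 then (fun x : SU N => x⁻¹) else id) (w (rho p.2 X, p)) = _
  by_cases h : p.2 = 0
  · rw [if_pos h, if_pos h]; rfl
  · rw [if_neg h, if_neg h]; rfl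

end RP

open RP

variable [MeasurableSpace (SU N)] [BorelSpace (SU N)] (μ : Measure (SU N))
  [IsProbabilityMeasure μ] [μ.IsMulLeftInvariant] [μ.IsMulRightInvariant]

lemma RP.action_meas (z : ℂ) (Λ : Finset Pl) : Measurable (action z Λ : (Pl → Fib N l) → ℝ) := by
  have : (action z Λ : (Pl → Fib N l) → ℝ) = wact z Λ fun _ _ => 1 :=
    funext fun U => action_wact z Λ U
  rw [this]
  exact wact_meas z Λ _

lemma RP.shift_meas (v : Pl) : Measurable (shift v : (Pl → Fib N l) → Pl → Fib N l) :=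
  measurable_pi_lambda _ fun X => measurable_pi_apply _

lemma RP.refl_meas : Measurable (refl : (Pl → Fib N l) → Pl → Fib N l) := by
  refine measurable_pi_lambda _ fun X => measurable_pi_lambda _ fun p => ?_
  have hc : ∀ Y : Pl, Measurable fun U : Pl → Fib N l => U Y p := fun Y =>
    (measurable_pi_apply p).comp (measurable_pi_apply Y)
  unfold refl
  by_cases h : p.2 = 0
  · simp only [h, if_true]
    exact (hc _).inv
  · simp only [h, if_false]
    exact hc _

lemma RP.int_mp {T : (Lk l → SU N) → Lk l → SU N} (hT : MeasurePreserving T (Pw μ) (Pw μ))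
    {g : (Pl → Fib N l) → ℝ} (hg : Measurable g) :
    ∫ w, g (cf w) ∂(Pw (l := l) μ) = ∫ w, g (cf (T w)) ∂(Pw (l := l) μ) := by
  conv_lhs => rw [← hT.map_eq]
  exact integral_map hT.aemeasurable (f := fun w => g (cf w))
    (hg.comp cf_meas).aestronglyMeasurable

theorem expect_shift (z : ℂ) (β : ℝ) (a b v : Pl) (F : (Pl → Fib N l) → ℝ) (hF : Measurable F)
    (hdep : DepOn F (Finset.Icc (a - v) (b - v))) :
    expect μ z β (Finset.Icc a b) (fun U => F (shift v U)) =
      expect μ z β (Finset.Icc (a - v) (b - v)) F := by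
  have hmem : ∀ X : Pl, X ∈ Finset.Icc (a - v) (b - v) ↔ X + v ∈ Finset.Icc a b := by
    intro X
    rw [Finset.mem_Icc, Finset.mem_Icc, sub_le_iff_le_add, le_sub_iff_add_le]
  have hD : DepOn (fun U => F (shift v U)) (Finset.Icc a b) := by
    intro U U' h
    refine hdep _ _ fun X p h1 h2 => ?_
    rw [hmem] at h1 h2
    refine h (X + v) p h1 ?_
    have e : X + eP p.2 + v = X + v + eP p.2 := by abel
    rw [← e]; exact h2
  rw [expect_eq μ z β (F := fun U => F (shift v U)) (hF.comp (shift_meas v)) hD,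
    expect_eq μ z β hF hdep]
  rw [int_mp μ (shw_mp (l := l) μ v)
      (g := fun U => F U * Real.exp (-(β * action z (Finset.Icc (a - v) (b - v)) U)))
      (hF.mul ((action_meas z _).const_mul β).neg.exp),
    int_mp μ (shw_mp (l := l) μ v)
      (g := fun U => Real.exp (-(β * action z (Finset.Icc (a - v) (b - v)) U)))
      ((action_meas z _).const_mul β).neg.exp]
  simp only [cf_shw, action_shift]

lemma RP.action_refl (z : ℂ) (a b : Pl) (U : Pl → Fib N l) :
    action z (Finset.Icc ((-b.1, a.2) : Pl) (-a.1, b.2)) (refl U) =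
      action z (Finset.Icc a b) U := by
  rw [action_wact, action_wact, wact_refl]

lemma RP.dep_refl {α : Type*} {F : (Pl → Fib N l) → α} {a b : Pl}
    (hdep : DepOn F (Finset.Icc ((-b.1, a.2) : Pl) (-a.1, b.2))) :
    DepOn (fun U => F (refl U)) (Finset.Icc a b) := by
  intro U U' h
  refine hdep _ _ fun X p h1 h2 => ?_
  rw [refl_apply, refl_apply]
  have key : U (rho p.2 X) p = U' (rho p.2 X) p := by
    rw [mem_box] at h1 h2
    simp only [Prod.fst_add, Prod.snd_add] at h1 h2
    refine h _ p ?_ ?_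
    · rw [mem_box]
      unfold rho
      obtain ⟨y, i⟩ := p
      revert h1 h2
      fin_cases i <;> simp [eP] <;> omega
    · rw [mem_box]
      unfold rho
      obtain ⟨y, i⟩ := p
      revert h1 h2
      fin_cases i <;> simp [eP] <;> omega
  rw [key]

theorem expect_refl (z : ℂ) (β : ℝ) (a b : Pl) (F : (Pl → Fib N l) → ℝ) (hF : Measurable F)
    (hdep : DepOn F (Finset.Icc (-b.1, a.2) (-a.1, b.2))) :
    expect μ z β (Finset.Icc a b) (fun U => F (refl U)) =
      expect μ z β (Finset.Icc (-b.1, a.2) (-a.1, b.2)) F := by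
  rw [expect_eq μ z β (F := fun U => F (refl U)) (hF.comp refl_meas) (dep_refl hdep),
    expect_eq μ z β hF hdep]
  rw [int_mp μ (rfw_mp (l := l) μ)
      (g := fun U => F U * Real.exp (-(β * action z (Finset.Icc (-b.1, a.2) (-a.1, b.2)) U)))
      (hF.mul ((action_meas z _).const_mul β).neg.exp),
    int_mp μ (rfw_mp (l := l) μ)
      (g := fun U => Real.exp (-(β * action z (Finset.Icc (-b.1, a.2) (-a.1, b.2)) U)))
      ((action_meas z _).const_mul β).neg.exp]
  simp only [cf_rfw, action_refl]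

end

end Pool.Agent.N984.TW
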