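import Mathlib
import Pool.Agent.N453.TW.RP3

/-!
# Reflection positivity, part 4: reflection positivity in a symmetric rectangle
-/

open MeasureTheory Matrix Filter
open scoped Matrix.Norms.Frobenius Topology ENNReal
open Pool.Agent.H906R3.YM Pool.Agent.W793.YM Pool.Agent.TH618.YM

namespace Pool.Agent.N984.TW

set_option linter.unusedSectionVars false
set_option linter.unusedVariables false

noncomputable section

variable {N l : ℕ} [NeZero N] [NeZero l]

lemma RP.dep_mono {α : Type*} {F : (Pl → Fib N l) → α} {D D' : Finset Pl} (h : DepOn F D)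
    (hD : D ⊆ D') : DepOn F D' := fun U U' hU =>
  h U U' fun X p h1 h2 => hU X p (hD h1) (hD h2)

namespace RP

/-- the class of a link: `0` in the hyperplane, `1` on the right, `2` on the left -/
def kap (j : Lk l) : Fin 3 :=
  if j.1.1 = 0 ∧ j.2.2 ≠ 0 then 0 else if 0 ≤ j.1.1 then 1 else 2

/-- the link from which the variable comes -/
def tau (j : Lk l) : Lk l := if kap j = 2 then (rho j.2.2 j.1, j.2) else j

/-- inversion or not -/
def ff (j : Lk l) : SU N → SU N :=
  if kap j = 2 ∧ j.2.2 = 0 then (fun x => x⁻¹) else id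

/-- three independent configurations glued together -/
def TT3 (w : (Lk l → SU N) × (Lk l → SU N) × (Lk l → SU N)) : Lk l → SU N := fun j =>
  ff j (if kap j = 0 then w.1 (tau j) else if kap j = 1 then w.2.1 (tau j) else w.2.2 (tau j))

/-- two configurations glued together -/
def MM2 (w₀ w₁ : Lk l → SU N) : Lk l → SU N := fun j =>
  if j.1.1 = 0 ∧ j.2.2 ≠ 0 then w₀ j else w₁ j

lemma kap_two {j : Lk l} : kap j = 2 ↔ j.1.1 < 0 := by
  unfold kap
  split_ifs with h1 h2
  · simp only [Fin.reduceEq, false_iff]; omega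
  · simp only [Fin.reduceEq, false_iff]; omega
  · simp only [true_iff]; omega

variable [MeasurableSpace (SU N)] [BorelSpace (SU N)] (μ : Measure (SU N))
  [IsProbabilityMeasure μ] [μ.IsMulLeftInvariant] [μ.IsMulRightInvariant]

lemma TT3_mp : MeasurePreserving (TT3 (N := N) (l := l))
    ((Pw μ).prod ((Pw μ).prod (Pw μ))) (Pw μ) := by
  refine mp_three μ tau kap (fun j j' h1 h2 => ?_) ff fun j => ?_
  · unfold tau at h2
    rw [← h1] at h2
    by_cases h3 : kap j = 2
    · rw [if_pos h3, if_pos h3] at h2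
      obtain ⟨h4, h5⟩ := Prod.mk.inj h2
      rw [h5] at h4
      exact Prod.ext (rho_inj _ h4) h5
    · rw [if_neg h3, if_neg h3] at h2
      exact h2
  · unfold ff
    split_ifs
    · exact inv_mp μ
    · exact MeasurePreserving.id μ

lemma right_cf {L : ℕ} {c d : ℤ} {G : (Pl → Fib N l) → ℝ}
    (hdep : DepOn G (Finset.Icc (0, c) ((L : ℤ), d)))
    (w : (Lk l → SU N) × (Lk l → SU N) × (Lk l → SU N)) :
    G (cf (TT3 w)) = G (cf (MM2 w.1 w.2.1)) := by
  refine hdep _ _ fun X p hX _ => ?_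
  rw [mem_box] at hX
  have h0 : 0 ≤ X.1 := hX.1
  have hk : ¬ kap ((X, p) : Lk l) = 2 := by
    rw [kap_two]
    show ¬ X.1 < 0
    omega
  show TT3 w (X, p) = MM2 w.1 w.2.1 (X, p)
  have e1 : tau ((X, p) : Lk l) = (X, p) := by unfold tau; rw [if_neg hk]
  have e2 : ff (N := N) ((X, p) : Lk l) = id := by
    unfold ff
    rw [if_neg fun h => hk h.1]
  unfold TT3 MM2
  rw [e1, e2]
  show (if kap ((X, p) : Lk l) = 0 then w.1 (X, p) else
    if kap ((X, p) : Lk l) = 1 then w.2.1 (X, p) else w.2.2 (X, p)) =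
    if X.1 = 0 ∧ p.2 ≠ 0 then w.1 (X, p) else w.2.1 (X, p)
  by_cases h : X.1 = 0 ∧ p.2 ≠ 0
  · have e3 : kap ((X, p) : Lk l) = 0 := by unfold kap; rw [if_pos h]
    rw [if_pos e3, if_pos h]
  · have e3 : kap ((X, p) : Lk l) = 1 := by unfold kap; rw [if_neg h, if_pos h0]
    rw [if_neg (by rw [e3]; decide), if_pos e3, if_neg h]

lemma left_cf {L : ℕ} {c d : ℤ} {G : (Pl → Fib N l) → ℝ}
    (hdep : DepOn G (Finset.Icc (0, c) ((L : ℤ), d)))
    (w : (Lk l → SU N) × (Lk l → SU N) × (Lk l → SU N)) :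
    G (refl (cf (TT3 w))) = G (cf (MM2 w.1 w.2.2)) := by
  refine hdep _ _ fun X p hX _ => ?_
  rw [mem_box] at hX
  have h0 : 0 ≤ X.1 := hX.1
  rw [refl_apply]
  show (if p.2 = 0 then (TT3 w (rho p.2 X, p))⁻¹ else TT3 w (rho p.2 X, p)) =
    MM2 w.1 w.2.2 (X, p)
  by_cases hp : p.2 = 0
  · rw [if_pos hp]
    have hk : kap ((rho p.2 X, p) : Lk l) = 2 := by
      rw [kap_two]
      show (rho p.2 X).1 < 0
      unfold rho
      rw [if_pos hp]
      show -X.1 - 1 < 0
      omega
    have e1 : tau ((rho p.2 X, p) : Lk l) = (X, p) := by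
      unfold tau
      rw [if_pos hk]
      show (rho p.2 (rho p.2 X), p) = (X, p)
      rw [rho_rho]
    have e2 : ff (N := N) ((rho p.2 X, p) : Lk l) = fun x => x⁻¹ := by
      unfold ff
      rw [if_pos ⟨hk, hp⟩]
    unfold TT3 MM2
    rw [e1, e2, hk, if_neg (by decide), if_neg (by decide), if_neg (fun h => h.2 hp), inv_inv]
  · rw [if_neg hp]
    by_cases hX0 : X.1 = 0
    · have hr : rho p.2 X = X := by
        unfold rho
        rw [if_neg hp]
        ext
        · show -X.1 = X.1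
          omega
        · rfl
      have hk : kap ((X, p) : Lk l) = 0 := by unfold kap; rw [if_pos ⟨hX0, hp⟩]
      have e1 : tau ((X, p) : Lk l) = (X, p) := by
        unfold tau
        rw [if_neg (by rw [hk]; decide)]
      have e2 : ff (N := N) ((X, p) : Lk l) = id := by
        unfold ff
        rw [if_neg (fun h => by rw [hk] at h; exact absurd h.1 (by decide))]
      rw [hr]
      unfold TT3 MM2
      rw [e1, e2, if_pos hk, if_pos ⟨hX0, hp⟩]
      rfl
    · have hk : kap ((rho p.2 X, p) : Lk l) = 2 := by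
        rw [kap_two]
        show (rho p.2 X).1 < 0
        unfold rho
        rw [if_neg hp]
        show -X.1 < 0
        omega
      have e1 : tau ((rho p.2 X, p) : Lk l) = (X, p) := by
        unfold tau
        rw [if_pos hk]
        show (rho p.2 (rho p.2 X), p) = (X, p)
        rw [rho_rho]
      have e2 : ff (N := N) ((rho p.2 X, p) : Lk l) = id := by
        unfold ff
        rw [if_neg fun h => hp h.2]
      unfold TT3 MM2
      rw [e1, e2, hk, if_neg (by decide), if_neg (by decide), if_neg (fun h => hX0 h.1)]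
      rfl

lemma MM2_meas : Measurable fun w : (Lk l → SU N) × (Lk l → SU N) => MM2 w.1 w.2 := by
  refine measurable_pi_lambda _ fun j => ?_
  unfold MM2
  split_ifs
  · exact (measurable_pi_apply j).comp measurable_fst
  · exact (measurable_pi_apply j).comp measurable_snd

/-- positivity for functions of the right half -/
theorem rp_core {L : ℕ} {c d : ℤ} {G : (Pl → Fib N l) → ℝ} (hG : Measurable G)
    (hb : ∃ M : ℝ, ∀ U, |G U| ≤ M) (hdep : DepOn G (Finset.Icc (0, c) ((L : ℤ), d))) :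
    0 ≤ ∫ w, G (refl (cf w)) * G (cf w) ∂(Pw (l := l) μ) := by
  obtain ⟨M, hM⟩ := hb
  have hmeas : Measurable fun w : Lk l → SU N => G (refl (cf w)) * G (cf w) :=
    ((hG.comp refl_meas).comp cf_meas).mul (hG.comp cf_meas)
  have h1 : ∫ w, G (refl (cf w)) * G (cf w) ∂(Pw (l := l) μ) =
      ∫ w, G (cf (MM2 w.1 w.2.1)) * G (cf (MM2 w.1 w.2.2))
        ∂((Pw (l := l) μ).prod ((Pw (l := l) μ).prod (Pw (l := l) μ))) := by
    conv_lhs => rw [← (TT3_mp (l := l) μ).map_eq]
    rw [integral_map (TT3_mp (l := l) μ).aemeasurable hmeas.aestronglyMeasurable]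
    refine integral_congr_ae (Filter.Eventually.of_forall fun w => ?_)
    show G (refl (cf (TT3 w))) * G (cf (TT3 w)) = _
    rw [right_cf hdep, left_cf hdep, mul_comm]
  have hm1 : Measurable fun w : (Lk l → SU N) × (Lk l → SU N) × (Lk l → SU N) =>
      G (cf (MM2 w.1 w.2.1)) * G (cf (MM2 w.1 w.2.2)) := by
    refine Measurable.mul ?_ ?_
    · exact hG.comp (cf_meas.comp (MM2_meas.comp
        (measurable_fst.prodMk (measurable_fst.comp measurable_snd))))
    · exact hG.comp (cf_meas.comp (MM2_meas.comp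
        (measurable_fst.prodMk (measurable_snd.comp measurable_snd))))
  have hint : Integrable (fun w : (Lk l → SU N) × (Lk l → SU N) × (Lk l → SU N) =>
      G (cf (MM2 w.1 w.2.1)) * G (cf (MM2 w.1 w.2.2)))
      ((Pw (l := l) μ).prod ((Pw (l := l) μ).prod (Pw (l := l) μ))) := by
    refine Integrable.of_bound hm1.aestronglyMeasurable (M * M)
      (Filter.Eventually.of_forall fun w => ?_)
    rw [Real.norm_eq_abs, abs_mul]
    exact mul_le_mul (hM _) (hM _) (abs_nonneg _) ((abs_nonneg _).trans (hM (cf (MM2 w.1 w.2.1))))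
  rw [h1, integral_prod _ hint]
  refine integral_nonneg fun w₀ => ?_
  show 0 ≤ ∫ y : (Lk l → SU N) × (Lk l → SU N), G (cf (MM2 w₀ y.1)) * G (cf (MM2 w₀ y.2))
    ∂((Pw (l := l) μ).prod (Pw (l := l) μ))
  rw [integral_prod_mul (fun y => G (cf (MM2 w₀ y))) fun y => G (cf (MM2 w₀ y))]
  exact mul_self_nonneg _

/-- the weights of the right half -/
def sR (X : Pl) (i : Fin 4) : ℝ :=
  if i = 0 then (if 0 ≤ X.1 then 1 else 0) else if 0 < X.1 then 1 else if X.1 = 0 then 1 / 2 else 0

lemma sR_add (X : Pl) (i : Fin 4) : sR X i + sR (rho i X) i = 1 := by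
  unfold sR rho
  by_cases hi : i = 0
  · simp only [hi, if_true]
    by_cases h : 0 ≤ X.1
    · rw [if_pos h, if_neg (by show ¬ 0 ≤ -X.1 - 1; omega)]; norm_num
    · rw [if_neg h, if_pos (by show 0 ≤ -X.1 - 1; omega)]; norm_num
  · simp only [hi, if_false]
    rcases lt_trichotomy X.1 0 with h | h | h
    · rw [if_neg (by omega), if_neg (by omega), if_pos (by show 0 < -X.1; omega)]; norm_num
    · rw [if_neg (by omega), if_pos h, if_neg (by show ¬ 0 < -X.1; omega),
        if_pos (by show -X.1 = 0; omega)]; norm_num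
    · rw [if_pos h, if_neg (by show ¬ 0 < -X.1; omega), if_neg (by show ¬ -X.1 = 0; omega)]
      norm_num

lemma sR_ne {X : Pl} {i : Fin 4} (h : sR X i ≠ 0) : 0 ≤ X.1 := by
  unfold sR at h
  by_contra h0
  apply h
  split_ifs <;> first | rfl | (exfalso; omega)

lemma wact_add (z : ℂ) (Λ : Finset Pl) (s s' : Pl → Fin 4 → ℝ) (U : Pl → Fib N l) :
    wact z Λ s U + wact z Λ s' U = wact z Λ (fun X i => s X i + s' X i) U := by
  unfold wact
  rw [← Finset.sum_add_distrib]
  refine Finset.sum_congr rfl fun X _ => ?_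
  rw [← Finset.sum_add_distrib]
  refine Finset.sum_congr rfl fun y _ => ?_
  rw [← Finset.sum_add_distrib]
  refine Finset.sum_congr rfl fun i _ => ?_
  rw [← Finset.sum_add_distrib]
  refine Finset.sum_congr rfl fun j _ => ?_
  split_ifs
  · ring
  · ring

lemma action_split (z : ℂ) (L : ℕ) (c d : ℤ) (U : Pl → Fib N l) :
    action z (Finset.Icc (-(L : ℤ), c) ((L : ℤ), d)) U =
      wact z (Finset.Icc (-(L : ℤ), c) ((L : ℤ), d)) sR (refl U) +
        wact z (Finset.Icc (-(L : ℤ), c) ((L : ℤ), d)) sR U := by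
  have h1 := wact_refl z (-(L : ℤ), c) ((L : ℤ), d) sR U
  simp only [neg_neg] at h1
  rw [h1, wact_add, action_wact]
  congr 1
  funext X i
  rw [add_comm, sR_add]

lemma wact_sR_dep (z : ℂ) (L : ℕ) (c d : ℤ) :
    DepOn (wact z (Finset.Icc (-(L : ℤ), c) ((L : ℤ), d)) sR : (Pl → Fib N l) → ℝ)
      (Finset.Icc (0, c) ((L : ℤ), d)) := by
  refine wact_dep z _ _ _ fun X i j hij h0 h1 h2 h3 hs => ?_
  have hX := sR_ne hs
  simp only [mem_box, Prod.fst_add, Prod.snd_add] at h0 h1 h2 h3 ⊢
  fin_cases i <;> fin_cases j <;>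
    first
    | (exfalso; revert hij; decide)
    | (simp [eP] at *; try omega)

end RP

open RP

variable [MeasurableSpace (SU N)] [BorelSpace (SU N)] (μ : Measure (SU N))
  [IsProbabilityMeasure μ] [μ.IsMulLeftInvariant] [μ.IsMulRightInvariant]

/-- reflection positivity in a symmetric rectangle -/
theorem rp_finite (z : ℂ) (β : ℝ) (L : ℕ) (c d : ℤ) (F : (Pl → Fib N l) → ℝ) (hF : Measurable F)
    (hb : ∃ M : ℝ, ∀ U, |F U| ≤ M) (hdep : DepOn F (Finset.Icc (0, c) ((L : ℤ), d))) :
    0 ≤ expect μ z β (Finset.Icc (-(L : ℤ), c) ((L : ℤ), d)) (fun U => F (refl U) * F U) := by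
  have hsub : Finset.Icc ((0 : ℤ), c) ((L : ℤ), d) ⊆ Finset.Icc (-(L : ℤ), c) ((L : ℤ), d) := by
    intro X hX
    rw [mem_box] at hX ⊢
    refine ⟨?_, hX.2⟩
    have := hX.1
    show -(L : ℤ) ≤ X.1
    have : (0 : ℤ) ≤ X.1 := this
    omega
  have hD1 : DepOn F (Finset.Icc (-(L : ℤ), c) ((L : ℤ), d)) := dep_mono hdep hsub
  have hD2 : DepOn (fun U => F (refl U)) (Finset.Icc (-(L : ℤ), c) ((L : ℤ), d)) := by
    refine dep_refl (a := (-(L : ℤ), c)) (b := ((L : ℤ), d)) ?_
    simp only [neg_neg]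
    exact hD1
  rw [expect_eq μ z β (F := fun U => F (refl U) * F U) ((hF.comp refl_meas).mul hF)
    (fun U U' h => by
      show F (refl U) * F U = F (refl U') * F U'
      rw [hD1 U U' h]
      have := hD2 U U' h
      simp only at this
      rw [this])]
  refine div_nonneg ?_ (integral_nonneg fun w => (Real.exp_pos _).le)
  set G : (Pl → Fib N l) → ℝ := fun U =>
    F U * Real.exp (-(β * wact z (Finset.Icc (-(L : ℤ), c) ((L : ℤ), d)) sR U)) with hGdef
  have hGm : Measurable G := hF.mul ((wact_meas z _ _).const_mul β).neg.exp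
  have hGb : ∃ M : ℝ, ∀ U, |G U| ≤ M := by
    obtain ⟨M, hM⟩ := hb
    obtain ⟨K, hK⟩ := wact_bdd (N := N) (l := l) z (Finset.Icc (-(L : ℤ), c) ((L : ℤ), d)) sR
    refine ⟨M * Real.exp (|β| * K), fun U => ?_⟩
    rw [hGdef]
    show |F U * Real.exp (-(β * wact z (Finset.Icc (-(L : ℤ), c) ((L : ℤ), d)) sR U))| ≤ _
    rw [abs_mul, Real.abs_exp]
    refine mul_le_mul (hM U) (Real.exp_le_exp.2 ?_) (Real.exp_pos _).le
      ((abs_nonneg _).trans (hM U))
    refine (neg_le_abs _).trans ?_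
    rw [abs_mul]
    exact mul_le_mul_of_nonneg_left (hK U) (abs_nonneg _)
  have hGd : DepOn G (Finset.Icc (0, c) ((L : ℤ), d)) := fun U U' h => by
    show F U * Real.exp (-(β * wact z (Finset.Icc (-(L : ℤ), c) ((L : ℤ), d)) sR U)) =
      F U' * Real.exp (-(β * wact z (Finset.Icc (-(L : ℤ), c) ((L : ℤ), d)) sR U'))
    rw [hdep U U' h, wact_sR_dep z L c d U U' h]
  have key := rp_core (l := l) μ hGm hGb hGd
  refine key.trans (le_of_eq (integral_congr_ae (Filter.Eventually.of_forall fun w => ?_)))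
  show F (refl (cf w)) * Real.exp (-(β * wact z _ sR (refl (cf w)))) *
      (F (cf w) * Real.exp (-(β * wact z _ sR (cf w)))) =
    F (refl (cf w)) * F (cf w) * Real.exp (-(β * action z _ (cf w)))
  rw [action_split z L c d (cf w), mul_add, neg_add, Real.exp_add]
  ring

end

end Pool.Agent.N984.TW
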