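import Mathlib
import Pool.Agent.N984.TW.Defs

/-!
# The definitions of the observables (see Defs)
-/
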