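import Mathlib
import Pool.Agent.N453.TW.RP4
import Pool.Agent.N453.TW.RPObs

/-!
# Reflection positivity, part 5: the spectral gap of the transfer operator
-/

open MeasureTheory Matrix Filter
open scoped Topology ENNReal

namespace Pool.Agent.N984.TW

set_option linter.unusedSectionVars false
set_option linter.unusedVariables false

noncomputable section

variable {N l : ℕ} [NeZero N] [NeZero l]

namespace RP

/-! ### a lemma on sequences -/

/-- log-convexity and exponential decay give the decay with constant one -/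
lemma seq_decay {A : ℕ → ℝ} {ρ K : ℝ} (hρ : 0 < ρ) (h0 : 0 ≤ A 0)
    (h1 : ∀ n, A n ^ 2 ≤ A 0 * A (2 * n)) (h2 : ∀ n, |A n| ≤ K * ρ ^ n) (n : ℕ) :
    |A n| ≤ ρ ^ n * A 0 := by
  rcases h0.eq_or_lt with h | h
  · have h3 : A n ^ 2 ≤ 0 := by
      have := h1 n
      rw [← h, zero_mul] at this
      exact this
    have h4 : A n = 0 := by
      have := sq_nonneg (A n)
      exact pow_eq_zero_iff (two_ne_zero) |>.1 (le_antisymm h3 this)
    rw [h4, ← h]
    simp
  · set B : ℕ → ℝ := fun n => |A n| / (ρ ^ n * A 0) with hB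
    have hB0 : ∀ n, 0 ≤ B n := fun n => by positivity
    have hB1 : ∀ n, B n ^ 2 ≤ B (2 * n) := by
      intro n
      have e1 : B n ^ 2 = A n ^ 2 / (ρ ^ (2 * n) * A 0 ^ 2) := by
        simp only [hB]
        rw [div_pow, sq_abs, mul_pow, ← pow_mul, mul_comm n 2]
      rw [e1]
      simp only [hB]
      rw [div_le_div_iff₀ (by positivity) (by positivity)]
      have h3 := h1 n
      have h4 : A 0 * A (2 * n) ≤ A 0 * |A (2 * n)| :=
        mul_le_mul_of_nonneg_left (le_abs_self _) h.le
      have h5 : A n ^ 2 ≤ A 0 * |A (2 * n)| := h3.trans h4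
      calc A n ^ 2 * (ρ ^ (2 * n) * A 0) ≤ (A 0 * |A (2 * n)|) * (ρ ^ (2 * n) * A 0) :=
            mul_le_mul_of_nonneg_right h5 (by positivity)
        _ = |A (2 * n)| * (ρ ^ (2 * n) * A 0 ^ 2) := by ring
    have hB2 : ∀ n, B n ≤ K / A 0 := by
      intro n
      simp only [hB]
      rw [div_le_div_iff₀ (by positivity) h]
      calc |A n| * A 0 ≤ (K * ρ ^ n) * A 0 := mul_le_mul_of_nonneg_right (h2 n) h.le
        _ = K * (ρ ^ n * A 0) := by ring
    have hB3 : ∀ k, B n ^ (2 ^ k) ≤ B (2 ^ k * n) := by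
      intro k
      induction k with
      | zero => simp
      | succ k ih =>
        have e1 : B n ^ (2 ^ (k + 1)) = (B n ^ (2 ^ k)) ^ 2 := by
          rw [← pow_mul, pow_succ]
        have e2 : 2 ^ (k + 1) * n = 2 * (2 ^ k * n) := by ring
        rw [e1, e2]
        exact (pow_le_pow_left₀ (pow_nonneg (hB0 n) _) ih 2).trans (hB1 _)
    have hB4 : B n ≤ 1 := by
      by_contra hcon
      push Not at hcon
      have h3 : Tendsto (fun k : ℕ => B n ^ (2 ^ k)) atTop atTop :=
        (tendsto_pow_atTop_atTop_of_one_lt hcon).comp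
          (tendsto_pow_atTop_atTop_of_one_lt (by norm_num : (1 : ℕ) < 2))
      obtain ⟨k, hk⟩ := (h3.eventually (eventually_gt_atTop (K / A 0))).exists
      exact absurd ((hB3 k).trans (hB2 _)) (not_le.2 hk)
    have h5 : |A n| = B n * (ρ ^ n * A 0) := by
      simp only [hB]
      rw [div_mul_cancel₀]
      positivity
    rw [h5]
    calc B n * (ρ ^ n * A 0) ≤ 1 * (ρ ^ n * A 0) :=
          mul_le_mul_of_nonneg_right hB4 (by positivity)
      _ = ρ ^ n * A 0 := one_mul _

/-! ### gauge invariance -/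

lemma gauge_shift {α : Type*} {F : (Pl → Fib N l) → α} (hF : GaugeInv F) (v : Pl) :
    GaugeInv fun U => F (shift v U) := by
  intro h U
  have e : shift v (gt h U) = gt (fun X => h (X + v)) (shift v U) := by
    funext X p
    show h (X + v) p.1 * U (X + v) p * (h (X + v + eP p.2) (p.1 + eT l p.2))⁻¹ =
      h (X + v) p.1 * U (X + v) p * (h (X + eP p.2 + v) (p.1 + eT l p.2))⁻¹
    rw [add_right_comm]
  show F (shift v (gt h U)) = F (shift v U)
  rw [e, hF]

lemma gauge_refl {α : Type*} {F : (Pl → Fib N l) → α} (hF : GaugeInv F) :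
    GaugeInv fun U => F (refl U) := by
  intro h U
  have e : refl (gt h U) = gt (fun X => h (-X.1, X.2)) (refl U) := by
    funext X p
    obtain ⟨y, i⟩ := p
    rw [refl_apply]
    show (if i = 0 then (gt h U (rho i X) (y, i))⁻¹ else gt h U (rho i X) (y, i)) =
      h (-X.1, X.2) y * refl U X (y, i) * (h (-(X + eP i).1, (X + eP i).2) (y + eT l i))⁻¹
    rw [refl_apply]
    show (if i = 0 then (h (rho i X) y * U (rho i X) (y, i) *
        (h (rho i X + eP i) (y + eT l i))⁻¹)⁻¹ else h (rho i X) y * U (rho i X) (y, i) *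
        (h (rho i X + eP i) (y + eT l i))⁻¹) =
      h (-X.1, X.2) y * (if i = 0 then (U (rho i X) (y, i))⁻¹ else U (rho i X) (y, i)) *
        (h (-(X + eP i).1, (X + eP i).2) (y + eT l i))⁻¹
    by_cases hi : i = 0
    · subst hi
      rw [if_pos rfl, if_pos rfl]
      have e1 : rho 0 X + eP 0 = (-X.1, X.2) := by
        unfold rho
        rw [if_pos rfl]
        ext
        · show -X.1 - 1 + 1 = -X.1
          ring
        · show X.2 + 0 = X.2
          ring
      have e2 : ((-(X + eP 0).1, (X + eP 0).2) : Pl) = rho 0 X := by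
        unfold rho
        rw [if_pos rfl]
        ext
        · show -(X.1 + 1) = -X.1 - 1
          ring
        · show X.2 + 0 = X.2
          ring
      have e3 : eT l 0 = 0 := rfl
      rw [e1, e2, e3, add_zero, _root_.mul_inv_rev, _root_.mul_inv_rev, inv_inv, mul_assoc]
    · rw [if_neg hi, if_neg hi]
      have e0 : (eP i).1 = 0 := by fin_cases i <;> first | (exfalso; exact hi rfl) | rfl
      have e1 : rho i X = (-X.1, X.2) := by unfold rho; rw [if_neg hi]
      have e2 : ((-(X + eP i).1, (X + eP i).2) : Pl) = rho i X + eP i := by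
        rw [e1]
        ext
        · show -(X.1 + (eP i).1) = -X.1 + (eP i).1
          rw [e0]; ring
        · rfl
      rw [e2, e1]
  show F (refl (gt h U)) = F (refl U)
  rw [e, hF]

lemma dep_shift {α : Type*} {F : (Pl → Fib N l) → α} {a b : Pl} (v : Pl)
    (hdep : DepOn F (Finset.Icc a b)) :
    DepOn (fun U => F (shift v U)) (Finset.Icc (a + v) (b + v)) := by
  intro U U' h
  refine hdep _ _ fun X p h1 h2 => ?_
  refine h (X + v) p ?_ ?_
  · rw [Finset.mem_Icc] at h1 ⊢
    exact ⟨add_le_add_left h1.1 v, add_le_add_left h1.2 v⟩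
  · have e : X + v + eP p.2 = X + eP p.2 + v := by abel
    rw [Finset.mem_Icc] at h2 ⊢
    rw [e]
    exact ⟨add_le_add_left h2.1 v, add_le_add_left h2.2 v⟩

variable [MeasurableSpace (SU N)] [BorelSpace (SU N)]

lemma Obs_mono {F : (Pl → Fib N l) → ℝ} {a b a' b' : Pl} (h : Obs F a b)
    (hs : Finset.Icc a b ⊆ Finset.Icc a' b') : Obs F a' b' :=
  ⟨h.meas, h.bdd, h.inv, dep_mono h.dep hs⟩

lemma Obs_shift {F : (Pl → Fib N l) → ℝ} {a b : Pl} (h : Obs F a b) (v : Pl) :
    Obs (fun U => F (shift v U)) (a + v) (b + v) :=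
  ⟨h.meas.comp (shift_meas v), fun U => h.bdd _, gauge_shift h.inv v, dep_shift v h.dep⟩

lemma Obs_refl {F : (Pl → Fib N l) → ℝ} {a b : Pl} (h : Obs F a b) :
    Obs (fun U => F (refl U)) (-b.1, a.2) (-a.1, b.2) := by
  refine ⟨h.meas.comp refl_meas, fun U => h.bdd _, gauge_refl h.inv, ?_⟩
  refine dep_refl (a := (-b.1, a.2)) (b := (-a.1, b.2)) ?_
  simp only [neg_neg]
  exact h.dep

lemma Obs_mul {F G : (Pl → Fib N l) → ℝ} {a b : Pl} (hF : Obs F a b) (hG : Obs G a b) :
    Obs (fun U => F U * G U) a b := by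
  refine ⟨hF.meas.mul hG.meas, fun U => ?_, fun h U => ?_, fun U U' h => ?_⟩
  · rw [abs_mul]
    calc |F U| * |G U| ≤ 1 * 1 := mul_le_mul (hF.bdd U) (hG.bdd U) (abs_nonneg _) zero_le_one
      _ = 1 := one_mul 1
  · show F (gt h U) * G (gt h U) = F U * G U
    rw [hF.inv h U, hG.inv h U]
  · show F U * G U = F U' * G U'
    rw [hF.dep U U' h, hG.dep U U' h]

lemma Obs_one (a b : Pl) : Obs (fun _ : Pl → Fib N l => (1 : ℝ)) a b :=
  ⟨measurable_const, fun _ => by rw [abs_one], fun _ _ => rfl, fun _ _ _ => rfl⟩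

variable (μ : Measure (SU N))
  [IsProbabilityMeasure μ] [μ.IsMulLeftInvariant] [μ.IsMulRightInvariant]

/-! ### linearity of the expectation -/

instance muL_prob (Λ : Finset Pl) : IsProbabilityMeasure (muL (l := l) μ Λ) := by
  unfold muL; infer_instance

lemma action_bdd (z : ℂ) (Λ : Finset Pl) : ∃ M : ℝ, ∀ U : Pl → Fib N l, |action z Λ U| ≤ M := by
  obtain ⟨M, hM⟩ := wact_bdd (N := N) (l := l) z Λ fun _ _ => 1
  exact ⟨M, fun U => by rw [action_wact]; exact hM U⟩

lemma weight_int (z : ℂ) (β : ℝ) (Λ : Finset Pl) {F : (Pl → Fib N l) → ℝ} (hF : Measurable F)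
    (hb : ∃ M : ℝ, ∀ U, |F U| ≤ M) :
    Integrable (fun u => F (ext Λ u) * Real.exp (-(β * action z Λ (ext Λ u)))) (muL μ Λ) := by
  obtain ⟨M, hM⟩ := hb
  obtain ⟨K, hK⟩ := action_bdd (N := N) (l := l) z Λ
  refine Integrable.of_bound ((hF.mul ((action_meas z Λ).const_mul β).neg.exp).comp
    (ext_meas Λ)).aestronglyMeasurable (M * Real.exp (|β| * K))
    (Filter.Eventually.of_forall fun u => ?_)
  show ‖F (ext Λ u) * Real.exp (-(β * action z Λ (ext Λ u)))‖ ≤ _
  rw [Real.norm_eq_abs, abs_mul, Real.abs_exp]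
  refine mul_le_mul (hM _) (Real.exp_le_exp.2 ?_) (Real.exp_pos _).le
    ((abs_nonneg _).trans (hM (ext Λ u)))
  refine (neg_le_abs _).trans ?_
  rw [abs_mul]
  exact mul_le_mul_of_nonneg_left (hK _) (abs_nonneg _)

lemma Z_pos (z : ℂ) (β : ℝ) (Λ : Finset Pl) :
    0 < ∫ u : Λ → Fib N l, Real.exp (-(β * action z Λ (ext Λ u))) ∂(muL μ Λ) := by
  obtain ⟨K, hK⟩ := action_bdd (N := N) (l := l) z Λ
  have h1 : Integrable (fun u : Λ → Fib N l => Real.exp (-(β * action z Λ (ext Λ u))))
      (muL μ Λ) := by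
    have := weight_int (N := N) (l := l) μ z β Λ (F := fun _ => 1) measurable_const
      ⟨1, fun _ => by rw [abs_one]⟩
    simpa using this
  have h2 : ∫ _u : Λ → Fib N l, Real.exp (-(|β| * K)) ∂(muL μ Λ) ≤
      ∫ u : Λ → Fib N l, Real.exp (-(β * action z Λ (ext Λ u))) ∂(muL μ Λ) := by
    refine integral_mono (integrable_const _) h1 fun u => ?_
    refine Real.exp_le_exp.2 (neg_le_neg ?_)
    refine (le_abs_self _).trans ?_
    rw [abs_mul]
    exact mul_le_mul_of_nonneg_left (hK _) (abs_nonneg _)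
  rw [integral_const, probReal_univ, one_smul] at h2
  exact lt_of_lt_of_le (Real.exp_pos _) h2

lemma expect_one (z : ℂ) (β : ℝ) (Λ : Finset Pl) :
    expect μ z β Λ (fun _ : Pl → Fib N l => (1 : ℝ)) = 1 := by
  unfold expect
  simp only [one_mul]
  exact div_self (Z_pos μ z β Λ).ne'

lemma expect_sum {ι : Type*} (s : Finset ι) (z : ℂ) (β : ℝ) (Λ : Finset Pl) (c : ι → ℝ)
    (f : ι → (Pl → Fib N l) → ℝ) (hf : ∀ i, Measurable (f i))
    (hb : ∀ i, ∃ M : ℝ, ∀ U, |f i U| ≤ M) :
    expect μ z β Λ (fun U => ∑ i ∈ s, c i * f i U) = ∑ i ∈ s, c i * expect μ z β Λ (f i) := by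
  unfold expect
  have h1 : ∀ u : Λ → Fib N l, (∑ i ∈ s, c i * f i (ext Λ u)) *
      Real.exp (-(β * action z Λ (ext Λ u))) =
      ∑ i ∈ s, c i * (f i (ext Λ u) * Real.exp (-(β * action z Λ (ext Λ u)))) := by
    intro u
    rw [Finset.sum_mul]
    exact Finset.sum_congr rfl fun i _ => by ring
  simp only [h1]
  rw [integral_finsetSum _ fun i _ => (weight_int μ z β Λ (hf i) (hb i)).const_mul (c i),
    Finset.sum_div]
  refine Finset.sum_congr rfl fun i _ => ?_
  rw [integral_const_mul, mul_div_assoc]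

/-! ### limits -/

variable {z : ℂ} {β m C : ℝ} {ω : ((Pl → Fib N l) → ℝ) → ℝ}

/-- the box enlarged by `k` -/
def bx (A B : Pl) (k : ℕ) : Finset Pl :=
  Finset.Icc (A.1 - k, A.2 - k) (B.1 + k, B.2 + k)

lemma bx_far {A B X Y : Pl} {k : ℕ} (hX : X ∈ Finset.Icc A B) (hY : Y ∉ bx A B k) :
    k < dP X Y := by
  unfold bx at hY
  rw [mem_box] at hX hY
  unfold dP
  rw [lt_max_iff]
  simp only at hY
  omega

lemma bx_sub (A B : Pl) (k : ℕ) : Finset.Icc A B ⊆ bx A B k := by
  intro X hX
  unfold bx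
  rw [mem_box] at hX ⊢
  simp only
  omega

lemma lim_box (hm : 0 < m) (hC : 0 ≤ C)
    (h1 : ∀ (a b a₁ b₁ : Pl) (F : (Pl → Fib N l) → ℝ) (R : ℕ), Obs F a₁ b₁ →
        Finset.Icc a₁ b₁ ⊆ Finset.Icc a b →
        (∀ X ∈ Finset.Icc a₁ b₁, ∀ Y ∉ Finset.Icc a b, R < dP X Y) →
        |expect μ z β (Finset.Icc a b) F - ω F| ≤
          C * (Finset.Icc a₁ b₁).card * Real.exp (-(m * R)))
    {F : (Pl → Fib N l) → ℝ} {A B : Pl} (hF : Obs F A B) :
    Tendsto (fun k : ℕ => expect μ z β (bx A B k) F) atTop (𝓝 (ω F)) := by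
  rw [tendsto_iff_norm_sub_tendsto_zero]
  refine squeeze_zero (fun _ => norm_nonneg _) (fun k => ?_)
    (g := fun k : ℕ => C * (Finset.Icc A B).card * Real.exp (-(m * k))) ?_
  · rw [Real.norm_eq_abs]
    exact h1 _ _ A B F k hF (bx_sub A B k) fun X hX Y hY => bx_far hX hY
  · have h2 : Tendsto (fun k : ℕ => Real.exp (-(m * k))) atTop (𝓝 0) := by
      refine Real.tendsto_exp_atBot.comp (tendsto_neg_atTop_atBot.comp ?_)
      exact (tendsto_natCast_atTop_atTop).const_mul_atTop hm
    have h3 := h2.const_mul (C * ((Finset.Icc A B).card : ℝ))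
    rw [mul_zero] at h3
    exact h3

section

variable (hm : 0 < m) (hC : 0 ≤ C)
  (h1 : ∀ (a b a₁ b₁ : Pl) (F : (Pl → Fib N l) → ℝ) (R : ℕ), Obs F a₁ b₁ →
        Finset.Icc a₁ b₁ ⊆ Finset.Icc a b →
        (∀ X ∈ Finset.Icc a₁ b₁, ∀ Y ∉ Finset.Icc a b, R < dP X Y) →
        |expect μ z β (Finset.Icc a b) F - ω F| ≤
          C * (Finset.Icc a₁ b₁).card * Real.exp (-(m * R)))

include hm hC h1

lemma omega_one : ω (fun _ => 1) = 1 := by
  have h2 := lim_box (N := N) (l := l) μ hm hC h1 (Obs_one 0 0)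
  simp only [expect_one] at h2
  exact tendsto_nhds_unique h2 tendsto_const_nhds

lemma omega_shift {F : (Pl → Fib N l) → ℝ} {a b : Pl} (v : Pl) (hF : Obs F a b) :
    ω (fun U => F (shift v U)) = ω F := by
  have h2 := lim_box (N := N) (l := l) μ hm hC h1 (Obs_shift hF v)
  have h3 := lim_box (N := N) (l := l) μ hm hC h1 hF
  refine tendsto_nhds_unique h2 (h3.congr fun k => ?_)
  unfold bx
  rw [expect_shift μ z β _ _ v F hF.meas]
  · congr 2
    · ext
      · show a.1 - k = a.1 + v.1 - k - v.1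
        ring
      · show a.2 - k = a.2 + v.2 - k - v.2
        ring
    · ext
      · show b.1 + k = b.1 + v.1 + k - v.1
        ring
      · show b.2 + k = b.2 + v.2 + k - v.2
        ring
  · refine dep_mono hF.dep fun X hX => ?_
    rw [mem_box] at hX ⊢
    simp only [Prod.fst_add, Prod.snd_add, Prod.fst_sub, Prod.snd_sub]
    omega

lemma omega_refl {F : (Pl → Fib N l) → ℝ} {a b : Pl} (hF : Obs F a b) :
    ω (fun U => F (refl U)) = ω F := by
  have h2 := lim_box (N := N) (l := l) μ hm hC h1 (Obs_refl hF)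
  have h3 := lim_box (N := N) (l := l) μ hm hC h1 hF
  refine tendsto_nhds_unique h2 (h3.congr fun k => ?_)
  unfold bx
  rw [expect_refl μ z β _ _ F hF.meas]
  · congr 2
    · ext
      · show a.1 - k = -(-a.1 + k)
        ring
      · rfl
    · ext
      · show b.1 + k = -(-b.1 - k)
        ring
      · rfl
  · refine dep_mono hF.dep fun X hX => ?_
    rw [mem_box] at hX ⊢
    simp only
    omega

/-- positivity of the form `ω (θF · G)` on the right half -/
lemma omega_psd {ι : Type*} [Fintype ι] (c₀ d₀ : ℤ) (K : ℕ) (f : ι → (Pl → Fib N l) → ℝ)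
    (hf : ∀ i, Obs (f i) (0, c₀) ((K : ℤ), d₀)) (t : ι → ℝ) :
    0 ≤ ∑ q : ι × ι, t q.1 * t q.2 * ω (fun U => f q.1 (refl U) * f q.2 U) := by
  have hobs : ∀ q : ι × ι, Obs (fun U => f q.1 (refl U) * f q.2 U)
      (-(K : ℤ), c₀) ((K : ℤ), d₀) := by
    intro q
    refine Obs_mul (Obs_mono (Obs_refl (hf q.1)) fun X hX => ?_)
      (Obs_mono (hf q.2) fun X hX => ?_)
    · rw [mem_box] at hX ⊢
      simp only at hX ⊢
      omega
    · rw [mem_box] at hX ⊢
      simp only at hX ⊢
      omega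
  have h2 : Tendsto (fun k : ℕ => ∑ q : ι × ι, t q.1 * t q.2 *
      expect μ z β (bx (-(K : ℤ), c₀) ((K : ℤ), d₀) k) (fun U => f q.1 (refl U) * f q.2 U))
      atTop (𝓝 (∑ q : ι × ι, t q.1 * t q.2 * ω (fun U => f q.1 (refl U) * f q.2 U))) :=
    tendsto_finsetSum _ fun q _ => (lim_box (N := N) (l := l) μ hm hC h1 (hobs q)).const_mul _
  refine ge_of_tendsto' h2 fun k => ?_
  rw [← expect_sum μ Finset.univ z β _ (fun q : ι × ι => t q.1 * t q.2)
    (fun q U => f q.1 (refl U) * f q.2 U) (fun q => (hobs q).meas)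
    (fun q => ⟨1, (hobs q).bdd⟩)]
  have h3 : (fun U : Pl → Fib N l => ∑ q : ι × ι, t q.1 * t q.2 * (f q.1 (refl U) * f q.2 U)) =
      fun U => (∑ i, t i * f i (refl U)) * ∑ i, t i * f i U := by
    funext U
    rw [Finset.sum_mul_sum, Fintype.sum_prod_type]
    refine Finset.sum_congr rfl fun i _ => Finset.sum_congr rfl fun j _ => by ring
  rw [h3]
  have h4 := rp_finite (l := l) μ z β (K + k) (c₀ - k) (d₀ + k)
    (fun U => ∑ i, t i * f i U)
    (Finset.measurable_sum _ fun i _ => (hf i).meas.const_mul _)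
    ⟨∑ i, |t i|, fun U => by
      refine (Finset.abs_sum_le_sum_abs _ _).trans (Finset.sum_le_sum fun i _ => ?_)
      rw [abs_mul]
      calc |t i| * |f i U| ≤ |t i| * 1 :=
            mul_le_mul_of_nonneg_left ((hf i).bdd U) (abs_nonneg _)
        _ = |t i| := mul_one _⟩
    (fun U U' h => by
      refine Finset.sum_congr rfl fun i _ => ?_
      have h5 : DepOn (f i) (Finset.Icc (0, c₀ - k) (((K + k : ℕ) : ℤ), d₀ + k)) :=
        dep_mono (hf i).dep fun X hX => by
          rw [mem_box] at hX ⊢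
          simp only at hX ⊢
          push_cast
          omega
      rw [h5 U U' h])
  have h6 : bx (-(K : ℤ), c₀) ((K : ℤ), d₀) k =
      Finset.Icc (-((K + k : ℕ) : ℤ), c₀ - k) (((K + k : ℕ) : ℤ), d₀ + k) := by
    unfold bx
    congr 2
    push_cast
    ring
  rw [h6]
  exact h4

end

end RP

open RP

variable [MeasurableSpace (SU N)] [BorelSpace (SU N)] (μ : Measure (SU N))
  [IsProbabilityMeasure μ] [μ.IsMulLeftInvariant] [μ.IsMulRightInvariant]

/-- **The spectral gap of the transfer operator.** -/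
theorem gap_of_clustering {z : ℂ} {β m C : ℝ} (hm : 0 < m) (hC : 0 ≤ C)
    (ω : ((Pl → Fib N l) → ℝ) → ℝ)
    (h1 : ∀ (a b a₁ b₁ : Pl) (F : (Pl → Fib N l) → ℝ) (R : ℕ), Obs F a₁ b₁ →
        Finset.Icc a₁ b₁ ⊆ Finset.Icc a b →
        (∀ X ∈ Finset.Icc a₁ b₁, ∀ Y ∉ Finset.Icc a b, R < dP X Y) →
        |expect μ z β (Finset.Icc a b) F - ω F| ≤
          C * (Finset.Icc a₁ b₁).card * Real.exp (-(m * R)))
    (h2 : ∀ (a₁ b₁ a₂ b₂ : Pl) (F₁ F₂ : (Pl → Fib N l) → ℝ) (R : ℕ), Obs F₁ a₁ b₁ →
        Obs F₂ a₂ b₂ → (∀ X ∈ Finset.Icc a₁ b₁, ∀ Y ∈ Finset.Icc a₂ b₂, R < dP X Y) →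
        |ω (fun U => F₁ U * F₂ U) - ω F₁ * ω F₂| ≤
          C * (Finset.Icc a₁ b₁).card * Real.exp (-(m * R))) :
    (∀ (F : (Pl → Fib N l) → ℝ) (a b v : Pl), Obs F a b → ω (fun U => F (shift v U)) = ω F) ∧
    (∀ (F : (Pl → Fib N l) → ℝ) (a b : Pl), Obs F a b → ω (fun U => F (refl U)) = ω F) ∧
    (∀ (F : (Pl → Fib N l) → ℝ) (a b : Pl), Obs F a b → 0 ≤ a.1 →
      0 ≤ ω (fun U => F (refl U) * F U)) ∧
    (∀ (F : (Pl → Fib N l) → ℝ) (a b : Pl), Obs F a b → 0 ≤ a.1 → ∀ n : ℕ,
      |ω (fun U => F (refl U) * F (shift ((n : ℤ), 0) U)) - ω F ^ 2| ≤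
        Real.exp (-(m * n)) * (ω (fun U => F (refl U) * F U) - ω F ^ 2)) := by
  have hS := fun (F : (Pl → Fib N l) → ℝ) (a b v : Pl) (hF : Obs F a b) =>
    omega_shift (N := N) (l := l) μ hm hC h1 v hF
  have hR := fun (F : (Pl → Fib N l) → ℝ) (a b : Pl) (hF : Obs F a b) =>
    omega_refl (N := N) (l := l) μ hm hC h1 hF
  refine ⟨hS, hR, fun F a b hF ha => ?_, fun F a b hF ha n => ?_⟩
  · -- positivity
    have h3 := omega_psd (N := N) (l := l) μ hm hC h1 a.2 b.2 b.1.natAbs (fun _ : Unit => F)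
      (fun _ => Obs_mono hF fun X hX => by
        rw [mem_box] at hX ⊢
        simp only
        omega) (fun _ => 1)
    simpa using h3
  · -- the gap
    set w : ℝ := ω F with hw
    set b' : ℕ → ℝ := fun n => ω (fun U => F (refl U) * F (shift ((n : ℤ), 0) U)) with hb'
    set A : ℕ → ℝ := fun n => b' n - w ^ 2 with hA
    -- the shifted observables
    have hFn : ∀ n : ℕ, Obs (fun U => F (shift ((n : ℤ), 0) U)) (a + ((n : ℤ), 0))
        (b + ((n : ℤ), 0)) := fun n => Obs_shift hF _
    have hwn : ∀ n : ℕ, ω (fun U => F (shift ((n : ℤ), 0) U)) = w := fun n => hS F a b _ hF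
    have hwr : ∀ n : ℕ, ω (fun U => F (shift ((n : ℤ), 0) (refl U))) = w := fun n => by
      rw [← hwn n]
      exact hR _ _ _ (hFn n)
    -- the products
    have hprod : ∀ p q : ℕ, ω (fun U => F (shift ((p : ℤ), 0) (refl U)) *
        F (shift ((q : ℤ), 0) U)) = b' (p + q) := by
      intro p q
      have hob : Obs (fun U => F (refl U) * F (shift (((p + q : ℕ) : ℤ), 0) U))
          (-(b.1.natAbs : ℤ), a.2) ((b.1.natAbs : ℤ) + (p + q : ℕ), b.2) := by
        refine Obs_mul (Obs_mono (Obs_refl hF) fun X hX => ?_)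
          (Obs_mono (hFn (p + q)) fun X hX => ?_)
        · rw [mem_box] at hX ⊢
          simp only at hX ⊢
          omega
        · rw [mem_box] at hX ⊢
          simp only [Prod.fst_add, Prod.snd_add] at hX ⊢
          omega
      rw [hb']
      show _ = ω (fun U => F (refl U) * F (shift (((p + q : ℕ) : ℤ), 0) U))
      rw [← hS _ _ _ (-(p : ℤ), 0) hob]
      congr 1
      funext U
      congr 2
      · funext X s
        rw [refl_apply]
        show refl U (X + ((p : ℤ), 0)) s = _
        rw [refl_apply]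
        have e1 : rho s.2 (X + ((p : ℤ), 0)) = rho s.2 X + (-(p : ℤ), 0) := by
          unfold rho
          split_ifs
          · ext
            · show -(X.1 + (p : ℤ)) - 1 = -X.1 - 1 + -(p : ℤ)
              ring
            · rfl
          · ext
            · show -(X.1 + (p : ℤ)) = -X.1 + -(p : ℤ)
              ring
            · rfl
        rw [e1]
        rfl
      · funext X
        show U (X + ((q : ℤ), 0)) = U (X + (((p + q : ℕ) : ℤ), 0) + (-(p : ℤ), 0))
        congr 1
        ext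
        · show X.1 + (q : ℤ) = X.1 + ((p + q : ℕ) : ℤ) + -(p : ℤ)
          push_cast
          ring
        · show X.2 + 0 = X.2 + 0 + 0
          ring
    -- the quadratic form
    have hq : ∀ (p q : ℕ) (s t : ℝ), 0 ≤ s ^ 2 * A (2 * p) + 2 * s * t * A (p + q) +
        t ^ 2 * A (2 * q) := by
      intro p q s t
      have h3 := omega_psd (N := N) (l := l) μ hm hC h1 a.2 b.2 (b.1.natAbs + p + q)
        (![fun _ => 1, fun U => F (shift ((p : ℤ), 0) U), fun U => F (shift ((q : ℤ), 0) U)])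
        (fun i => by
          fin_cases i
          · exact Obs_one _ _
          · refine Obs_mono (hFn p) fun X hX => ?_
            rw [mem_box] at hX ⊢
            simp only [Prod.fst_add, Prod.snd_add] at hX ⊢
            omega
          · refine Obs_mono (hFn q) fun X hX => ?_
            rw [mem_box] at hX ⊢
            simp only [Prod.fst_add, Prod.snd_add] at hX ⊢
            omega)
        ![-(s + t) * w, s, t]
      have h4 : ω (fun _ : Pl → Fib N l => (1 : ℝ)) = 1 :=
        omega_one (N := N) (l := l) μ hm hC h1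
      have e11 := hprod p p
      have e12 := hprod p q
      have e21 := hprod q p
      have e22 := hprod q q
      rw [Fintype.sum_prod_type] at h3
      simp only [Fin.sum_univ_three, Matrix.cons_val_zero, Matrix.cons_val_one,
        Matrix.cons_val_two, Matrix.head_cons, Matrix.tail_cons, one_mul, mul_one] at h3
      rw [h4, hwn p, hwn q, hwr p, hwr q, e11, e12, e21, e22] at h3
      have e3 : q + p = p + q := add_comm q p
      have e4 : p + p = 2 * p := (two_mul p).symm
      have e5 : q + q = 2 * q := (two_mul q).symm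
      rw [e3, e4, e5] at h3
      have e6 : s ^ 2 * A (2 * p) + 2 * s * t * A (p + q) + t ^ 2 * A (2 * q) =
          s ^ 2 * (b' (2 * p) - w ^ 2) + 2 * s * t * (b' (p + q) - w ^ 2) +
            t ^ 2 * (b' (2 * q) - w ^ 2) := rfl
      rw [e6]
      refine h3.trans (le_of_eq ?_)
      ring
    have hpos : ∀ p, 0 ≤ A (2 * p) := by
      intro p
      have := hq p p 1 0
      simpa using this
    have hlc : ∀ p q, A (p + q) ^ 2 ≤ A (2 * p) * A (2 * q) := by
      intro p q
      have h3 : ∀ t : ℝ, 0 ≤ A (2 * q) * (t * t) + (2 * A (p + q)) * t + A (2 * p) := by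
        intro t
        have := hq p q 1 t
        nlinarith
      have h4 := discrim_le_zero h3
      unfold discrim at h4
      nlinarith
    -- the decay
    have hdec : ∃ K : ℝ, ∀ n : ℕ, |A n| ≤ K * Real.exp (-m) ^ n := by
      set cd : ℝ := ((Finset.Icc ((-b.1, a.2) : Pl) (-a.1, b.2)).card : ℝ) with hcd
      refine ⟨|A 0| + C * cd * Real.exp m, fun n => ?_⟩
      rcases Nat.eq_zero_or_pos n with hn | hn
      · rw [hn, pow_zero, mul_one]
        have : 0 ≤ C * cd * Real.exp m := by positivity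
        linarith
      · obtain ⟨k, rfl⟩ : ∃ k, n = k + 1 := ⟨n - 1, by omega⟩
        have h3 := h2 (-b.1, a.2) (-a.1, b.2) (a + (((k + 1 : ℕ) : ℤ), 0))
          (b + (((k + 1 : ℕ) : ℤ), 0)) (fun U => F (refl U))
          (fun U => F (shift (((k + 1 : ℕ) : ℤ), 0) U)) k (Obs_refl hF) (hFn (k + 1))
          (fun X hX Y hY => by
            rw [mem_box] at hX hY
            simp only [Prod.fst_add, Prod.snd_add] at hX hY
            unfold dP
            rw [lt_max_iff]
            push_cast at hY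
            omega)
        rw [hR F a b hF, hwn (k + 1)] at h3
        have e1 : A (k + 1) = ω (fun U => F (refl U) * F (shift (((k + 1 : ℕ) : ℤ), 0) U)) -
            w * w := by
          show b' (k + 1) - w ^ 2 = _
          rw [sq]
        rw [e1]
        refine h3.trans ?_
        have e2 : Real.exp (-m) ^ (k + 1) = Real.exp (-(m * k)) * Real.exp (-m) := by
          rw [← Real.exp_nat_mul, ← Real.exp_add]
          congr 1
          push_cast
          ring
        have e3 : Real.exp m * Real.exp (-m) = 1 := by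
          rw [← Real.exp_add, add_neg_cancel, Real.exp_zero]
        rw [e2]
        have e4 : (|A 0| + C * cd * Real.exp m) * (Real.exp (-(m * k)) * Real.exp (-m)) =
            |A 0| * (Real.exp (-(m * k)) * Real.exp (-m)) + C * cd * Real.exp (-(m * k)) := by
          linear_combination C * cd * Real.exp (-(m * k)) * e3
        rw [e4]
        have : 0 ≤ |A 0| * (Real.exp (-(m * k)) * Real.exp (-m)) := by positivity
        linarith
    obtain ⟨K, hK⟩ := hdec
    have h5 := seq_decay (A := A) (Real.exp_pos (-m)) (by simpa using hpos 0)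
      (fun n => by
        have := hlc 0 n
        simpa using this) hK n
    have e7 : Real.exp (-m) ^ n = Real.exp (-(m * n)) := by
      rw [← Real.exp_nat_mul]
      congr 1
      ring
    have e8 : A 0 = ω (fun U => F (refl U) * F U) - w ^ 2 := by
      show ω (fun U => F (refl U) * F (shift (((0 : ℕ) : ℤ), 0) U)) - w ^ 2 = _
      congr 2
      funext U
      congr 2
      funext X
      show U (X + (((0 : ℕ) : ℤ), 0)) = U X
      congr 1
      ext
      · show X.1 + ((0 : ℕ) : ℤ) = X.1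
        simp
      · show X.2 + 0 = X.2
        simp
    rw [e7, e8] at h5
    exact h5

end

end Pool.Agent.N984.TW

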