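import Mathlib
import Pool.Agent.N453.TW.RP5
import Pool.Agent.N453.OS

/-!
# The Osterwalder–Schrader Hilbert space of the infinite volume state
-/

open MeasureTheory Matrix Filter
open scoped Topology ENNReal

namespace Pool.Agent.N984.TW

set_option linter.unusedSectionVars false
set_option linter.unusedVariables false

noncomputable section

variable {N l : ℕ} [NeZero N] [NeZero l]

open RP

variable [MeasurableSpace (SU N)] [BorelSpace (SU N)]

/-- A bounded gauge invariant observable of the links over the rectangle `[a,b]`. -/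
structure Loc (F : (Pl → Fib N l) → ℝ) (a b : Pl) : Prop where
  meas : Measurable F
  bdd : ∃ M : ℝ, ∀ U, |F U| ≤ M
  inv : GaugeInv F
  dep : DepOn F (Finset.Icc a b)

/-- The square `[-n,n]²`. -/
def sqr (n : ℕ) : Finset Pl := Finset.Icc (-(n : ℤ), -(n : ℤ)) ((n : ℤ), (n : ℤ))

/-- The infinite volume state, the limit of the expectations in the squares. -/
def st (μ : Measure (SU N)) (z : ℂ) (β : ℝ) (F : (Pl → Fib N l) → ℝ) : ℝ :=
  limUnder atTop fun n : ℕ => expect μ z β (sqr n) F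

namespace OSI

lemma Loc.ofObs {F : (Pl → Fib N l) → ℝ} {a b : Pl} (h : Obs F a b) : Loc F a b :=
  ⟨h.meas, ⟨1, h.bdd⟩, h.inv, h.dep⟩

lemma Loc.scale {F : (Pl → Fib N l) → ℝ} {a b : Pl} (h : Loc F a b) {M : ℝ} (hM : 0 < M)
    (hb : ∀ U, |F U| ≤ M) : Obs (fun U => M⁻¹ * F U) a b := by
  refine ⟨h.meas.const_mul _, fun U => ?_, fun g U => ?_, fun U U' hU => ?_⟩
  · rw [abs_mul, abs_of_pos (inv_pos.2 hM), inv_mul_le_iff₀ hM, mul_one]
    exact hb U
  · show M⁻¹ * F _ = _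
    rw [h.inv g U]
  · show M⁻¹ * F _ = _
    rw [h.dep U U' hU]

omit [BorelSpace (SU N)] in
lemma Loc.bound {F : (Pl → Fib N l) → ℝ} {a b : Pl} (h : Loc F a b) :
    ∃ M : ℝ, 0 < M ∧ ∀ U, |F U| ≤ M := by
  obtain ⟨M, hM⟩ := h.bdd
  exact ⟨|M| + 1, by positivity, fun U => (hM U).trans ((le_abs_self M).trans (by linarith))⟩

omit [BorelSpace (SU N)] in
lemma Loc.mono {F : (Pl → Fib N l) → ℝ} {a b a' b' : Pl} (h : Loc F a b)
    (hs : Finset.Icc a b ⊆ Finset.Icc a' b') : Loc F a' b' :=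
  ⟨h.meas, h.bdd, h.inv, dep_mono h.dep hs⟩

lemma Loc.sh {F : (Pl → Fib N l) → ℝ} {a b : Pl} (h : Loc F a b) (v : Pl) :
    Loc (fun U => F (shift v U)) (a + v) (b + v) := by
  obtain ⟨M, hM⟩ := h.bdd
  exact ⟨h.meas.comp (shift_meas v), ⟨M, fun U => hM _⟩, gauge_shift h.inv v, dep_shift v h.dep⟩

lemma Loc.rf {F : (Pl → Fib N l) → ℝ} {a b : Pl} (h : Loc F a b) :
    Loc (fun U => F (refl U)) (-b.1, a.2) (-a.1, b.2) := by
  obtain ⟨M, hM⟩ := h.bdd
  refine ⟨h.meas.comp refl_meas, ⟨M, fun U => hM _⟩, gauge_refl h.inv, ?_⟩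
  refine dep_refl (a := (-b.1, a.2)) (b := (-a.1, b.2)) ?_
  simp only [neg_neg]
  exact h.dep

lemma Loc.mul {F G : (Pl → Fib N l) → ℝ} {a b a' b' : Pl} (hF : Loc F a b) (hG : Loc G a' b') :
    Loc (fun U => F U * G U) (a ⊓ a') (b ⊔ b') := by
  obtain ⟨M, hM0, hM⟩ := Loc.bound hF
  obtain ⟨M', hM0', hM'⟩ := Loc.bound hG
  have hF' := Loc.mono hF (Finset.Icc_subset_Icc (inf_le_left (b := a')) (le_sup_left (b := b')))
  have hG' := Loc.mono hG (Finset.Icc_subset_Icc (inf_le_right (a := a)) (le_sup_right (a := b)))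
  refine ⟨hF.meas.mul hG.meas, ⟨M * M', fun U => ?_⟩, fun h U => ?_, fun U U' h => ?_⟩
  · rw [abs_mul]
    exact mul_le_mul (hM U) (hM' U) (abs_nonneg _) hM0.le
  · show F (gt h U) * G (gt h U) = F U * G U
    rw [hF.inv h U, hG.inv h U]
  · show F U * G U = F U' * G U'
    rw [hF'.dep U U' h, hG'.dep U U' h]

omit [BorelSpace (SU N)] in
lemma Loc.add {F G : (Pl → Fib N l) → ℝ} {a b a' b' : Pl} (hF : Loc F a b) (hG : Loc G a' b') :
    Loc (fun U => F U + G U) (a ⊓ a') (b ⊔ b') := by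
  obtain ⟨M, hM0, hM⟩ := Loc.bound hF
  obtain ⟨M', hM0', hM'⟩ := Loc.bound hG
  have hF' := Loc.mono hF (Finset.Icc_subset_Icc (inf_le_left (b := a')) (le_sup_left (b := b')))
  have hG' := Loc.mono hG (Finset.Icc_subset_Icc (inf_le_right (a := a)) (le_sup_right (a := b)))
  refine ⟨hF.meas.add hG.meas, ⟨M + M', fun U => ?_⟩, fun h U => ?_, fun U U' h => ?_⟩
  · exact (abs_add_le _ _).trans (add_le_add (hM U) (hM' U))
  · show F (gt h U) + G (gt h U) = F U + G U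
    rw [hF.inv h U, hG.inv h U]
  · show F U + G U = F U' + G U'
    rw [hF'.dep U U' h, hG'.dep U U' h]

omit [BorelSpace (SU N)] in
lemma Loc.smul {F : (Pl → Fib N l) → ℝ} {a b : Pl} (hF : Loc F a b) (r : ℝ) :
    Loc (fun U => r * F U) a b := by
  obtain ⟨M, hM0, hM⟩ := Loc.bound hF
  refine ⟨hF.meas.const_mul r, ⟨|r| * M, fun U => ?_⟩, fun h U => ?_, fun U U' h => ?_⟩
  · rw [abs_mul]
    exact mul_le_mul_of_nonneg_left (hM U) (abs_nonneg _)
  · show r * F (gt h U) = r * F U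
    rw [hF.inv h U]
  · show r * F U = r * F U'
    rw [hF.dep U U' h]

/-- the size of a rectangle -/
def szr (a b : Pl) : ℕ := max (max a.1.natAbs a.2.natAbs) (max b.1.natAbs b.2.natAbs)

lemma sub_sqr {a b : Pl} {n : ℕ} (h : szr a b ≤ n) : Finset.Icc a b ⊆ sqr n := by
  intro X hX
  unfold sqr
  unfold szr at h
  rw [mem_box] at hX ⊢
  simp only
  omega

lemma far_sqr {a b X Y : Pl} {n R : ℕ} (h : szr a b + R ≤ n) (hX : X ∈ Finset.Icc a b)
    (hY : Y ∉ sqr n) : R < dP X Y := by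
  unfold sqr at hY
  unfold szr at h
  rw [mem_box] at hX hY
  simp only at hY
  unfold dP
  rw [lt_max_iff]
  omega

variable (μ : Measure (SU N))
  [IsProbabilityMeasure μ] [μ.IsMulLeftInvariant] [μ.IsMulRightInvariant]

lemma expect_smul (z : ℂ) (β : ℝ) (Λ : Finset Pl) (r : ℝ) {F : (Pl → Fib N l) → ℝ} :
    expect μ z β Λ (fun U => r * F U) = r * expect μ z β Λ F := by
  unfold expect
  simp only [mul_assoc]
  rw [integral_const_mul, mul_div_assoc]

lemma expect_add (z : ℂ) (β : ℝ) (Λ : Finset Pl) {F G : (Pl → Fib N l) → ℝ} {a b a' b' : Pl}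
    (hF : Loc F a b) (hG : Loc G a' b') :
    expect μ z β Λ (fun U => F U + G U) = expect μ z β Λ F + expect μ z β Λ G := by
  unfold expect
  simp only [add_mul]
  rw [integral_add (weight_int μ z β Λ hF.meas hF.bdd) (weight_int μ z β Λ hG.meas hG.bdd), add_div]

lemma expect_abs_le (z : ℂ) (β : ℝ) (Λ : Finset Pl) {F : (Pl → Fib N l) → ℝ} {M : ℝ}
    (hF : Measurable F) (hb : ∀ U, |F U| ≤ M) : |expect μ z β Λ F| ≤ M := by
  have hZ := Z_pos (N := N) (l := l) μ z β Λ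
  have h1 : Integrable (fun u : Λ → Fib N l => M * Real.exp (-(β * action z Λ (ext Λ u))))
      (muL μ Λ) :=
    weight_int (N := N) (l := l) μ z β Λ (F := fun _ => M) measurable_const ⟨|M|, fun _ => le_rfl⟩
  unfold expect
  rw [abs_div, abs_of_pos hZ, div_le_iff₀ hZ, ← integral_const_mul]
  refine (abs_integral_le_integral_abs).trans (integral_mono_of_nonneg
    (Filter.Eventually.of_forall fun _ => abs_nonneg _) h1
    (Filter.Eventually.of_forall fun u => ?_))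
  show |F (ext Λ u) * Real.exp (-(β * action z Λ (ext Λ u)))| ≤ _
  rw [abs_mul, Real.abs_exp]
  exact mul_le_mul_of_nonneg_right (hb _) (Real.exp_pos _).le

variable {z : ℂ} {β m C : ℝ} {ω : ((Pl → Fib N l) → ℝ) → ℝ}

section

variable (hm : 0 < m) (hC : 0 ≤ C)
  (h1 : ∀ (a b a₁ b₁ : Pl) (F : (Pl → Fib N l) → ℝ) (R : ℕ), Obs F a₁ b₁ →
        Finset.Icc a₁ b₁ ⊆ Finset.Icc a b →
        (∀ X ∈ Finset.Icc a₁ b₁, ∀ Y ∉ Finset.Icc a b, R < dP X Y) →
        |expect μ z β (Finset.Icc a b) F - ω F| ≤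
          C * (Finset.Icc a₁ b₁).card * Real.exp (-(m * R)))

include hm hC h1

lemma tendsto_obs {F : (Pl → Fib N l) → ℝ} {a b : Pl} (hF : Obs F a b) :
    Tendsto (fun n : ℕ => expect μ z β (sqr n) F) atTop (𝓝 (ω F)) := by
  rw [← tendsto_add_atTop_iff_nat (szr a b), tendsto_iff_norm_sub_tendsto_zero]
  refine squeeze_zero (fun _ => norm_nonneg _) (fun k => ?_)
    (g := fun k : ℕ => C * (Finset.Icc a b).card * Real.exp (-(m * k))) ?_
  · rw [Real.norm_eq_abs]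
    exact h1 _ _ a b F k hF (sub_sqr (by omega)) fun X hX Y hY => far_sqr (by omega) hX hY
  · have h2 : Tendsto (fun k : ℕ => Real.exp (-(m * k))) atTop (𝓝 0) := by
      refine Real.tendsto_exp_atBot.comp (tendsto_neg_atTop_atBot.comp ?_)
      exact (tendsto_natCast_atTop_atTop).const_mul_atTop hm
    have h3 := h2.const_mul (C * ((Finset.Icc a b).card : ℝ))
    rw [mul_zero] at h3
    exact h3

lemma st_obs {F : (Pl → Fib N l) → ℝ} {a b : Pl} (hF : Obs F a b) : st μ z β F = ω F :=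
  (tendsto_obs μ hm hC h1 hF).limUnder_eq

lemma tendsto_scale {F : (Pl → Fib N l) → ℝ} {a b : Pl} (hF : Loc F a b) {M : ℝ} (hM : 0 < M)
    (hb : ∀ U, |F U| ≤ M) :
    Tendsto (fun n : ℕ => expect μ z β (sqr n) F) atTop (𝓝 (M * ω (fun U => M⁻¹ * F U))) := by
  have h2 := (tendsto_obs μ hm hC h1 (Loc.scale hF hM hb)).const_mul M
  refine h2.congr fun n => ?_
  rw [expect_smul, ← mul_assoc, mul_inv_cancel₀ hM.ne', one_mul]

lemma st_scale {F : (Pl → Fib N l) → ℝ} {a b : Pl} (hF : Loc F a b) {M : ℝ} (hM : 0 < M)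
    (hb : ∀ U, |F U| ≤ M) : st μ z β F = M * ω (fun U => M⁻¹ * F U) :=
  (tendsto_scale μ hm hC h1 hF hM hb).limUnder_eq

lemma tendsto_st {F : (Pl → Fib N l) → ℝ} {a b : Pl} (hF : Loc F a b) :
    Tendsto (fun n : ℕ => expect μ z β (sqr n) F) atTop (𝓝 (st μ z β F)) := by
  obtain ⟨M, hM, hb⟩ := Loc.bound hF
  rw [st_scale μ hm hC h1 hF hM hb]
  exact tendsto_scale μ hm hC h1 hF hM hb

/-- the infinite volume limit, with rate -/
lemma st_rate {F : (Pl → Fib N l) → ℝ} {a₁ b₁ : Pl} (hF : Loc F a₁ b₁) {M : ℝ} (hM : 0 < M)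
    (hb : ∀ U, |F U| ≤ M) (a b : Pl) (R : ℕ) (hs : Finset.Icc a₁ b₁ ⊆ Finset.Icc a b)
    (hR : ∀ X ∈ Finset.Icc a₁ b₁, ∀ Y ∉ Finset.Icc a b, R < dP X Y) :
    |expect μ z β (Finset.Icc a b) F - st μ z β F| ≤
      M * (C * (Finset.Icc a₁ b₁).card * Real.exp (-(m * R))) := by
  have h2 := h1 a b a₁ b₁ _ R (Loc.scale hF hM hb) hs hR
  rw [expect_smul] at h2
  rw [st_scale μ hm hC h1 hF hM hb]
  have e : expect μ z β (Finset.Icc a b) F - M * ω (fun U => M⁻¹ * F U) =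
      M * (M⁻¹ * expect μ z β (Finset.Icc a b) F - ω (fun U => M⁻¹ * F U)) := by
    rw [mul_sub, ← mul_assoc, mul_inv_cancel₀ hM.ne', one_mul]
  rw [e, abs_mul, abs_of_pos hM]
  exact mul_le_mul_of_nonneg_left h2 hM.le

lemma st_add {F G : (Pl → Fib N l) → ℝ} {a b a' b' : Pl} (hF : Loc F a b) (hG : Loc G a' b') :
    st μ z β (fun U => F U + G U) = st μ z β F + st μ z β G := by
  refine tendsto_nhds_unique (tendsto_st μ hm hC h1 (Loc.add hF hG)) ?_
  refine ((tendsto_st μ hm hC h1 hF).add (tendsto_st μ hm hC h1 hG)).congr fun n => ?_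
  rw [expect_add μ z β _ hF hG]

lemma st_smul {F : (Pl → Fib N l) → ℝ} {a b : Pl} (hF : Loc F a b) (r : ℝ) :
    st μ z β (fun U => r * F U) = r * st μ z β F := by
  refine tendsto_nhds_unique (tendsto_st μ hm hC h1 (Loc.smul hF r)) ?_
  refine ((tendsto_st μ hm hC h1 hF).const_mul r).congr fun n => ?_
  rw [expect_smul]

lemma st_one : st μ z β (fun _ : Pl → Fib N l => (1 : ℝ)) = 1 := by
  rw [st_obs μ hm hC h1 (Obs_one 0 0)]
  exact omega_one μ hm hC h1

lemma st_abs_le {F : (Pl → Fib N l) → ℝ} {a b : Pl} (hF : Loc F a b) {M : ℝ}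
    (hb : ∀ U, |F U| ≤ M) : |st μ z β F| ≤ M :=
  le_of_tendsto (tendsto_st μ hm hC h1 hF).abs
    (Filter.Eventually.of_forall fun n => expect_abs_le μ z β _ hF.meas hb)

lemma st_shift {F : (Pl → Fib N l) → ℝ} {a b : Pl} (hF : Loc F a b) (v : Pl) :
    st μ z β (fun U => F (shift v U)) = st μ z β F := by
  obtain ⟨M, hM, hb⟩ := Loc.bound hF
  rw [st_scale μ hm hC h1 (Loc.sh hF v) hM fun U => hb _, st_scale μ hm hC h1 hF hM hb,
    omega_shift μ hm hC h1 v (Loc.scale hF hM hb)]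

lemma st_refl {F : (Pl → Fib N l) → ℝ} {a b : Pl} (hF : Loc F a b) :
    st μ z β (fun U => F (refl U)) = st μ z β F := by
  obtain ⟨M, hM, hb⟩ := Loc.bound hF
  rw [st_scale μ hm hC h1 (Loc.rf hF) hM fun U => hb _, st_scale μ hm hC h1 hF hM hb,
    omega_refl μ hm hC h1 (Loc.scale hF hM hb)]

end

/-! ### the space of observables -/

/-- **the bounded local gauge invariant observables of the half space `x₀ ≥ 0`** -/
def _root_.Pool.Agent.N984.TW.halfAlg (N l : ℕ) [NeZero N] [NeZero l] [MeasurableSpace (SU N)] :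
    Submodule ℝ ((Pl → Fib N l) → ℝ) where
  carrier := {F | ∃ a b : Pl, 0 ≤ a.1 ∧ Loc F a b}
  zero_mem' := ⟨0, 0, le_rfl, measurable_const, ⟨0, fun _ => by simp⟩, fun _ _ => rfl,
    fun _ _ _ => rfl⟩
  add_mem' := by
    rintro F G ⟨a, b, ha, hF⟩ ⟨a', b', ha', hG⟩
    exact ⟨a ⊓ a', b ⊔ b', le_inf ha ha', Loc.add hF hG⟩
  smul_mem' := by
    rintro r F ⟨a, b, ha, hF⟩
    exact ⟨a, b, ha, Loc.smul hF r⟩

end OSI

open OSI

lemma mem_halfAlg {F : (Pl → Fib N l) → ℝ} :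
    F ∈ halfAlg N l ↔ ∃ a b : Pl, 0 ≤ a.1 ∧ Loc F a b := Iff.rfl

lemma loc_of (F : halfAlg N l) : ∃ a b : Pl, 0 ≤ a.1 ∧ Loc F.1 a b := F.2

/-- **the shift by one unit of time** -/
def tauH (N l : ℕ) [NeZero N] [NeZero l] [MeasurableSpace (SU N)] [BorelSpace (SU N)] :
    halfAlg N l →ₗ[ℝ] halfAlg N l where
  toFun F := ⟨fun U => F.1 (shift (1, 0) U), by
    obtain ⟨a, b, ha, hF⟩ := F.2
    exact ⟨a + (1, 0), b + (1, 0), by show 0 ≤ a.1 + 1; linarith, Loc.sh hF _⟩⟩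
  map_add' F G := rfl
  map_smul' r F := rfl

lemma tauH_apply (F : halfAlg N l) (U : Pl → Fib N l) :
    (tauH N l F).1 U = F.1 (shift (1, 0) U) := rfl

lemma shift_shift (v w : Pl) (U : Pl → Fib N l) : shift v (shift w U) = shift (v + w) U := by
  funext X
  show U (X + v + w) = U (X + (v + w))
  rw [add_assoc]

lemma tauH_iter (F : halfAlg N l) (n : ℕ) :
    ((tauH N l)^[n] F).1 = fun U => F.1 (shift ((n : ℤ), 0) U) := by
  induction n with
  | zero =>
    funext U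
    have e : shift (((0 : ℕ) : ℤ), 0) U = U := by
      funext X
      show U (X + (((0 : ℕ) : ℤ), 0)) = U X
      rw [Nat.cast_zero]
      show U (X + 0) = U X
      rw [add_zero]
    show F.1 U = F.1 (shift (((0 : ℕ) : ℤ), 0) U)
    rw [e]
  | succ n ih =>
    funext U
    rw [Function.iterate_succ_apply', tauH_apply, ih]
    show F.1 (shift ((n : ℤ), 0) (shift (1, 0) U)) = _
    rw [shift_shift]
    have e : (((n : ℤ), 0) : Pl) + (1, 0) = (((n + 1 : ℕ) : ℤ), 0) := by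
      ext
      · show (n : ℤ) + 1 = ((n + 1 : ℕ) : ℤ)
        push_cast; ring
      · rfl
    rw [e]

lemma shift_refl (U : Pl → Fib N l) :
    shift (1, 0) (refl U) = refl (shift (-1, 0) U) := by
  funext X p
  show (if p.2 = 0 then (U (-(X.1 + 1) - 1, X.2 + 0) p)⁻¹ else U (-(X.1 + 1), X.2 + 0) p) =
    if p.2 = 0 then (U ((-X.1 - 1, X.2) + (-1, 0)) p)⁻¹ else U ((-X.1, X.2) + (-1, 0)) p
  have e1 : ((-(X.1 + 1) - 1, X.2 + 0) : Pl) = (-X.1 - 1, X.2) + (-1, 0) := by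
    ext
    · show -(X.1 + 1) - 1 = -X.1 - 1 + -1
      ring
    · rfl
  have e2 : ((-(X.1 + 1), X.2 + 0) : Pl) = (-X.1, X.2) + (-1, 0) := by
    ext
    · show -(X.1 + 1) = -X.1 + -1
      ring
    · rfl
  rw [e1, e2]

/-- the unit -/
def oneH (N l : ℕ) [NeZero N] [NeZero l] [MeasurableSpace (SU N)] [BorelSpace (SU N)] :
    halfAlg N l :=
  ⟨fun _ => 1, 0, 0, le_rfl, Loc.ofObs (Obs_one 0 0)⟩

variable (μ : Measure (SU N))
  [IsProbabilityMeasure μ] [μ.IsMulLeftInvariant] [μ.IsMulRightInvariant]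

/-- **The Osterwalder–Schrader form of the infinite volume state.** -/
theorem os_form {z : ℂ} {β m C : ℝ} {ω : ((Pl → Fib N l) → ℝ) → ℝ} (hm : 0 < m) (hC : 0 ≤ C)
    (h1 : ∀ (a b a₁ b₁ : Pl) (F : (Pl → Fib N l) → ℝ) (R : ℕ), Obs F a₁ b₁ →
        Finset.Icc a₁ b₁ ⊆ Finset.Icc a b →
        (∀ X ∈ Finset.Icc a₁ b₁, ∀ Y ∉ Finset.Icc a b, R < dP X Y) →
        |expect μ z β (Finset.Icc a b) F - ω F| ≤
          C * (Finset.Icc a₁ b₁).card * Real.exp (-(m * R)))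
    (h2 : ∀ (a₁ b₁ a₂ b₂ : Pl) (F₁ F₂ : (Pl → Fib N l) → ℝ) (R : ℕ), Obs F₁ a₁ b₁ →
        Obs F₂ a₂ b₂ → (∀ X ∈ Finset.Icc a₁ b₁, ∀ Y ∈ Finset.Icc a₂ b₂, R < dP X Y) →
        |ω (fun U => F₁ U * F₂ U) - ω F₁ * ω F₂| ≤
          C * (Finset.Icc a₁ b₁).card * Real.exp (-(m * R))) :
    ∃ D : N453.OS.Data ℝ (halfAlg N l),
      (∀ F G, D.B F G = st μ z β (fun U => F.1 (refl U) * G.1 U)) ∧
      D.τ = tauH N l ∧ D.one = oneH N l ∧ N453.OS.Clust D m := by
  have hprod : ∀ F G : halfAlg N l, ∃ a b : Pl, Loc (fun U => F.1 (refl U) * G.1 U) a b := by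
    intro F G
    obtain ⟨a, b, ha, hF⟩ := F.2
    obtain ⟨a', b', ha', hG⟩ := G.2
    exact ⟨_, _, Loc.mul (Loc.rf hF) hG⟩
  have hB0 : ∀ F : halfAlg N l, st μ z β F.1 = st μ z β (fun U => F.1 (refl U) * 1) := by
    intro F
    obtain ⟨a, b, ha, hF⟩ := F.2
    simp only [mul_one]
    exact (st_refl μ hm hC h1 hF).symm
  let D : N453.OS.Data ℝ (halfAlg N l) := N453.OS.mkReal
    (fun F G => st μ z β (fun U => F.1 (refl U) * G.1 U))
    (by
      intro F G
      obtain ⟨a, b, h⟩ := hprod G F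
      show st μ z β (fun U => F.1 (refl U) * G.1 U) = st μ z β (fun U => G.1 (refl U) * F.1 U)
      rw [← st_refl μ hm hC h1 h]
      simp only [refl_refl]
      congr 1
      funext U
      exact mul_comm _ _)
    (by
      intro F
      obtain ⟨a, b, ha, hF⟩ := F.2
      obtain ⟨M, hM, hb⟩ := Loc.bound hF
      have h3 := (gap_of_clustering μ hm hC ω h1 h2).2.2.1 _ a b (Loc.scale hF hM hb) ha
      show 0 ≤ st μ z β (fun U => F.1 (refl U) * F.1 U)
      obtain ⟨a', b', h⟩ := hprod F F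
      rw [st_scale μ hm hC h1 h (M := M * M) (by positivity) (fun U => by
        rw [abs_mul]
        exact mul_le_mul (hb _) (hb _) (abs_nonneg _) hM.le)]
      refine mul_nonneg (by positivity) ?_
      refine h3.trans (le_of_eq ?_)
      congr 1
      funext U
      field_simp)
    (by
      intro F F' G
      obtain ⟨a, b, h⟩ := hprod F G
      obtain ⟨a', b', h'⟩ := hprod F' G
      show st μ z β (fun U => (F.1 (refl U) + F'.1 (refl U)) * G.1 U) = _
      simp only [add_mul]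
      exact st_add μ hm hC h1 h h')
    (by
      intro r F G
      obtain ⟨a, b, h⟩ := hprod F G
      show st μ z β (fun U => (r * F.1 (refl U)) * G.1 U) = _
      simp only [mul_assoc]
      exact st_smul μ hm hC h1 h r)
    (tauH N l)
    (by
      intro F G
      show st μ z β (fun U => F.1 (shift (1, 0) (refl U)) * G.1 U) =
        st μ z β (fun U => F.1 (refl U) * G.1 (shift (1, 0) U))
      simp only [shift_refl]
      obtain ⟨a, b, ha, hF⟩ := F.2
      obtain ⟨a', b', ha', hG⟩ := G.2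
      have h3 : Loc (fun U => F.1 (refl (shift (-1, 0) U)) * G.1 U) _ _ :=
        Loc.mul (Loc.sh (Loc.rf hF) (-1, 0)) hG
      rw [← st_shift μ hm hC h1 h3 (1, 0)]
      congr 1
      funext U
      have e : shift (-1, 0) (shift (1, 0) U) = U := by
        rw [shift_shift]
        funext X
        show U (X + ((-1, 0) + (1, 0))) = U X
        have e2 : (((-1, 0) : Pl) + (1, 0)) = 0 := rfl
        rw [e2, add_zero]
      rw [e])
    (oneH N l)
    (by rfl)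
    (by
      show st μ z β (fun _ => (1 : ℝ) * 1) = 1
      simp only [mul_one]
      exact st_one μ hm hC h1)
    (by
      intro F
      obtain ⟨a, b, ha, hF⟩ := F.2
      obtain ⟨M, hM, hb⟩ := Loc.bound hF
      refine ⟨M * M, fun n => ?_⟩
      obtain ⟨a', b', h⟩ := hprod F ((tauH N l)^[n] F)
      refine st_abs_le μ hm hC h1 h fun U => ?_
      rw [abs_mul, tauH_iter]
      exact mul_le_mul (hb _) (hb _) (abs_nonneg _) hM.le)
  refine ⟨D, fun F G => rfl, rfl, rfl, N453.OS.clust_real fun F => ?_⟩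
  obtain ⟨a, b, ha, hF⟩ := F.2
  obtain ⟨M, hM, hb⟩ := Loc.bound hF
  have hob := Loc.scale hF hM hb
  have h3 := (gap_of_clustering μ hm hC ω h1 h2).2.2.2 _ a b hob ha
  refine ⟨M ^ 2 * (ω (fun U => M⁻¹ * F.1 (refl U) * (M⁻¹ * F.1 U))
    - ω (fun U => M⁻¹ * F.1 U) ^ 2), fun n => ?_⟩
  obtain ⟨a', b', h⟩ := hprod F ((tauH N l)^[n] F)
  have e1 : D.B F (D.τ^[n] F) = M ^ 2 *
      ω (fun U => M⁻¹ * F.1 (refl U) * (M⁻¹ * F.1 (shift ((n : ℤ), 0) U))) := by
    show st μ z β (fun U => F.1 (refl U) * ((tauH N l)^[n] F).1 U) = _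
    rw [st_scale μ hm hC h1 h (M := M * M) (by positivity) (fun U => by
      rw [abs_mul, tauH_iter]
      exact mul_le_mul (hb _) (hb _) (abs_nonneg _) hM.le), tauH_iter]
    rw [sq]
    congr 2
    funext U
    field_simp
  have e2 : D.B F D.one = M * ω (fun U => M⁻¹ * F.1 U) := by
    show st μ z β (fun U => F.1 (refl U) * 1) = _
    rw [← hB0 F, st_scale μ hm hC h1 hF hM hb]
  rw [e1, e2, mul_pow, ← mul_sub, abs_mul, abs_of_pos (by positivity : 0 < M ^ 2)]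
  refine (mul_le_mul_of_nonneg_left (h3 n) (by positivity)).trans (le_of_eq ?_)
  ring

/-- **The physical (complex) Hilbert space and the transfer operator of the infinite volume
state**, with its spectral gap. -/
theorem os_hilbert {z : ℂ} {β m C : ℝ} {ω : ((Pl → Fib N l) → ℝ) → ℝ} (hm : 0 < m) (hC : 0 ≤ C)
    (h1 : ∀ (a b a₁ b₁ : Pl) (F : (Pl → Fib N l) → ℝ) (R : ℕ), Obs F a₁ b₁ →
        Finset.Icc a₁ b₁ ⊆ Finset.Icc a b →
        (∀ X ∈ Finset.Icc a₁ b₁, ∀ Y ∉ Finset.Icc a b, R < dP X Y) →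
        |expect μ z β (Finset.Icc a b) F - ω F| ≤
          C * (Finset.Icc a₁ b₁).card * Real.exp (-(m * R)))
    (h2 : ∀ (a₁ b₁ a₂ b₂ : Pl) (F₁ F₂ : (Pl → Fib N l) → ℝ) (R : ℕ), Obs F₁ a₁ b₁ →
        Obs F₂ a₂ b₂ → (∀ X ∈ Finset.Icc a₁ b₁, ∀ Y ∈ Finset.Icc a₂ b₂, R < dP X Y) →
        |ω (fun U => F₁ U * F₂ U) - ω F₁ * ω F₂| ≤
          C * (Finset.Icc a₁ b₁).card * Real.exp (-(m * R))) :
    ∃ (H : Type) (_ : NormedAddCommGroup H) (_ : InnerProductSpace ℂ H) (_ : CompleteSpace H)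
      (J : halfAlg N l → H) (T : H →L[ℂ] H),
      (∀ F G, J (F + G) = J F + J G) ∧ (∀ (r : ℝ) F, J (r • F) = (r : ℂ) • J F) ∧
      Dense (Submodule.span ℂ (Set.range J) : Set H) ∧
      (∀ F G, inner ℂ (J F) (J G) = (st μ z β (fun U => F.1 (refl U) * G.1 U) : ℂ)) ∧
      (∀ F, T (J F) = J (tauH N l F)) ∧
      IsSelfAdjoint T ∧ ‖T‖ ≤ 1 ∧ ‖J (oneH N l)‖ = 1 ∧ T (J (oneH N l)) = J (oneH N l) ∧
      (∀ x, inner ℂ (J (oneH N l)) x = 0 → ‖T x‖ ≤ Real.exp (-m) * ‖x‖) ∧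
      (∀ w ∈ spectrum ℂ T, w = 1 ∨ ‖w‖ ≤ Real.exp (-m)) ∧
      (∀ (F : halfAlg N l) (m₂ q : ℝ),
        0 < st μ z β (fun U => F.1 (refl U) * F.1 U) - st μ z β F.1 ^ 2 →
        Real.exp (-(2 * m₂)) * (st μ z β (fun U => F.1 (refl U) * F.1 U) - st μ z β F.1 ^ 2) ≤
          st μ z β (fun U => F.1 (refl U) * F.1 (shift (2, 0) U)) - st μ z β F.1 ^ 2 →
        q < Real.exp (-m₂) →
        ¬ ∀ x, inner ℂ (J (oneH N l)) x = 0 → ‖T x‖ ≤ q * ‖x‖) := by
  obtain ⟨D, hB, hτ, hone, hcl⟩ := os_form μ hm hC h1 h2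
  obtain ⟨H, i1, i2, i3, J, T, p1, p2, p3, p4, p5, p6, p7, p8, p9, p10, p11, p12⟩ :=
    N453.OS.exists_complex_hilbert D hcl
  rw [hone] at p8 p9 p10 p12
  refine ⟨H, i1, i2, i3, J, T, p1, p2, p3, fun F G => ?_, fun F => ?_, p6, p7, p8, p9, p10, p11,
    fun F m₂ q q0 q1 q2 => ?_⟩
  · rw [p4, hB]
  · rw [p5, hτ]
  · have e0 : D.B F (oneH N l) = st μ z β F.1 := by
      rw [hB]
      show st μ z β (fun U => F.1 (refl U) * 1) = _
      simp only [mul_one]
      obtain ⟨a, b, ha, hF⟩ := F.2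
      exact st_refl μ hm hC h1 hF
    have e1 : N453.OS.corr D F 0 =
        st μ z β (fun U => F.1 (refl U) * F.1 U) - st μ z β F.1 ^ 2 := by
      rw [N453.OS.corr_real, Function.iterate_zero, id, hB, hone, e0]
    have e2 : N453.OS.corr D F 2 =
        st μ z β (fun U => F.1 (refl U) * F.1 (shift (2, 0) U)) - st μ z β F.1 ^ 2 := by
      rw [N453.OS.corr_real, hB, hone, e0, hτ, tauH_iter]
      rfl
    exact p12 F m₂ q (by rw [e1]; exact q0) (by rw [e1, e2]; exact q1) q2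

end

end Pool.Agent.N984.TW
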