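import Mathlib
import Pool.Agent.N453.TW.RP4

/-!
# Link reflection positivity, part 1: two independent halves
-/

open MeasureTheory Matrix Filter
open scoped Topology ENNReal

namespace Pool.Agent.N984.TW

set_option linter.unusedSectionVars false
set_option linter.unusedVariables false

noncomputable section

variable {N l : ℕ} [NeZero N] [NeZero l]

/-- Reflection in the hyperplane `x₀ = -1/2`. -/
def reflL (U : Pl → Fib N l) : Pl → Fib N l := refl (shift (-1, 0) U)

namespace RL

open RP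

/-- the reflection of the sites where links in direction `i` start -/
def rhoL (i : Fin 4) (X : Pl) : Pl := if i = 0 then (-X.1 - 2, X.2) else (-X.1 - 1, X.2)

lemma rhoL_rhoL (i : Fin 4) (X : Pl) : rhoL i (rhoL i X) = X := by
  unfold rhoL
  split_ifs
  · ext
    · show -(-X.1 - 2) - 2 = X.1
      ring
    · rfl
  · ext
    · show -(-X.1 - 1) - 1 = X.1
      ring
    · rfl

lemma rhoL_inj (i : Fin 4) : Function.Injective (rhoL i) := fun a b h => by
  rw [← rhoL_rhoL i a, h, rhoL_rhoL]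

lemma reflL_apply (U : Pl → Fib N l) (X : Pl) (p : Tor l × Fin 4) :
    reflL U X p = if p.2 = 0 then (U (rhoL p.2 X) p)⁻¹ else U (rhoL p.2 X) p := by
  unfold reflL
  rw [refl_apply]
  have e : rho p.2 X + ((-1, 0) : Pl) = rhoL p.2 X := by
    unfold rho rhoL
    by_cases h : p.2 = 0
    · rw [if_pos h, if_pos h]
      ext
      · show -X.1 - 1 + -1 = -X.1 - 2
        ring
      · show X.2 + 0 = X.2
        ring
    · rw [if_neg h, if_neg h]
      ext
      · show -X.1 + -1 = -X.1 - 1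
        ring
      · show X.2 + 0 = X.2
        ring
  show (if p.2 = 0 then (U (rho p.2 X + (-1, 0)) p)⁻¹ else U (rho p.2 X + (-1, 0)) p) = _
  rw [e]

lemma reflL_reflL (U : Pl → Fib N l) : reflL (reflL U) = U := by
  funext X p
  rw [reflL_apply]
  by_cases h : p.2 = 0
  · rw [if_pos h, reflL_apply, if_pos h, rhoL_rhoL, inv_inv]
  · rw [if_neg h, reflL_apply, if_neg h, rhoL_rhoL]

/-- the class of a link -/
def kapL (j : Lk l) : Fin 3 := if 0 ≤ j.1.1 then 1 else 2

/-- the link from which the variable comes -/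
def tauL (j : Lk l) : Lk l := if kapL j = 2 then (rhoL j.2.2 j.1, j.2) else j

/-- inversion or not -/
def ffL (j : Lk l) : SU N → SU N :=
  if kapL j = 2 ∧ j.2.2 = 0 then (fun x => x⁻¹) else id

/-- two independent configurations glued together -/
def TTL (w : (Lk l → SU N) × (Lk l → SU N) × (Lk l → SU N)) : Lk l → SU N := fun j =>
  ffL j (if kapL j = 0 then w.1 (tauL j) else if kapL j = 1 then w.2.1 (tauL j)
    else w.2.2 (tauL j))

lemma kapL_two {j : Lk l} : kapL j = 2 ↔ j.1.1 < 0 := by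
  unfold kapL
  split_ifs with h1
  · simp only [Fin.reduceEq, false_iff]; omega
  · simp only [true_iff]; omega

variable [MeasurableSpace (SU N)] [BorelSpace (SU N)] (μ : Measure (SU N))
  [IsProbabilityMeasure μ] [μ.IsMulLeftInvariant] [μ.IsMulRightInvariant]

lemma TTL_mp : MeasurePreserving (TTL (N := N) (l := l))
    ((Pw μ).prod ((Pw μ).prod (Pw μ))) (Pw μ) := by
  refine mp_three μ tauL kapL (fun j j' h1 h2 => ?_) ffL fun j => ?_
  · unfold tauL at h2
    rw [← h1] at h2
    by_cases h3 : kapL j = 2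
    · rw [if_pos h3, if_pos h3] at h2
      obtain ⟨h4, h5⟩ := Prod.mk.inj h2
      rw [h5] at h4
      exact Prod.ext (rhoL_inj _ h4) h5
    · rw [if_neg h3, if_neg h3] at h2
      exact h2
  · unfold ffL
    split_ifs
    · exact inv_mp μ
    · exact MeasurePreserving.id μ

lemma right_cfL {L : ℕ} {c d : ℤ} {G : (Pl → Fib N l) → ℝ}
    (hdep : DepOn G (Finset.Icc (0, c) ((L : ℤ), d)))
    (w : (Lk l → SU N) × (Lk l → SU N) × (Lk l → SU N)) :
    G (cf (TTL w)) = G (cf w.2.1) := by
  refine hdep _ _ fun X p hX _ => ?_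
  rw [mem_box] at hX
  have h0 : 0 ≤ X.1 := hX.1
  have hk : ¬ kapL ((X, p) : Lk l) = 2 := by
    rw [kapL_two]
    show ¬ X.1 < 0
    omega
  have hk1 : kapL ((X, p) : Lk l) = 1 := by unfold kapL; rw [if_pos h0]
  show TTL w (X, p) = w.2.1 (X, p)
  have e1 : tauL ((X, p) : Lk l) = (X, p) := by unfold tauL; rw [if_neg hk]
  have e2 : ffL (N := N) ((X, p) : Lk l) = id := by
    unfold ffL
    rw [if_neg fun h => hk h.1]
  unfold TTL
  rw [e1, e2, hk1, if_neg (by decide), if_pos rfl]
  rfl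

lemma left_cfL {L : ℕ} {c d : ℤ} {G : (Pl → Fib N l) → ℝ}
    (hdep : DepOn G (Finset.Icc (0, c) ((L : ℤ), d)))
    (w : (Lk l → SU N) × (Lk l → SU N) × (Lk l → SU N)) :
    G (reflL (cf (TTL w))) = G (cf w.2.2) := by
  refine hdep _ _ fun X p hX _ => ?_
  rw [mem_box] at hX
  have h0 : 0 ≤ X.1 := hX.1
  rw [reflL_apply]
  show (if p.2 = 0 then (TTL w (rhoL p.2 X, p))⁻¹ else TTL w (rhoL p.2 X, p)) = w.2.2 (X, p)
  have hk : kapL ((rhoL p.2 X, p) : Lk l) = 2 := by
    rw [kapL_two]
    show (rhoL p.2 X).1 < 0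
    unfold rhoL
    split_ifs
    · show -X.1 - 2 < 0
      omega
    · show -X.1 - 1 < 0
      omega
  have e1 : tauL ((rhoL p.2 X, p) : Lk l) = (X, p) := by
    unfold tauL
    rw [if_pos hk]
    show (rhoL p.2 (rhoL p.2 X), p) = (X, p)
    rw [rhoL_rhoL]
  by_cases hp : p.2 = 0
  · rw [if_pos hp]
    have e2 : ffL (N := N) ((rhoL p.2 X, p) : Lk l) = fun x => x⁻¹ := by
      unfold ffL
      rw [if_pos ⟨hk, hp⟩]
    unfold TTL
    rw [e1, e2, hk, if_neg (by decide), if_neg (by decide), inv_inv]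
  · rw [if_neg hp]
    have e2 : ffL (N := N) ((rhoL p.2 X, p) : Lk l) = id := by
      unfold ffL
      rw [if_neg fun h => hp h.2]
    unfold TTL
    rw [e1, e2, hk, if_neg (by decide), if_neg (by decide)]
    rfl

lemma reflL_meas : Measurable (reflL : (Pl → Fib N l) → Pl → Fib N l) :=
  refl_meas.comp (shift_meas _)

/-- positivity for functions of the right half, without interaction -/
theorem rpL_core {L : ℕ} {c d : ℤ} {G : (Pl → Fib N l) → ℝ} (hG : Measurable G)
    (hb : ∃ M : ℝ, ∀ U, |G U| ≤ M) (hdep : DepOn G (Finset.Icc (0, c) ((L : ℤ), d))) :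
    0 ≤ ∫ w, G (reflL (cf w)) * G (cf w) ∂(Pw (l := l) μ) := by
  obtain ⟨M, hM⟩ := hb
  have hmeas : Measurable fun w : Lk l → SU N => G (reflL (cf w)) * G (cf w) :=
    ((hG.comp reflL_meas).comp cf_meas).mul (hG.comp cf_meas)
  have h1 : ∫ w, G (reflL (cf w)) * G (cf w) ∂(Pw (l := l) μ) =
      ∫ w, G (cf w.2.1) * G (cf w.2.2)
        ∂((Pw (l := l) μ).prod ((Pw (l := l) μ).prod (Pw (l := l) μ))) := by
    conv_lhs => rw [← (TTL_mp (l := l) μ).map_eq]
    rw [integral_map (TTL_mp (l := l) μ).aemeasurable hmeas.aestronglyMeasurable]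
    refine integral_congr_ae (Filter.Eventually.of_forall fun w => ?_)
    show G (reflL (cf (TTL w))) * G (cf (TTL w)) = _
    rw [right_cfL hdep, left_cfL hdep, mul_comm]
  have hm1 : Measurable fun w : (Lk l → SU N) × (Lk l → SU N) × (Lk l → SU N) =>
      G (cf w.2.1) * G (cf w.2.2) := by
    refine Measurable.mul ?_ ?_
    · exact hG.comp (cf_meas.comp (measurable_fst.comp measurable_snd))
    · exact hG.comp (cf_meas.comp (measurable_snd.comp measurable_snd))
  have hint : Integrable (fun w : (Lk l → SU N) × (Lk l → SU N) × (Lk l → SU N) =>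
      G (cf w.2.1) * G (cf w.2.2))
      ((Pw (l := l) μ).prod ((Pw (l := l) μ).prod (Pw (l := l) μ))) := by
    refine Integrable.of_bound hm1.aestronglyMeasurable (M * M)
      (Filter.Eventually.of_forall fun w => ?_)
    rw [Real.norm_eq_abs, abs_mul]
    exact mul_le_mul (hM _) (hM _) (abs_nonneg _) ((abs_nonneg _).trans (hM (cf w.2.1)))
  rw [h1, integral_prod _ hint]
  refine integral_nonneg fun w₀ => ?_
  show 0 ≤ ∫ y : (Lk l → SU N) × (Lk l → SU N), G (cf y.1) * G (cf y.2)
    ∂((Pw (l := l) μ).prod (Pw (l := l) μ))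
  rw [integral_prod_mul (fun y => G (cf y)) fun y => G (cf y)]
  exact mul_self_nonneg _

/-- positivity with a polynomial interaction -/
theorem rpL_pow {L : ℕ} {c d : ℤ} {κ : Type*} (K : Finset κ) (v : κ → (Pl → Fib N l) → ℝ)
    (hv : ∀ k, Measurable (v k)) (hvb : ∀ k, ∃ M : ℝ, ∀ U, |v k U| ≤ M)
    (hvd : ∀ k, DepOn (v k) (Finset.Icc (0, c) ((L : ℤ), d))) (n : ℕ) :
    ∀ {G : (Pl → Fib N l) → ℝ}, Measurable G → (∃ M : ℝ, ∀ U, |G U| ≤ M) →
      DepOn G (Finset.Icc (0, c) ((L : ℤ), d)) →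
      0 ≤ ∫ w, G (reflL (cf w)) * G (cf w) *
        (∑ k ∈ K, v k (reflL (cf w)) * v k (cf w)) ^ n ∂(Pw (l := l) μ) := by
  -- bound of the interaction
  choose Mv hMv using hvb
  have hSm : Measurable fun w : Lk l → SU N => ∑ k ∈ K, v k (reflL (cf w)) * v k (cf w) :=
    Finset.measurable_sum _ fun k _ =>
      (((hv k).comp reflL_meas).comp cf_meas).mul ((hv k).comp cf_meas)
  have hSb : ∀ w : Lk l → SU N, |∑ k ∈ K, v k (reflL (cf w)) * v k (cf w)| ≤
      ∑ k ∈ K, Mv k * Mv k := by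
    intro w
    refine (Finset.abs_sum_le_sum_abs _ _).trans (Finset.sum_le_sum fun k _ => ?_)
    rw [abs_mul]
    exact mul_le_mul (hMv k _) (hMv k _) (abs_nonneg _) ((abs_nonneg _).trans (hMv k (cf w)))
  induction n with
  | zero =>
    intro G hG hGb hGd
    simp only [pow_zero, mul_one]
    exact rpL_core μ hG hGb hGd
  | succ n ih =>
    intro G hG hGb hGd
    have h1 : ∀ w : Lk l → SU N, G (reflL (cf w)) * G (cf w) *
        (∑ k ∈ K, v k (reflL (cf w)) * v k (cf w)) ^ (n + 1) =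
        ∑ k ∈ K, (G (reflL (cf w)) * v k (reflL (cf w))) * (G (cf w) * v k (cf w)) *
          (∑ k ∈ K, v k (reflL (cf w)) * v k (cf w)) ^ n := by
      intro w
      rw [pow_succ, ← mul_assoc, Finset.mul_sum]
      refine Finset.sum_congr rfl fun k _ => by ring
    have hb2 : ∀ k, ∃ M : ℝ, ∀ U, |G U * v k U| ≤ M := by
      intro k
      obtain ⟨M, hM⟩ := hGb
      refine ⟨M * Mv k, fun U => ?_⟩
      rw [abs_mul]
      exact mul_le_mul (hM U) (hMv k U) (abs_nonneg _) ((abs_nonneg _).trans (hM U))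
    have hm2 : ∀ k, Measurable fun U => G U * v k U := fun k => hG.mul (hv k)
    have hd2 : ∀ k, DepOn (fun U => G U * v k U) (Finset.Icc (0, c) ((L : ℤ), d)) := by
      intro k U U' h
      show G U * v k U = G U' * v k U'
      rw [hGd U U' h, hvd k U U' h]
    simp only [h1]
    rw [integral_finsetSum]
    · exact Finset.sum_nonneg fun k _ => ih (hm2 k) (hb2 k) (hd2 k)
    · intro k _
      obtain ⟨M, hM⟩ := hb2 k
      refine Integrable.of_bound ((((hm2 k).comp reflL_meas).comp cf_meas).mul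
        ((hm2 k).comp cf_meas)|>.mul (hSm.pow_const n)).aestronglyMeasurable
        (M * M * (∑ k ∈ K, Mv k * Mv k) ^ n) (Filter.Eventually.of_forall fun w => ?_)
      rw [Real.norm_eq_abs]
      show |(G (reflL (cf w)) * v k (reflL (cf w))) * (G (cf w) * v k (cf w)) *
          (∑ k ∈ K, v k (reflL (cf w)) * v k (cf w)) ^ n| ≤ _
      rw [abs_mul, abs_mul, abs_pow]
      have hM0 : 0 ≤ M := (abs_nonneg _).trans (hM (cf w))
      exact mul_le_mul (mul_le_mul (hM _) (hM _) (abs_nonneg _) hM0)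
        (pow_le_pow_left₀ (abs_nonneg _) (hSb w) n) (by positivity) (by positivity)

/-- positivity with an exponential interaction -/
theorem rpL_exp {L : ℕ} {c d : ℤ} {κ : Type*} (K : Finset κ) (v : κ → (Pl → Fib N l) → ℝ)
    (hv : ∀ k, Measurable (v k)) (hvb : ∀ k, ∃ M : ℝ, ∀ U, |v k U| ≤ M)
    (hvd : ∀ k, DepOn (v k) (Finset.Icc (0, c) ((L : ℤ), d))) {β : ℝ} (hβ : 0 ≤ β)
    {G : (Pl → Fib N l) → ℝ} (hG : Measurable G) (hGb : ∃ M : ℝ, ∀ U, |G U| ≤ M)
    (hGd : DepOn G (Finset.Icc (0, c) ((L : ℤ), d))) :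
    0 ≤ ∫ w, G (reflL (cf w)) * G (cf w) *
        Real.exp (β * ∑ k ∈ K, v k (reflL (cf w)) * v k (cf w)) ∂(Pw (l := l) μ) := by
  choose Mv hMv using hvb
  obtain ⟨M, hM⟩ := hGb
  set S : (Lk l → SU N) → ℝ := fun w => ∑ k ∈ K, v k (reflL (cf w)) * v k (cf w) with hS
  have hSm : Measurable S := Finset.measurable_sum _ fun k _ =>
      (((hv k).comp reflL_meas).comp cf_meas).mul ((hv k).comp cf_meas)
  set B : ℝ := ∑ k ∈ K, Mv k * Mv k with hB
  have hSb : ∀ w : Lk l → SU N, |S w| ≤ B := by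
    intro w
    refine (Finset.abs_sum_le_sum_abs _ _).trans (Finset.sum_le_sum fun k _ => ?_)
    rw [abs_mul]
    exact mul_le_mul (hMv k _) (hMv k _) (abs_nonneg _) ((abs_nonneg _).trans (hMv k (cf w)))
  have hg : Measurable fun w : Lk l → SU N => G (reflL (cf w)) * G (cf w) :=
    ((hG.comp reflL_meas).comp cf_meas).mul (hG.comp cf_meas)
  have hlim : Tendsto (fun n : ℕ => ∫ w, G (reflL (cf w)) * G (cf w) *
      (∑ m ∈ Finset.range n, (β * S w) ^ m / (m.factorial : ℝ)) ∂(Pw (l := l) μ)) atTop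
      (𝓝 (∫ w, G (reflL (cf w)) * G (cf w) * Real.exp (β * S w) ∂(Pw (l := l) μ))) := by
    refine tendsto_integral_of_dominated_convergence
      (fun _ => M * M * Real.exp (β * B)) ?_ (integrable_const _) ?_ ?_
    · intro n
      refine (hg.mul (Finset.measurable_sum _ fun m _ => ?_)).aestronglyMeasurable
      exact ((hSm.const_mul β).pow_const m).div_const _
    · intro n
      refine Filter.Eventually.of_forall fun w => ?_
      rw [Real.norm_eq_abs, abs_mul, abs_mul]
      have hM0 : 0 ≤ M := (abs_nonneg _).trans (hM (cf w))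
      refine mul_le_mul (mul_le_mul (hM _) (hM _) (abs_nonneg _) hM0) ?_ (abs_nonneg _)
        (by positivity)
      refine (Finset.abs_sum_le_sum_abs _ _).trans ?_
      have h3 : ∀ m ∈ Finset.range n, |(β * S w) ^ m / (m.factorial : ℝ)| =
          |β * S w| ^ m / (m.factorial : ℝ) := by
        intro m _
        rw [abs_div, abs_pow, Nat.abs_cast]
      rw [Finset.sum_congr rfl h3]
      refine (Real.sum_le_exp_of_nonneg (abs_nonneg _) n).trans (Real.exp_le_exp.2 ?_)
      rw [abs_mul, abs_of_nonneg hβ]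
      exact mul_le_mul_of_nonneg_left (hSb w) hβ
    · refine Filter.Eventually.of_forall fun w => ?_
      refine Tendsto.const_mul _ ?_
      have := (NormedSpace.expSeries_div_hasSum_exp (𝔸 := ℝ) (β * S w)).tendsto_sum_nat
      rw [← Real.exp_eq_exp_ℝ] at this
      exact this
  refine ge_of_tendsto' hlim fun n => ?_
  have h4 : ∀ w : Lk l → SU N, G (reflL (cf w)) * G (cf w) *
      (∑ m ∈ Finset.range n, (β * S w) ^ m / (m.factorial : ℝ)) =
      ∑ m ∈ Finset.range n, (β ^ m / (m.factorial : ℝ)) *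
        (G (reflL (cf w)) * G (cf w) * (S w) ^ m) := by
    intro w
    rw [Finset.mul_sum]
    refine Finset.sum_congr rfl fun m _ => by rw [mul_pow]; ring
  simp only [h4]
  rw [integral_finsetSum]
  · refine Finset.sum_nonneg fun m _ => ?_
    rw [integral_const_mul]
    refine mul_nonneg (by positivity) ?_
    exact rpL_pow μ K v hv (fun k => ⟨Mv k, hMv k⟩) hvd m hG ⟨M, hM⟩ hGd
  · intro m _
    refine Integrable.const_mul ?_ _
    refine Integrable.of_bound (hg.mul (hSm.pow_const m)).aestronglyMeasurable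
      (M * M * B ^ m) (Filter.Eventually.of_forall fun w => ?_)
    rw [Real.norm_eq_abs, abs_mul, abs_mul, abs_pow]
    have hM0 : 0 ≤ M := (abs_nonneg _).trans (hM (cf w))
    exact mul_le_mul (mul_le_mul (hM _) (hM _) (abs_nonneg _) hM0)
      (pow_le_pow_left₀ (abs_nonneg _) (hSb w) m) (by positivity) (by positivity)

end RL

end

end Pool.Agent.N984.TW
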