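import Mathlib
import Pool.Agent.N453.TW.RL1
import Pool.Agent.N453.TW.RP5

/-!
# Link reflection positivity, part 2: temporal gauge on the crossing links
-/

open MeasureTheory Matrix Filter
open scoped Topology ENNReal Matrix.Norms.Frobenius
open Pool.Agent.H906R3.YM Pool.Agent.W793.YM Pool.Agent.TH618.YM

namespace Pool.Agent.N984.TW

set_option linter.unusedSectionVars false
set_option linter.unusedVariables false

noncomputable section

variable {N l : ℕ} [NeZero N] [NeZero l]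

namespace RL

open RP

/-! ### gauge fixing -/

/-- the crossing links -/
def crs (j : Lk l) : Prop := j.1.1 = -1 ∧ j.2.2 = 0

instance (j : Lk l) : Decidable (crs j) := inferInstanceAs (Decidable (_ ∧ _))

/-- crossing links from `w₀`, the other links from `w₁` -/
def comb (w₀ w₁ : Lk l → SU N) : Lk l → SU N := fun j => if crs j then w₀ j else w₁ j

/-- the gauge transformation -/
def hh (w₀ : Lk l → SU N) : Pl → Tor l → SU N := fun X y =>
  if X.1 = 0 then w₀ ((-1, X.2), (y, 0)) else 1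

/-- the gauge transformation of a function on the links -/
def gw (h : Pl → Tor l → SU N) (w : Lk l → SU N) : Lk l → SU N := fun j =>
  h j.1 j.2.1 * w j * (h (j.1 + eP j.2.2) (j.2.1 + eT l j.2.2))⁻¹

lemma gt_comb (w₀ w₁ : Lk l → SU N) :
    gt (hh w₀) (cf (comb w₀ w₁)) = cf (comb 1 (gw (hh w₀) w₁)) := by
  funext X p
  obtain ⟨y, i⟩ := p
  show hh w₀ X y * comb w₀ w₁ (X, (y, i)) * (hh w₀ (X + eP i) (y + eT l i))⁻¹ =
    comb 1 (gw (hh w₀) w₁) (X, (y, i))
  unfold comb
  by_cases h : crs ((X, (y, i)) : Lk l)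
  · rw [if_pos h, if_pos h]
    obtain ⟨h1, h2⟩ := h
    have h1' : X.1 = -1 := h1
    have h2' : i = 0 := h2
    subst h2'
    have e1 : hh w₀ X y = 1 := by
      unfold hh
      rw [if_neg (by rw [h1']; decide)]
    have e2 : hh w₀ (X + eP 0) (y + eT l 0) = w₀ (X, (y, 0)) := by
      unfold hh
      rw [if_pos (by show X.1 + 1 = 0; omega)]
      have e3 : (((-1 : ℤ), (X + eP 0).2) : Pl) = X := by
        ext
        · exact h1'.symm
        · show X.2 + 0 = X.2
          ring
      have e4 : y + eT l 0 = y := by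
        show y + 0 = y
        rw [add_zero]
      rw [e3, e4]
    rw [e1, e2, one_mul, mul_inv_cancel]
    rfl
  · rw [if_neg h, if_neg h]
    rfl

variable [MeasurableSpace (SU N)] [BorelSpace (SU N)] (μ : Measure (SU N))
  [IsProbabilityMeasure μ] [μ.IsMulLeftInvariant] [μ.IsMulRightInvariant]

lemma gw_mp (h : Pl → Tor l → SU N) : MeasurePreserving (gw h) (Pw (l := l) μ) (Pw μ) :=
  mp_reindex μ (fun j : Lk l => j) (fun a b hab => hab)
    (fun j x => h j.1 j.2.1 * x * (h (j.1 + eP j.2.2) (j.2.1 + eT l j.2.2))⁻¹) fun j =>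
    (measurePreserving_mul_right μ _).comp (measurePreserving_mul_left μ _)

/-- the class of a link -/
def kapC (j : Lk l) : Fin 3 := if crs j then 0 else 1

/-- three copies -/
def TTC (w : (Lk l → SU N) × (Lk l → SU N) × (Lk l → SU N)) : Lk l → SU N := fun j =>
  id (if kapC j = 0 then w.1 (id j) else if kapC j = 1 then w.2.1 (id j) else w.2.2 (id j))

lemma TTC_mp : MeasurePreserving (TTC (N := N) (l := l))
    ((Pw μ).prod ((Pw μ).prod (Pw μ))) (Pw μ) :=
  mp_three μ id kapC (fun j j' _ h2 => h2) (fun _ => id) fun _ => MeasurePreserving.id μ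

lemma TTC_eq (w : (Lk l → SU N) × (Lk l → SU N) × (Lk l → SU N)) :
    TTC w = comb w.1 w.2.1 := by
  funext j
  unfold TTC comb kapC
  by_cases h : crs j
  · simp [h]
  · simp [h]

lemma comb_meas : Measurable fun w : (Lk l → SU N) × (Lk l → SU N) => comb w.1 w.2 := by
  refine measurable_pi_lambda _ fun j => ?_
  unfold comb
  split_ifs
  · exact (measurable_pi_apply j).comp measurable_fst
  · exact (measurable_pi_apply j).comp measurable_snd

/-- **temporal gauge on the crossing links** -/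
theorem gauge_fix {Φ : (Pl → Fib N l) → ℝ} (hΦ : Measurable Φ) (hb : ∃ M : ℝ, ∀ U, |Φ U| ≤ M)
    (hg : GaugeInv Φ) :
    ∫ w, Φ (cf w) ∂(Pw (l := l) μ) = ∫ w, Φ (cf (comb 1 w)) ∂(Pw (l := l) μ) := by
  obtain ⟨M, hM⟩ := hb
  have hmeas : Measurable fun w : Lk l → SU N => Φ (cf w) := hΦ.comp cf_meas
  have h1 : ∫ w, Φ (cf w) ∂(Pw (l := l) μ) =
      ∫ w, Φ (cf (comb w.1 w.2.1))
        ∂((Pw (l := l) μ).prod ((Pw (l := l) μ).prod (Pw (l := l) μ))) := by
    conv_lhs => rw [← (TTC_mp (l := l) μ).map_eq]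
    rw [integral_map (TTC_mp (l := l) μ).aemeasurable hmeas.aestronglyMeasurable]
    refine integral_congr_ae (Filter.Eventually.of_forall fun w => ?_)
    show Φ (cf (TTC w)) = _
    rw [TTC_eq]
  have hm1 : Measurable fun w : (Lk l → SU N) × (Lk l → SU N) × (Lk l → SU N) =>
      Φ (cf (comb w.1 w.2.1)) :=
    hΦ.comp (cf_meas.comp (comb_meas.comp
      (measurable_fst.prodMk (measurable_fst.comp measurable_snd))))
  have hint : Integrable (fun w : (Lk l → SU N) × (Lk l → SU N) × (Lk l → SU N) =>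
      Φ (cf (comb w.1 w.2.1)))
      ((Pw (l := l) μ).prod ((Pw (l := l) μ).prod (Pw (l := l) μ))) :=
    Integrable.of_bound hm1.aestronglyMeasurable M
      (Filter.Eventually.of_forall fun w => by rw [Real.norm_eq_abs]; exact hM _)
  rw [h1, integral_prod _ hint]
  have h2 : ∀ w₀ : Lk l → SU N, ∫ y : (Lk l → SU N) × (Lk l → SU N), Φ (cf (comb w₀ y.1))
      ∂((Pw (l := l) μ).prod (Pw (l := l) μ)) = ∫ w, Φ (cf (comb 1 w)) ∂(Pw (l := l) μ) := by
    intro w₀
    have hm2 : Measurable fun w : Lk l → SU N => Φ (cf (comb w₀ w)) :=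
      hΦ.comp (cf_meas.comp (comb_meas.comp (measurable_const.prodMk measurable_id)))
    have hm3 : Measurable fun w : Lk l → SU N => Φ (cf (comb 1 w)) :=
      hΦ.comp (cf_meas.comp (comb_meas.comp (measurable_const.prodMk measurable_id)))
    have h3 : ∫ y : (Lk l → SU N) × (Lk l → SU N), Φ (cf (comb w₀ y.1))
        ∂((Pw (l := l) μ).prod (Pw (l := l) μ)) = ∫ w, Φ (cf (comb w₀ w)) ∂(Pw (l := l) μ) := by
      have h4 := (measurePreserving_fst (μ := Pw (N := N) (l := l) μ) (ν := Pw (l := l) μ))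
      conv_rhs => rw [← h4.map_eq]
      rw [integral_map h4.aemeasurable hm2.aestronglyMeasurable]
    rw [h3]
    have h5 : ∀ w, Φ (cf (comb w₀ w)) = Φ (cf (comb 1 (gw (hh w₀) w))) := by
      intro w
      rw [← gt_comb, hg]
    simp only [h5]
    have h6 := gw_mp (l := l) μ (hh w₀)
    conv_rhs => rw [← h6.map_eq]
    rw [integral_map h6.aemeasurable hm3.aestronglyMeasurable]
  simp only [h2]
  rw [integral_const, probReal_univ, one_smul]

/-! ### the crossing plaquettes -/

/-- the interaction index of the crossing plaquettes -/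
abbrev KI (N l : ℕ) := Pl × Tor l × Fin 4 × Fin N × Fin N × Bool

/-- the condition for a crossing plaquette -/
def cnd (Λ : Finset Pl) (X : Pl) (j : Fin 4) : Prop :=
  X.1 = -1 ∧ 0 < j ∧ X + eP 0 ∈ Λ ∧ X + eP j ∈ Λ ∧ X + eP 0 + eP j ∈ Λ

instance (Λ : Finset Pl) (X : Pl) (j : Fin 4) : Decidable (cnd Λ X j) :=
  inferInstanceAs (Decidable (_ ∧ _))

/-- real part or imaginary part -/
def reim (e : Bool) (x : ℂ) : ℝ := if e then x.re else x.im

/-- the components of the link variables on the right side of the crossing plaquettes -/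
def vv (Λ : Finset Pl) (k : KI N l) (U : Pl → Fib N l) : ℝ :=
  if cnd Λ k.1 k.2.2.1 then
    reim k.2.2.2.2.2 (mt (U (k.1 + eP 0) (k.2.1, k.2.2.1)) k.2.2.2.1 k.2.2.2.2.1) else 0

/-- the index set -/
def KK' (Λ : Finset Pl) : Finset (KI N l) := Λ ×ˢ Finset.univ

lemma reim_abs (e : Bool) (x : ℂ) : |reim e x| ≤ ‖x‖ := by
  unfold reim
  split_ifs
  · exact Complex.abs_re_le_norm x
  · exact Complex.abs_im_le_norm x

lemma vv_meas (Λ : Finset Pl) (k : KI N l) : Measurable (vv Λ k : (Pl → Fib N l) → ℝ) := by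
  unfold vv
  by_cases h : cnd Λ k.1 k.2.2.1
  · simp only [h, if_true]
    have h1 : Continuous fun U : Pl → Fib N l =>
        mt (U (k.1 + eP 0) (k.2.1, k.2.2.1)) k.2.2.2.1 k.2.2.2.2.1 := by
      have : Continuous fun U : Pl → Fib N l => mt (U (k.1 + eP 0) (k.2.1, k.2.2.1)) :=
        mt_cont.comp ((continuous_apply _).comp (continuous_apply _))
      exact this.matrix_elem _ _
    unfold reim
    split_ifs
    · exact (Complex.continuous_re.comp h1).measurable
    · exact (Complex.continuous_im.comp h1).measurable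
  · simp only [h, if_false]
    exact measurable_const

lemma vv_bdd (Λ : Finset Pl) (k : KI N l) (U : Pl → Fib N l) : |vv Λ k U| ≤ 1 := by
  unfold vv
  split_ifs
  · exact (reim_abs _ _).trans (entry_norm_bound_of_unitary
      (U (k.1 + eP 0) (k.2.1, k.2.2.1) : Matrix.unitaryGroup (Fin N) ℂ).2 _ _)
  · rw [abs_zero]; exact zero_le_one

lemma vv_dep (L : ℕ) (c d : ℤ) (k : KI N l) :
    DepOn (vv (Finset.Icc (-1 - (L : ℤ), c) ((L : ℤ), d)) k : (Pl → Fib N l) → ℝ)
      (Finset.Icc (0, c) ((L : ℤ), d)) := by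
  intro U U' hU
  unfold vv
  by_cases h : cnd (Finset.Icc (-1 - (L : ℤ), c) ((L : ℤ), d)) k.1 k.2.2.1
  · rw [if_pos h, if_pos h]
    obtain ⟨h1, h2, h3, h4, h5⟩ := h
    have e : U (k.1 + eP 0) (k.2.1, k.2.2.1) = U' (k.1 + eP 0) (k.2.1, k.2.2.1) := by
      refine hU _ _ ?_ ?_
      · rw [mem_box] at h3 ⊢
        refine ⟨?_, h3.2.1, h3.2.2.1, h3.2.2.2⟩
        show (0 : ℤ) ≤ k.1.1 + 1
        omega
      · rw [mem_box] at h5 ⊢
        refine ⟨?_, h5.2.1, h5.2.2.1, h5.2.2.2⟩
        show (0 : ℤ) ≤ k.1.1 + 1 + (eP k.2.2.1).1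
        have : 0 ≤ (eP k.2.2.1).1 := by
          generalize k.2.2.1 = i
          fin_cases i <;> decide
        omega
    rw [e]
  · rw [if_neg h, if_neg h]

lemma vv_reflL (Λ : Finset Pl) (k : KI N l) (U : Pl → Fib N l) (h : cnd Λ k.1 k.2.2.1) :
    vv Λ k (reflL U) =
      reim k.2.2.2.2.2 (mt (U k.1 (k.2.1, k.2.2.1)) k.2.2.2.1 k.2.2.2.2.1) := by
  unfold vv
  rw [if_pos h, reflL_apply]
  have hj : k.2.2.1 ≠ 0 := h.2.1.ne'
  rw [if_neg hj]
  have e : rhoL (k.2.1, k.2.2.1).2 (k.1 + eP 0) = k.1 := by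
    unfold rhoL
    rw [if_neg hj]
    ext
    · show -(k.1.1 + 1) - 1 = k.1.1
      have := h.1
      omega
    · show k.1.2 + 0 = k.1.2
      ring
  rw [e]

lemma re_mul_conj_sum (x y : ℂ) : (x * star y).re = ∑ e : Bool, reim e x * reim e y := by
  rw [Fintype.sum_bool]
  simp only [reim, if_true, Bool.false_eq_true, if_false, Complex.star_def, Complex.mul_re,
    Complex.conj_re, Complex.conj_im]
  ring

lemma trace_sum (A B : SU N) : (trace (mt (A * B⁻¹))).re =
    ∑ a : Fin N, ∑ b : Fin N, ∑ e : Bool, reim e (mt A a b) * reim e (mt B a b) := by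
  have h1 : mt (A * B⁻¹) = mt A * (mt B)ᴴ := rfl
  rw [h1]
  unfold Matrix.trace
  rw [Complex.re_sum]
  refine Finset.sum_congr rfl fun a _ => ?_
  rw [Matrix.diag_apply, Matrix.mul_apply, Complex.re_sum]
  refine Finset.sum_congr rfl fun b _ => ?_
  rw [Matrix.conjTranspose_apply]
  exact re_mul_conj_sum _ _

/-- the weights of the crossing plaquettes -/
def sC (X : Pl) (i : Fin 4) : ℝ := if X.1 = -1 ∧ i = 0 then 1 else 0

/-- the energy of a crossing plaquette in the temporal gauge -/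
lemma pe_cross (z : ℂ) (w : Lk l → SU N) (X : Pl) (y : Tor l) (j : Fin 4) (hX : X.1 = -1)
    (hj : 0 < j) : pe z (cf (comb 1 w)) X y 0 j =
      N - ∑ a : Fin N, ∑ b : Fin N, ∑ e : Bool,
        reim e (mt (cf (comb 1 w) (X + eP 0) (y, j)) a b) *
          reim e (mt (cf (comb 1 w) X (y, j)) a b) := by
  rw [← trace_sum]
  have hj0 : (eP j).1 = 0 := by
    fin_cases j <;> first | (exfalso; exact absurd hj (by decide)) | rfl
  have ht : tw z y 0 j = 1 := by
    unfold tw
    rw [if_neg]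
    rintro ⟨h, -⟩
    exact absurd h (by decide)
  have hc : ∀ (X' : Pl) (y' : Tor l), X'.1 = -1 → cf (comb 1 w) X' (y', 0) = 1 := by
    intro X' y' h
    show comb 1 w (X', (y', 0)) = 1
    unfold comb
    rw [if_pos ⟨h, rfl⟩]
    rfl
  have hp : plaq (cf (comb 1 w)) X y 0 j =
      cf (comb 1 w) (X + eP 0) (y, j) * (cf (comb 1 w) X (y, j))⁻¹ := by
    unfold plaq
    rw [hc X y hX, hc (X + eP j) (y + eT l j) (by show X.1 + (eP j).1 = -1; rw [hj0, hX]; rfl),
      one_mul, inv_one, mul_one]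
    have e4 : y + eT l 0 = y := by
      show y + 0 = y
      rw [add_zero]
    rw [e4]
  show (N : ℝ) - (star (tw z y 0 j) * trace (mt (plaq (cf (comb 1 w)) X y 0 j))).re = _
  rw [ht, star_one, one_mul, hp]

/-- **the action of the crossing plaquettes in the temporal gauge** -/
theorem wact_cross (z : ℂ) (Λ : Finset Pl) : ∃ C : ℝ, ∀ w : Lk l → SU N,
    wact z Λ sC (cf (comb 1 w)) = C -
      ∑ k ∈ KK' Λ, vv Λ k (reflL (cf (comb 1 w))) * vv Λ k (cf (comb 1 w)) := by
  classical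
  refine ⟨∑ X ∈ Λ, ∑ y : Tor l, ∑ j : Fin 4, if cnd Λ X j then (N : ℝ) else 0, fun w => ?_⟩
  unfold wact KK'
  rw [Finset.sum_product, ← Finset.sum_sub_distrib]
  refine Finset.sum_congr rfl fun X hX => ?_
  rw [Fintype.sum_prod_type (fun k : Tor l × (Fin 4 × Fin N × Fin N × Bool) =>
    vv Λ (X, k) (reflL (cf (comb 1 w))) * vv Λ (X, k) (cf (comb 1 w))), ← Finset.sum_sub_distrib]
  refine Finset.sum_congr rfl fun y _ => ?_
  rw [Fintype.sum_prod_type (fun k : Fin 4 × (Fin N × Fin N × Bool) =>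
    vv Λ (X, (y, k)) (reflL (cf (comb 1 w))) * vv Λ (X, (y, k)) (cf (comb 1 w))),
    ← Finset.sum_sub_distrib, Finset.sum_comm]
  refine Finset.sum_congr rfl fun j _ => ?_
  have h1 : ∀ i : Fin 4, i ≠ 0 → (if i < j ∧ X + eP i ∈ Λ ∧ X + eP j ∈ Λ ∧ X + eP i + eP j ∈ Λ
      then sC X i * pe z (cf (comb 1 w)) X y i j else 0) = 0 := by
    intro i hi
    have : sC X i = 0 := by unfold sC; rw [if_neg fun h => hi h.2]
    rw [this, zero_mul, ite_self]
  rw [Finset.sum_eq_single (0 : Fin 4) (fun i _ hi => h1 i hi)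
    (fun h => absurd (Finset.mem_univ _) h)]
  by_cases hc : cnd Λ X j
  · have hv : ∀ x : Fin N × Fin N × Bool,
        vv Λ (X, y, j, x) (reflL (cf (comb 1 w))) * vv Λ (X, y, j, x) (cf (comb 1 w)) =
        reim x.2.2 (mt (cf (comb 1 w) (X + eP 0) (y, j)) x.1 x.2.1) *
          reim x.2.2 (mt (cf (comb 1 w) X (y, j)) x.1 x.2.1) := by
      intro x
      rw [vv_reflL Λ (X, y, j, x) _ hc, mul_comm]
      congr 1
      unfold vv
      rw [if_pos hc]
    obtain ⟨c1, c2, c3, c4, c5⟩ := hc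
    have hs : sC X 0 = 1 := by unfold sC; rw [if_pos ⟨c1, rfl⟩]
    rw [if_pos ⟨c2, c3, c4, c5⟩, if_pos ⟨c1, c2, c3, c4, c5⟩, hs, one_mul,
      pe_cross z w X y j c1 c2]
    congr 1
    rw [Fintype.sum_prod_type]
    refine Finset.sum_congr rfl fun a _ => ?_
    rw [Fintype.sum_prod_type]
    refine Finset.sum_congr rfl fun b _ => Finset.sum_congr rfl fun e _ => ?_
    exact (hv (a, b, e)).symm
  · have hv : ∀ x : Fin N × Fin N × Bool,
        vv Λ (X, y, j, x) (reflL (cf (comb 1 w))) * vv Λ (X, y, j, x) (cf (comb 1 w)) = 0 := by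
      intro x
      have : vv Λ (X, y, j, x) (cf (comb 1 w)) = 0 := by
        unfold vv
        rw [if_neg hc]
      rw [this, mul_zero]
    rw [if_neg hc, Finset.sum_congr rfl fun x _ => hv x, Finset.sum_const_zero, sub_zero]
    by_cases hX1 : X.1 = -1
    · rw [if_neg]
      exact fun h => hc ⟨hX1, h⟩
    · have : sC X 0 = 0 := by unfold sC; rw [if_neg fun h => hX1 h.1]
      rw [this, zero_mul, ite_self]

end RL

end

end Pool.Agent.N984.TW
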