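import Mathlib
import Pool.Agent.N453.TW.RL2

/-!
# Link reflection positivity, part 3: the theorem
-/

open MeasureTheory Matrix Filter
open scoped Topology ENNReal Matrix.Norms.Frobenius
open Pool.Agent.H906R3.YM Pool.Agent.W793.YM Pool.Agent.TH618.YM

namespace Pool.Agent.N984.TW

set_option linter.unusedSectionVars false
set_option linter.unusedVariables false

noncomputable section

variable {N l : ℕ} [NeZero N] [NeZero l]

namespace RL

open RP

/-- the translation of the weighted action -/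
theorem wact_shift (z : ℂ) (a b v : Pl) (s : Pl → Fin 4 → ℝ) (U : Pl → Fib N l) :
    wact z (Finset.Icc (a - v) (b - v)) s (shift v U) =
      wact z (Finset.Icc a b) (fun X i => s (X - v) i) U := by
  have hmem : ∀ X : Pl, X ∈ Finset.Icc (a - v) (b - v) ↔ X + v ∈ Finset.Icc a b := by
    intro X
    rw [Finset.mem_Icc, Finset.mem_Icc, sub_le_iff_le_add, le_sub_iff_add_le]
  unfold wact
  refine Finset.sum_nbij' (fun X => X + v) (fun X => X - v) ?_ ?_ ?_ ?_ ?_
  · intro X hX
    exact (hmem X).1 hX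
  · intro X hX
    rw [hmem, sub_add_cancel]
    exact hX
  · intro X _
    exact add_sub_cancel_right X v
  · intro X _
    exact sub_add_cancel X v
  · intro X _
    refine Finset.sum_congr rfl fun y _ => Finset.sum_congr rfl fun i _ =>
      Finset.sum_congr rfl fun j _ => ?_
    have e1 : X + eP i + v = X + v + eP i := by abel
    have e2 : X + eP j + v = X + v + eP j := by abel
    have e3 : X + eP i + eP j + v = X + v + eP i + eP j := by abel
    simp only [hmem, e1, e2, e3, add_sub_cancel_right]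
    have e4 : pe z (shift v U) X y i j = pe z U (X + v) y i j := by
      unfold pe plaq shift
      simp only [e1, e2]
    rw [e4]

/-- the weights of the right half -/
def sP (X : Pl) (i : Fin 4) : ℝ := if 0 ≤ X.1 then 1 else 0

lemma s_total (X : Pl) (i : Fin 4) : sP X i + sP (rho i (X - (-1, 0))) i + sC X i = 1 := by
  unfold sP sC rho
  by_cases hi : i = 0
  · simp only [hi, if_true, and_true]
    have e : (X - ((-1, 0) : Pl)).1 = X.1 + 1 := by
      show X.1 - -1 = X.1 + 1
      ring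
    rw [e]
    rcases lt_trichotomy X.1 (-1) with h | h | h
    · rw [if_neg (by omega), if_pos (by show 0 ≤ -(X.1 + 1) - 1; omega), if_neg (by omega)]
      norm_num
    · rw [if_neg (by omega), if_neg (by show ¬ 0 ≤ -(X.1 + 1) - 1; omega), if_pos h]
      norm_num
    · rw [if_pos (by omega), if_neg (by show ¬ 0 ≤ -(X.1 + 1) - 1; omega), if_neg (by omega)]
      norm_num
  · simp only [hi, if_false, and_false, add_zero]
    have e : (X - ((-1, 0) : Pl)).1 = X.1 + 1 := by
      show X.1 - -1 = X.1 + 1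
      ring
    rw [e]
    by_cases h : 0 ≤ X.1
    · rw [if_pos h, if_neg (by show ¬ 0 ≤ -(X.1 + 1); omega)]
      norm_num
    · rw [if_neg h, if_pos (by show 0 ≤ -(X.1 + 1); omega)]
      norm_num

variable [MeasurableSpace (SU N)] [BorelSpace (SU N)]

lemma action_splitL (z : ℂ) (L : ℕ) (c d : ℤ) (U : Pl → Fib N l) :
    action z (Finset.Icc (-1 - (L : ℤ), c) ((L : ℤ), d)) U =
      wact z (Finset.Icc (-1 - (L : ℤ), c) ((L : ℤ), d)) sP U +
        wact z (Finset.Icc (-1 - (L : ℤ), c) ((L : ℤ), d)) sP (reflL U) +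
        wact z (Finset.Icc (-1 - (L : ℤ), c) ((L : ℤ), d)) sC U := by
  have h1 := wact_refl z (-(L : ℤ), c) ((L : ℤ) + 1, d) sP (shift (-1, 0) U)
  have h2 := wact_shift z (-1 - (L : ℤ), c) ((L : ℤ), d) (-1, 0)
    (fun X i => sP (rho i X) i) U
  have e1 : (((-1 - (L : ℤ), c) : Pl) - (-1, 0)) = (-(L : ℤ), c) := by
    ext
    · show -1 - (L : ℤ) - -1 = -(L : ℤ)
      ring
    · show c - 0 = c
      ring
  have e2 : ((((L : ℤ), d) : Pl) - (-1, 0)) = ((L : ℤ) + 1, d) := by
    ext
    · show (L : ℤ) - -1 = (L : ℤ) + 1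
      ring
    · show d - 0 = d
      ring
  have e3 : ((-((L : ℤ) + 1), c) : Pl) = (-1 - (L : ℤ), c) := by
    ext
    · show -((L : ℤ) + 1) = -1 - (L : ℤ)
      ring
    · rfl
  rw [e1, e2] at h2
  simp only [neg_neg, e3] at h1
  rw [h2] at h1
  show _ = _ + wact z (Finset.Icc (-1 - (L : ℤ), c) ((L : ℤ), d)) sP (refl (shift (-1, 0) U)) + _
  rw [h1, wact_add, wact_add, action_wact]
  congr 1
  funext X i
  exact (s_total X i).symm

lemma wact_sP_dep (z : ℂ) (L : ℕ) (c d : ℤ) :
    DepOn (wact z (Finset.Icc (-1 - (L : ℤ), c) ((L : ℤ), d)) sP : (Pl → Fib N l) → ℝ)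
      (Finset.Icc (0, c) ((L : ℤ), d)) := by
  refine wact_dep z _ _ _ fun X i j hij h0 h1 h2 h3 hs => ?_
  have hX : 0 ≤ X.1 := by
    by_contra h
    apply hs
    unfold sP
    rw [if_neg h]
  simp only [mem_box, Prod.fst_add, Prod.snd_add] at h0 h1 h2 h3 ⊢
  fin_cases i <;> fin_cases j <;>
    first
    | (exfalso; revert hij; decide)
    | (simp [eP] at *; try omega)

lemma dep_comb {L : ℕ} {c d : ℤ} {G : (Pl → Fib N l) → ℝ}
    (hdep : DepOn G (Finset.Icc (0, c) ((L : ℤ), d))) (w : Lk l → SU N) :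
    G (cf (comb 1 w)) = G (cf w) := by
  refine hdep _ _ fun X p hX _ => ?_
  rw [mem_box] at hX
  have h0 : 0 ≤ X.1 := hX.1
  show comb 1 w (X, p) = w (X, p)
  unfold comb
  rw [if_neg]
  rintro ⟨h, -⟩
  have : X.1 = -1 := h
  omega

lemma dep_comb_refl {L : ℕ} {c d : ℤ} {G : (Pl → Fib N l) → ℝ}
    (hdep : DepOn G (Finset.Icc (0, c) ((L : ℤ), d))) (w : Lk l → SU N) :
    G (reflL (cf (comb 1 w))) = G (reflL (cf w)) := by
  refine hdep _ _ fun X p hX _ => ?_
  rw [mem_box] at hX
  have h0 : 0 ≤ X.1 := hX.1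
  have e : cf (comb 1 w) (rhoL p.2 X) p = cf w (rhoL p.2 X) p := by
    show comb 1 w (rhoL p.2 X, p) = w (rhoL p.2 X, p)
    unfold comb
    rw [if_neg]
    rintro ⟨h, h'⟩
    have h1 : (rhoL p.2 X).1 = -1 := h
    have h2 : p.2 = 0 := h'
    unfold rhoL at h1
    rw [if_pos h2] at h1
    have : -X.1 - 2 = -1 := h1
    omega
  rw [reflL_apply, reflL_apply, e]

lemma gauge_reflL {α : Type*} {F : (Pl → Fib N l) → α} (hF : GaugeInv F) :
    GaugeInv fun U => F (reflL U) := gauge_shift (gauge_refl hF) (-1, 0)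

end RL

open RL RP

variable [MeasurableSpace (SU N)] [BorelSpace (SU N)] (μ : Measure (SU N))
  [IsProbabilityMeasure μ] [μ.IsMulLeftInvariant] [μ.IsMulRightInvariant]

/-- **Reflection positivity in the hyperplane `x₀ = -1/2`** for gauge invariant observables. -/
theorem rp_link (z : ℂ) {β : ℝ} (hβ : 0 ≤ β) (L : ℕ) (c d : ℤ) (F : (Pl → Fib N l) → ℝ)
    (hF : Measurable F) (hb : ∃ M : ℝ, ∀ U, |F U| ≤ M) (hinv : GaugeInv F)
    (hdep : DepOn F (Finset.Icc (0, c) ((L : ℤ), d))) :
    0 ≤ expect μ z β (Finset.Icc (-1 - (L : ℤ), c) ((L : ℤ), d))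
      (fun U => F (reflL U) * F U) := by
  obtain ⟨M, hM⟩ := hb
  set Λ := Finset.Icc ((-1 - (L : ℤ), c) : Pl) ((L : ℤ), d) with hΛ
  have hsub : Finset.Icc ((0 : ℤ), c) ((L : ℤ), d) ⊆ Λ := by
    intro X hX
    rw [mem_box] at hX
    rw [hΛ, mem_box]
    refine ⟨?_, hX.2⟩
    show -1 - (L : ℤ) ≤ X.1
    have : (0 : ℤ) ≤ X.1 := hX.1
    omega
  have hD1 : DepOn F Λ := dep_mono hdep hsub
  have hD2 : DepOn (fun U => F (reflL U)) Λ := by
    intro U U' h
    refine hdep _ _ fun X p hX hX' => ?_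
    rw [reflL_apply, reflL_apply]
    have key : U (rhoL p.2 X) p = U' (rhoL p.2 X) p := by
      rw [mem_box] at hX hX'
      simp only [Prod.fst_add, Prod.snd_add] at hX hX'
      refine h _ p ?_ ?_
      · rw [hΛ, mem_box]
        unfold rhoL
        obtain ⟨y, i⟩ := p
        revert hX hX'
        fin_cases i <;> simp [eP] <;> omega
      · rw [hΛ, mem_box]
        unfold rhoL
        obtain ⟨y, i⟩ := p
        revert hX hX'
        fin_cases i <;> simp [eP] <;> omega
    rw [key]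
  rw [expect_eq μ z β (F := fun U => F (reflL U) * F U) ((hF.comp reflL_meas).mul hF)
    (fun U U' h => by
      show F (reflL U) * F U = F (reflL U') * F U'
      rw [hD1 U U' h]
      have := hD2 U U' h
      simp only at this
      rw [this])]
  refine div_nonneg ?_ (integral_nonneg fun w => (Real.exp_pos _).le)
  -- temporal gauge
  obtain ⟨K, hK⟩ := action_bdd (N := N) (l := l) z Λ
  have hΦ := gauge_fix (l := l) μ (Φ := fun U => F (reflL U) * F U * Real.exp (-(β * action z Λ U)))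
    (((hF.comp reflL_meas).mul hF).mul ((action_meas z Λ).const_mul β).neg.exp)
    ⟨M * M * Real.exp (|β| * K), fun U => by
      rw [abs_mul, abs_mul, Real.abs_exp]
      have hM0 : 0 ≤ M := (abs_nonneg _).trans (hM U)
      refine mul_le_mul (mul_le_mul (hM _) (hM _) (abs_nonneg _) hM0) (Real.exp_le_exp.2 ?_)
        (Real.exp_pos _).le (by positivity)
      refine (neg_le_abs _).trans ?_
      rw [abs_mul]
      exact mul_le_mul_of_nonneg_left (hK _) (abs_nonneg _)⟩
    (fun g U => by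
      show F (reflL (gt g U)) * F (gt g U) * Real.exp (-(β * action z Λ (gt g U))) =
        F (reflL U) * F U * Real.exp (-(β * action z Λ U))
      have hg : F (reflL (gt g U)) = F (reflL U) := gauge_reflL hinv g U
      rw [hg, hinv g U, action_gt z Λ g U])
  rw [hΦ]
  obtain ⟨C, hC⟩ := wact_cross (N := N) (l := l) z Λ
  set G : (Pl → Fib N l) → ℝ := fun U => F U * Real.exp (-(β * wact z Λ sP U)) with hGdef
  have hGm : Measurable G := hF.mul ((wact_meas z _ _).const_mul β).neg.exp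
  have hGb : ∃ M : ℝ, ∀ U, |G U| ≤ M := by
    obtain ⟨K, hK⟩ := wact_bdd (N := N) (l := l) z Λ sP
    refine ⟨M * Real.exp (|β| * K), fun U => ?_⟩
    show |F U * Real.exp (-(β * wact z Λ sP U))| ≤ _
    rw [abs_mul, Real.abs_exp]
    refine mul_le_mul (hM U) (Real.exp_le_exp.2 ?_) (Real.exp_pos _).le
      ((abs_nonneg _).trans (hM U))
    refine (neg_le_abs _).trans ?_
    rw [abs_mul]
    exact mul_le_mul_of_nonneg_left (hK U) (abs_nonneg _)
  have hGd : DepOn G (Finset.Icc (0, c) ((L : ℤ), d)) := fun U U' h => by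
    show F U * Real.exp (-(β * wact z Λ sP U)) = F U' * Real.exp (-(β * wact z Λ sP U'))
    rw [hdep U U' h, wact_sP_dep z L c d U U' h]
  have key := rpL_exp (l := l) μ (KK' Λ) (fun k => vv Λ k) (fun k => vv_meas Λ k)
    (fun k => ⟨1, fun U => vv_bdd Λ k U⟩) (fun k => vv_dep L c d k) hβ hGm hGb hGd
  have key2 : ∫ w, F (reflL (cf (comb 1 w))) * F (cf (comb 1 w)) *
      Real.exp (-(β * action z Λ (cf (comb 1 w)))) ∂(Pw (l := l) μ) =
      Real.exp (-(β * C)) * ∫ w, G (reflL (cf w)) * G (cf w) *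
        Real.exp (β * ∑ k ∈ KK' Λ, vv Λ k (reflL (cf w)) * vv Λ k (cf w)) ∂(Pw (l := l) μ) := by
    rw [← integral_const_mul]
    refine integral_congr_ae (Filter.Eventually.of_forall fun w => ?_)
    show F (reflL (cf (comb 1 w))) * F (cf (comb 1 w)) *
      Real.exp (-(β * action z Λ (cf (comb 1 w)))) =
      Real.exp (-(β * C)) * (G (reflL (cf w)) * G (cf w) *
        Real.exp (β * ∑ k ∈ KK' Λ, vv Λ k (reflL (cf w)) * vv Λ k (cf w)))
    have e1 : ∑ k ∈ KK' Λ, vv Λ k (reflL (cf w)) * vv Λ k (cf w) =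
        ∑ k ∈ KK' Λ, vv Λ k (reflL (cf (comb 1 w))) * vv Λ k (cf (comb 1 w)) := by
      refine Finset.sum_congr rfl fun k _ => ?_
      rw [dep_comb (vv_dep L c d k) w, dep_comb_refl (vv_dep L c d k) w]
    rw [e1, ← dep_comb hGd w, ← dep_comb_refl hGd w, action_splitL, hC w]
    show _ = Real.exp (-(β * C)) * (F (reflL (cf (comb 1 w))) *
      Real.exp (-(β * wact z Λ sP (reflL (cf (comb 1 w))))) * (F (cf (comb 1 w)) *
      Real.exp (-(β * wact z Λ sP (cf (comb 1 w))))) * _)
    have e2 : -(β * (wact z Λ sP (cf (comb 1 w)) + wact z Λ sP (reflL (cf (comb 1 w))) +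
        (C - ∑ k ∈ KK' Λ, vv Λ k (reflL (cf (comb 1 w))) * vv Λ k (cf (comb 1 w))))) =
        -(β * C) + -(β * wact z Λ sP (reflL (cf (comb 1 w)))) +
        -(β * wact z Λ sP (cf (comb 1 w))) +
        β * ∑ k ∈ KK' Λ, vv Λ k (reflL (cf (comb 1 w))) * vv Λ k (cf (comb 1 w)) := by ring
    rw [e2, Real.exp_add, Real.exp_add, Real.exp_add]
    ring
  rw [key2]
  exact mul_nonneg (Real.exp_pos _).le key

end

end Pool.Agent.N984.TW
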