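import Mathlib
import Pool.Agent.N453.TW.RL3
import Pool.Agent.N453.TW.OSInst
import Pool.Agent.N453.OS3

/-!
# The transfer operator of the infinite volume state is positive; spectral form of the mass gap
-/

open MeasureTheory Matrix Filter
open scoped Topology ENNReal

namespace Pool.Agent.N984.TW

set_option linter.unusedSectionVars false
set_option linter.unusedVariables false

noncomputable section

variable {N l : ℕ} [NeZero N] [NeZero l]

open RP RL OSI

variable [MeasurableSpace (SU N)] [BorelSpace (SU N)]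

/-- A complex Hilbert space representation of the state `ω`: `J F` is the vector of the
observable `F` of the half space `x₀ ≥ 0`, and `T` is the transfer operator, the translation by
one unit of time. -/
structure Phys (ω : ((Pl → Fib N l) → ℝ) → ℝ) {H : Type} [NormedAddCommGroup H]
    [InnerProductSpace ℂ H] (J : halfAlg N l → H) (T : H →L[ℂ] H) : Prop where
  ip : ∀ F G, inner ℂ (J F) (J G) = ((ω (fun U => F.1 (refl U) * G.1 U) : ℝ) : ℂ)
  dense : Dense (Submodule.span ℂ (Set.range J) : Set H)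
  step : ∀ F, T (J F) = J (tauH N l F)

variable (μ : Measure (SU N))
  [IsProbabilityMeasure μ] [μ.IsMulLeftInvariant] [μ.IsMulRightInvariant]

lemma RL.Obs_reflL {F : (Pl → Fib N l) → ℝ} {a b : Pl} (h : Obs F a b) :
    Obs (fun U => F (reflL U)) (-1 - b.1, a.2) (-1 - a.1, b.2) := by
  have h1 := Obs_shift (Obs_refl h) (-1, 0)
  refine Obs_mono h1 (Finset.Icc_subset_Icc ?_ ?_)
  · exact Prod.le_def.2 ⟨by show -1 - b.1 ≤ -b.1 + -1; omega, by show a.2 ≤ a.2 + 0; omega⟩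
  · exact Prod.le_def.2 ⟨by show -a.1 + -1 ≤ -1 - a.1; omega, by show b.2 + 0 ≤ b.2; omega⟩

section

variable {z : ℂ} {β m C : ℝ} {ω : ((Pl → Fib N l) → ℝ) → ℝ} (hm : 0 < m) (hC : 0 ≤ C)
  (h1 : ∀ (a b a₁ b₁ : Pl) (F : (Pl → Fib N l) → ℝ) (R : ℕ), Obs F a₁ b₁ →
        Finset.Icc a₁ b₁ ⊆ Finset.Icc a b →
        (∀ X ∈ Finset.Icc a₁ b₁, ∀ Y ∉ Finset.Icc a b, R < dP X Y) →
        |expect μ z β (Finset.Icc a b) F - ω F| ≤
          C * (Finset.Icc a₁ b₁).card * Real.exp (-(m * R)))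

include hm hC h1

/-- positivity of the transfer operator on observables -/
lemma omega_link (hβ : 0 ≤ β) {F : (Pl → Fib N l) → ℝ} {a b : Pl} (hF : Obs F a b)
    (ha : 0 ≤ a.1) : 0 ≤ ω (fun U => F (refl U) * F (shift (1, 0) U)) := by
  set K : ℕ := b.1.natAbs with hK
  have hF' : Obs F (0, a.2) ((K : ℤ), b.2) := Obs_mono hF fun X hX => by
    rw [mem_box] at hX ⊢
    simp only
    omega
  have hH : Obs (fun U => F (reflL U) * F U) (-1 - (K : ℤ), a.2) ((K : ℤ), b.2) := by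
    refine Obs_mul (Obs_mono (RL.Obs_reflL hF') fun X hX => ?_) (Obs_mono hF' fun X hX => ?_)
    · rw [mem_box] at hX ⊢
      simp only at hX ⊢
      omega
    · rw [mem_box] at hX ⊢
      simp only at hX ⊢
      omega
  have h2 := lim_box (N := N) (l := l) μ hm hC h1 hH
  have h3 : 0 ≤ ω (fun U => F (reflL U) * F U) := by
    refine ge_of_tendsto' h2 fun k => ?_
    have h4 := rp_link (l := l) μ z hβ (K + k) (a.2 - k) (b.2 + k) F hF.meas ⟨1, hF.bdd⟩ hF.inv
      (dep_mono hF'.dep fun X hX => by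
        rw [mem_box] at hX ⊢
        simp only at hX ⊢
        push_cast
        omega)
    have h6 : bx (-1 - (K : ℤ), a.2) ((K : ℤ), b.2) k =
        Finset.Icc (-1 - ((K + k : ℕ) : ℤ), a.2 - k) (((K + k : ℕ) : ℤ), b.2 + k) := by
      unfold bx
      congr 2
      push_cast
      ring
    rw [h6]
    exact h4
  rw [← omega_shift (N := N) (l := l) μ hm hC h1 (1, 0) hH] at h3
  have e : ∀ U : Pl → Fib N l, reflL (shift (1, 0) U) = refl U := by
    intro U
    unfold reflL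
    rw [shift_shift]
    congr 1
    funext X
    show U (X + ((-1, 0) + (1, 0))) = U X
    have e2 : (((-1, 0) : Pl) + (1, 0)) = 0 := rfl
    rw [e2, add_zero]
  simp only [e] at h3
  exact h3

end

/-- **The physical Hilbert space, the positive transfer operator and its spectrum.** -/
theorem phys {z : ℂ} {β m C : ℝ} {ω : ((Pl → Fib N l) → ℝ) → ℝ} (hm : 0 < m) (hC : 0 ≤ C)
    (hβ : 0 ≤ β)
    (h1 : ∀ (a b a₁ b₁ : Pl) (F : (Pl → Fib N l) → ℝ) (R : ℕ), Obs F a₁ b₁ →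
        Finset.Icc a₁ b₁ ⊆ Finset.Icc a b →
        (∀ X ∈ Finset.Icc a₁ b₁, ∀ Y ∉ Finset.Icc a b, R < dP X Y) →
        |expect μ z β (Finset.Icc a b) F - ω F| ≤
          C * (Finset.Icc a₁ b₁).card * Real.exp (-(m * R)))
    (h2 : ∀ (a₁ b₁ a₂ b₂ : Pl) (F₁ F₂ : (Pl → Fib N l) → ℝ) (R : ℕ), Obs F₁ a₁ b₁ →
        Obs F₂ a₂ b₂ → (∀ X ∈ Finset.Icc a₁ b₁, ∀ Y ∈ Finset.Icc a₂ b₂, R < dP X Y) →
        |ω (fun U => F₁ U * F₂ U) - ω F₁ * ω F₂| ≤
          C * (Finset.Icc a₁ b₁).card * Real.exp (-(m * R))) :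
    (∃ (H : Type) (_ : NormedAddCommGroup H) (_ : InnerProductSpace ℂ H) (_ : CompleteSpace H)
      (J : halfAlg N l → H) (T : H →L[ℂ] H), Phys (st μ z β) J T) ∧
    ∀ (H : Type) [NormedAddCommGroup H] [InnerProductSpace ℂ H] [CompleteSpace H]
      (J : halfAlg N l → H) (T : H →L[ℂ] H), Phys (st μ z β) J T →
      T.IsPositive ∧ ‖T‖ ≤ 1 ∧ ‖J (oneH N l)‖ = 1 ∧
      (∀ x, T x = x ↔ ∃ c : ℂ, x = c • J (oneH N l)) ∧
      (∀ x, inner ℂ (J (oneH N l)) x = 0 → ‖T x‖ ≤ Real.exp (-m) * ‖x‖) ∧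
      (∀ w ∈ spectrum ℂ T, w = 1 ∨ ‖w‖ ≤ Real.exp (-m)) ∧
      (∀ (F : halfAlg N l) (m₂ : ℝ),
        0 < st μ z β (fun U => F.1 (refl U) * F.1 U) - st μ z β F.1 ^ 2 →
        Real.exp (-(2 * m₂)) * (st μ z β (fun U => F.1 (refl U) * F.1 U) - st μ z β F.1 ^ 2) ≤
          st μ z β (fun U => F.1 (refl U) * F.1 (shift (2, 0) U)) - st μ z β F.1 ^ 2 →
        ∃ w ∈ spectrum ℂ T, w ≠ 1 ∧ Real.exp (-m₂) ≤ ‖w‖) := by
  obtain ⟨D, hB, hτ, hone, hcl⟩ := os_form μ hm hC h1 h2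
  constructor
  · obtain ⟨H, i1, i2, i3, J, T, hr⟩ := N453.OS.exists_recR D
    exact ⟨H, i1, i2, i3, J, T, ⟨fun F G => by rw [hr.ip, hB], hr.dense,
      fun F => by rw [hr.step, hτ]⟩⟩
  · intro H _ _ _ J T hP
    have hr : N453.OS.RecR D J T :=
      ⟨fun F G => by rw [hP.ip, hB], hP.dense, fun F => by rw [hP.step, hτ]⟩
    obtain ⟨p1, p2, p3, p4, p5, p6, p7, p8⟩ := hr.props hm hcl
    rw [hone] at p3 p4 p5
    have hpos : ∀ F : halfAlg N l, 0 ≤ D.B F (D.τ F) := by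
      intro F
      rw [hB, hτ]
      obtain ⟨a, b, ha, hF⟩ := F.2
      obtain ⟨M, hM, hb⟩ := Loc.bound hF
      have hob := Loc.scale hF hM hb
      have h3 := omega_link (l := l) μ hm hC h1 hβ hob ha
      have h4 : Loc (fun U => F.1 (refl U) * F.1 (shift (1, 0) U)) _ _ :=
        Loc.mul (Loc.rf hF) (Loc.sh hF (1, 0))
      show 0 ≤ st μ z β (fun U => F.1 (refl U) * F.1 (shift (1, 0) U))
      rw [st_scale μ hm hC h1 h4 (M := M * M) (by positivity) (fun U => by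
        rw [abs_mul]
        exact mul_le_mul (hb _) (hb _) (abs_nonneg _) hM.le)]
      refine mul_nonneg (by positivity) (h3.trans (le_of_eq ?_))
      congr 1
      funext U
      field_simp
    refine ⟨p7 hpos, p2, p3, p4, p5, p6, fun F m₂ q0 q1 => ?_⟩
    have e0 : D.B F (oneH N l) = st μ z β F.1 := by
      rw [hB]
      show st μ z β (fun U => F.1 (refl U) * 1) = _
      simp only [mul_one]
      obtain ⟨a, b, ha, hF⟩ := F.2
      exact st_refl μ hm hC h1 hF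
    have e1 : N453.OS.corr D F 0 =
        st μ z β (fun U => F.1 (refl U) * F.1 U) - st μ z β F.1 ^ 2 := by
      rw [N453.OS.corr_real, Function.iterate_zero, id, hB, hone, e0]
    have e2 : N453.OS.corr D F 2 =
        st μ z β (fun U => F.1 (refl U) * F.1 (shift (2, 0) U)) - st μ z β F.1 ^ 2 := by
      rw [N453.OS.corr_real, hB, hone, e0, hτ, tauH_iter]
      rfl
    exact p8 F m₂ (by rw [e1]; exact q0) (by rw [e1, e2]; exact q1)

end

end Pool.Agent.N984.TW
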